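import Pool.Agent.Lib.H20WD.Defs

/-! # C1: an isolated vertex -/

set_option autoImplicit false

namespace Pool.Agent.Lib.H20WD

open Finset
open scoped Classical

variable {V : Type}

/-- Proof. `S → Fin 0` is empty. -/
theorem cnt_zero (H : SimpleGraph V) {S : Finset V} (hS : S.Nonempty) : cnt H S 0 = 0 := by
  obtain ⟨x, hx⟩ := hS
  unfold cnt
  have : IsEmpty {c : S → Fin 0 // ∀ u v : S, u ≠ v → c u = c v → H.Adj u v} :=
    ⟨fun c => (c.1 ⟨x, hx⟩).elim0⟩
  exact Nat.card_of_isEmpty

/-- Proof. There is exactly one map from the empty type. -/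
theorem cnt_empty (H : SimpleGraph V) (q : ℕ) : cnt H ∅ q = 1 := by
  unfold cnt
  rw [Nat.card_eq_one_iff_unique]
  refine ⟨⟨fun a b => Subtype.ext (funext fun x => absurd x.2 (Finset.notMem_empty _))⟩,
    ⟨⟨fun x => absurd x.2 (Finset.notMem_empty _), fun u => absurd u.2 (Finset.notMem_empty _)⟩⟩⟩

/-- Proof. If `H.Adj` on `S` implies `H'.Adj` then every colouring for `H` is one for `H'`
(`Nat.card_le_card_of_injective`, the target is finite). -/
theorem cnt_mono {H H' : SimpleGraph V} {S : Finset V}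
    (h : ∀ a ∈ S, ∀ b ∈ S, H.Adj a b → H'.Adj a b) (q : ℕ) : cnt H S q ≤ cnt H' S q := by
  unfold cnt
  refine Nat.card_le_card_of_injective
    (fun c => ⟨c.1, fun u v huv hc => h u u.2 v v.2 (c.2 u v huv hc)⟩) ?_
  intro c d hcd
  have h1 := congrArg Subtype.val hcd
  exact Subtype.ext h1

/-- Proof. `cnt_mono` twice. -/
theorem cnt_congr {H H' : SimpleGraph V} {S : Finset V}
    (h : ∀ a ∈ S, ∀ b ∈ S, (H.Adj a b ↔ H'.Adj a b)) (q : ℕ) : cnt H S q = cnt H' S q :=
  le_antisymm (cnt_mono (fun a ha b hb => (h a ha b hb).1) q)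
    (cnt_mono (fun a ha b hb => (h a ha b hb).2) q)

/-- If `v` has no neighbour in `S` its colour is not used again.

Proof. Equivalence of `{c : S → Fin (q + 1) // ..}` with
`Fin (q + 1) × {c : S.erase v → Fin q // ..}`: `c ↦ (a, c')` with `a = c v` and
`c' w = (finSuccAboveEquiv a).symm ⟨c w, _⟩` (`c w ≠ a` for `w ≠ v`: otherwise `H.Adj v w`); back:
`v ↦ a`, `w ↦ a.succAbove (c' w)`. `Nat.card_congr`, `Nat.card_prod`, `Nat.card_fin`. (Equality of
two colours is preserved since `succAbove a` is injective.) -/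
theorem cnt_iso (H : SimpleGraph V) {S : Finset V} {v : V} (hv : v ∈ S)
    (h : ∀ w ∈ S, ¬ H.Adj v w) (q : ℕ) : cnt H S (q + 1) = (q + 1) * cnt H (S.erase v) q := by
  have key : Nat.card (Fin (q + 1) ×
      {c : ↥(S.erase v) → Fin q //
        ∀ u w : ↥(S.erase v), u ≠ w → c u = c w → H.Adj u w}) =
      cnt H S (q + 1) := by
    unfold cnt
    refine Nat.card_congr (Equiv.ofBijective (fun p => ⟨fun w => if h : w.1 = v then p.1 else
      p.1.succAbove (p.2.1 ⟨w.1, mem_erase.2 ⟨h, w.2⟩⟩), ?_⟩) ⟨?_, ?_⟩)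
    · intro u w huw hc
      beta_reduce at hc
      by_cases hu : u.1 = v
      · by_cases hw : w.1 = v
        · exact absurd (Subtype.ext (hu.trans hw.symm)) huw
        · rw [dif_pos hu, dif_neg hw] at hc
          exact absurd hc.symm (Fin.succAbove_ne _ _)
      · by_cases hw : w.1 = v
        · rw [dif_neg hu, dif_pos hw] at hc
          exact absurd hc (Fin.succAbove_ne _ _)
        · rw [dif_neg hu, dif_neg hw] at hc
          have h1 := Fin.succAbove_right_injective hc
          refine p.2.2 ⟨u.1, mem_erase.2 ⟨hu, u.2⟩⟩ ⟨w.1, mem_erase.2 ⟨hw, w.2⟩⟩ ?_ h1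
          intro h2
          exact huw (Subtype.ext (congrArg (fun z : ↥(S.erase v) => z.1) h2))
    · intro p p' hpp
      have hf := congrArg Subtype.val hpp
      have h1 : p.1 = p'.1 := by
        have h2 := congrFun hf ⟨v, hv⟩
        simpa using h2
      refine Prod.ext h1 (Subtype.ext (funext fun w => ?_))
      have hw := mem_erase.1 w.2
      have h2 := congrFun hf ⟨w.1, hw.2⟩
      simp only [hw.1, dite_false, h1] at h2
      exact Fin.succAbove_right_injective h2
    · intro c
      have hex : ∀ w : ↥(S.erase v), ∃ z : Fin q,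
          (c.1 ⟨v, hv⟩).succAbove z = c.1 ⟨w.1, mem_of_mem_erase w.2⟩ := by
        intro w
        refine Fin.exists_succAbove_eq ?_
        intro h1
        refine h w.1 (mem_of_mem_erase w.2) ?_
        refine c.2 ⟨v, hv⟩ ⟨w.1, mem_of_mem_erase w.2⟩ ?_ h1.symm
        intro h2
        exact (mem_erase.1 w.2).1 (congrArg (fun z : ↥S => z.1) h2).symm
      choose f hf using hex
      refine ⟨(c.1 ⟨v, hv⟩, ⟨f, ?_⟩), ?_⟩
      · intro u w huw huw'
        refine c.2 ⟨u.1, mem_of_mem_erase u.2⟩ ⟨w.1, mem_of_mem_erase w.2⟩ ?_ ?_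
        · intro h2
          exact huw (Subtype.ext (congrArg (fun z : ↥S => z.1) h2))
        · rw [← hf u, ← hf w, huw']
      · refine Subtype.ext (funext fun w => ?_)
        by_cases hw : w.1 = v
        · have hw2 : w = ⟨v, hv⟩ := Subtype.ext hw
          subst hw2
          simp
        · simp only [hw, dite_false]
          exact hf ⟨w.1, mem_erase.2 ⟨hw, w.2⟩⟩
  rw [← key, Nat.card_prod, Nat.card_fin]
  rfl

end Pool.Agent.Lib.H20WD
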