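import Pool.Agent.Lib.H20WD.Defs

/-! # C2: removing and contracting an edge -/

set_option autoImplicit false

namespace Pool.Agent.Lib.H20WD

open Finset
open scoped Classical

variable {V : Type}

private theorem C2_del (H : SimpleGraph V) {S : Finset V} {u v : V} (hu : u ∈ S) (hv : v ∈ S)
    (huv : H.Adj u v) (q : ℕ) (c : S → Fin q) :
    (∀ a b : S, a ≠ b → c a = c b → (del H u v).Adj a b) ↔
      (∀ a b : S, a ≠ b → c a = c b → H.Adj a b) ∧ ¬ c ⟨u, hu⟩ = c ⟨v, hv⟩ := by
  constructor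
  · intro h
    refine ⟨fun a b hab hc => (h a b hab hc).1, fun hc => ?_⟩
    have hne : (⟨u, hu⟩ : S) ≠ ⟨v, hv⟩ := fun h' => huv.ne (congrArg Subtype.val h')
    exact (h _ _ hne hc).2.1 ⟨rfl, rfl⟩
  · rintro ⟨h, hc0⟩ a b hab hc
    refine ⟨h a b hab hc, ?_, ?_⟩
    · rintro ⟨ha, hb⟩
      apply hc0
      have ha' : a = ⟨u, hu⟩ := Subtype.ext ha
      have hb' : b = ⟨v, hv⟩ := Subtype.ext hb
      rw [← ha', ← hb', hc]
    · rintro ⟨ha, hb⟩
      apply hc0
      have ha' : a = ⟨v, hv⟩ := Subtype.ext ha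
      have hb' : b = ⟨u, hu⟩ := Subtype.ext hb
      rw [← ha', ← hb', hc]

private theorem C2_ctr (H : SimpleGraph V) {S : Finset V} {u v : V} (hu : u ∈ S) (hv : v ∈ S)
    (huv : H.Adj u v) (q : ℕ) :
    Nat.card {c : S → Fin q // (∀ a b : S, a ≠ b → c a = c b → H.Adj a b) ∧
      c ⟨u, hu⟩ = c ⟨v, hv⟩} = cnt (ctr H u v) (S.erase v) q := by
  have huv' : u ≠ v := huv.ne
  have hue : u ∈ S.erase v := mem_erase.2 ⟨huv', hu⟩
  unfold cnt
  refine Nat.card_congr ⟨fun c => ⟨fun w => c.1 ⟨w.1, mem_of_mem_erase w.2⟩, ?_⟩,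
    fun c => ⟨fun w => if h : w.1 = v then c.1 ⟨u, hue⟩ else c.1 ⟨w.1, mem_erase.2 ⟨h, w.2⟩⟩, ?_, ?_⟩,
    ?_, ?_⟩
  · obtain ⟨c, hc1, hc2⟩ := c
    intro a b hab hc
    have hab' : (a : V) ≠ b := fun h => hab (Subtype.ext h)
    have hav : (a : V) ≠ v := ne_of_mem_erase a.2
    have hbv : (b : V) ≠ v := ne_of_mem_erase b.2
    refine ⟨hc1 _ _ (fun h => hab' (Subtype.mk.inj h)) hc, ?_, ?_⟩
    · intro ha
      refine hc1 ⟨v, hv⟩ ⟨b.1, mem_of_mem_erase b.2⟩ (fun h => hbv (congrArg Subtype.val h).symm) ?_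
      rw [← hc2]
      refine Eq.trans ?_ hc
      congr 1
      exact Subtype.ext ha.symm
    · intro hb
      refine hc1 ⟨v, hv⟩ ⟨a.1, mem_of_mem_erase a.2⟩ (fun h => hav (congrArg Subtype.val h).symm) ?_
      rw [← hc2]
      refine Eq.trans ?_ hc.symm
      congr 1
      exact Subtype.ext hb.symm
  · obtain ⟨c, hc1⟩ := c
    intro a b hab hc
    have hab' : (a : V) ≠ b := fun h => hab (Subtype.ext h)
    dsimp only at hc
    by_cases ha : (a : V) = v
    · have hb : (b : V) ≠ v := fun h => hab' (ha.trans h.symm)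
      rw [dif_pos ha, dif_neg hb] at hc
      rw [ha]
      by_cases hbu : (b : V) = u
      · rw [hbu]
        exact huv.symm
      · have := hc1 ⟨u, hue⟩ ⟨b.1, mem_erase.2 ⟨hb, b.2⟩⟩
          (fun h => hbu (congrArg Subtype.val h).symm) hc
        exact this.2.1 rfl
    · by_cases hb : (b : V) = v
      · rw [dif_neg ha, dif_pos hb] at hc
        rw [hb]
        by_cases hau : (a : V) = u
        · rw [hau]
          exact huv
        · have := hc1 ⟨a.1, mem_erase.2 ⟨ha, a.2⟩⟩ ⟨u, hue⟩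
            (fun h => hau (congrArg Subtype.val h)) hc
          exact (this.2.2 rfl).symm
      · rw [dif_neg ha, dif_neg hb] at hc
        exact (hc1 ⟨a.1, mem_erase.2 ⟨ha, a.2⟩⟩ ⟨b.1, mem_erase.2 ⟨hb, b.2⟩⟩
          (fun h => hab' (Subtype.mk.inj h)) hc).1
  · dsimp only
    rw [dif_neg huv', dif_pos rfl]
  · rintro ⟨c, hc1, hc2⟩
    apply Subtype.ext
    funext w
    dsimp only
    by_cases hw : (w : V) = v
    · rw [dif_pos hw, hc2]
      congr 1
      exact Subtype.ext hw.symm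
    · rw [dif_neg hw]
  · rintro ⟨c, hc1⟩
    apply Subtype.ext
    funext w
    dsimp only
    rw [dif_neg (ne_of_mem_erase w.2)]

/-- Removing and contracting the edge `uv`.

Proof. The colourings with `c u ≠ c v` are exactly the colourings for `del H u v`. Those with
`c u = c v` correspond to the colourings of `S.erase v` for `ctr H u v`: restriction, and back the
extension by `c v := c u` (for `w ≠ u, v`: `c w = c u` iff `c w = c v`, and this has to imply
`H.Adj w u` and `H.Adj w v`, which is adjacency of `w` and `u` in `ctr H u v`; `u` and `v`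
themselves are adjacent in `H`). `Nat.card` of the sum type / of the subtype of a disjunction. -/
theorem cnt_edge (H : SimpleGraph V) {S : Finset V} {u v : V} (hu : u ∈ S) (hv : v ∈ S)
    (huv : H.Adj u v) (q : ℕ) :
    cnt H S q = cnt (del H u v) S q + cnt (ctr H u v) (S.erase v) q := by
  rw [← C2_ctr H hu hv huv q]
  unfold cnt
  rw [Nat.card_eq_fintype_card, Nat.card_eq_fintype_card, Nat.card_eq_fintype_card,
    Fintype.card_subtype, Fintype.card_subtype, Fintype.card_subtype]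
  have e1 : (univ.filter fun c : S → Fin q => ∀ a b : S, a ≠ b → c a = c b → (del H u v).Adj a b) =
      (univ.filter fun c : S → Fin q => ∀ a b : S, a ≠ b → c a = c b → H.Adj a b).filter
        fun c => ¬ c ⟨u, hu⟩ = c ⟨v, hv⟩ := by
    rw [filter_filter]
    exact filter_congr fun c _ => C2_del H hu hv huv q c
  have e2 : (univ.filter fun c : S → Fin q => (∀ a b : S, a ≠ b → c a = c b → H.Adj a b) ∧
      c ⟨u, hu⟩ = c ⟨v, hv⟩) =
      (univ.filter fun c : S → Fin q => ∀ a b : S, a ≠ b → c a = c b → H.Adj a b).filter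
        fun c => c ⟨u, hu⟩ = c ⟨v, hv⟩ := by
    rw [filter_filter]
  rw [e1, e2, add_comm]
  exact (card_filter_add_card_filter_not _).symm

end Pool.Agent.Lib.H20WD
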