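import Pool.Agent.Lib.H20WD.C1
import Pool.Agent.Lib.H20WD.C2

/-! # C3: moving an edge to an isolated vertex -/

set_option autoImplicit false

namespace Pool.Agent.Lib.H20WD

open Finset
open scoped Classical

variable {V : Type}

private theorem C3_ctr (H : SimpleGraph V) {S : Finset V} {u v w : V} (hu : u ∈ S) (hv : v ∈ S)
    (hw : w ∈ S) (huv : H.Adj u v) (h : ∀ x ∈ S, ¬ H.Adj w x) (q : ℕ) :
    cnt (ctr H u v) (S.erase v) q ≤ cnt (ctr (add (del H u v) u w) u w) (S.erase w) q := by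
  have hne : u ≠ v := huv.ne
  have hwu : w ≠ u := fun h' => h v hv (h' ▸ huv)
  have hwv : w ≠ v := fun h' => h u hu (h' ▸ huv.symm)
  have hue : u ∈ S.erase v := mem_erase.2 ⟨hne, hu⟩
  have hwe : w ∈ S.erase v := mem_erase.2 ⟨hwv, hw⟩
  have hve' : v ∈ S.erase w := mem_erase.2 ⟨hwv.symm, hv⟩
  have hue' : u ∈ S.erase w := mem_erase.2 ⟨hwu.symm, hu⟩
  unfold cnt
  have key : ∀ c : {c : (↥(S.erase v)) → Fin q // ∀ a b : (↥(S.erase v)), a ≠ b →
      c a = c b → (ctr H u v).Adj a b},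
      ∀ x : (↥(S.erase v)), (x : V) ≠ w → c.1 x ≠ c.1 ⟨w, hwe⟩ := by
    intro c x hx hc
    have h1 := c.2 ⟨w, hwe⟩ x (fun h' => hx (congrArg Subtype.val h').symm) hc.symm
    exact h x (mem_of_mem_erase x.2) h1.1
  refine Nat.card_le_card_of_injective (fun c => ⟨fun x => if hxv : x.1 = v then c.1 ⟨u, hue⟩
    else if x.1 = u then c.1 ⟨w, hwe⟩ else c.1 ⟨x.1, mem_erase.2 ⟨hxv, mem_of_mem_erase x.2⟩⟩, ?_⟩) ?_
  · intro x y hxy hc
    have hxy' : (x : V) ≠ y := fun h' => hxy (Subtype.ext h')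
    have hxw : (x : V) ≠ w := ne_of_mem_erase x.2
    have hyw : (y : V) ≠ w := ne_of_mem_erase y.2
    have hxS : (x : V) ∈ S := mem_of_mem_erase x.2
    have hyS : (y : V) ∈ S := mem_of_mem_erase y.2
    dsimp only at hc
    have hxu : (x : V) ≠ u := by
      intro hxu
      have hxv : (x : V) ≠ v := fun h' => hne (hxu.symm.trans h')
      have hyu : (y : V) ≠ u := fun h' => hxy' (hxu.trans h'.symm)
      rw [dif_neg hxv, if_pos hxu] at hc
      by_cases hyv : (y : V) = v
      · rw [dif_pos hyv] at hc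
        exact key c ⟨u, hue⟩ hwu.symm hc.symm
      · rw [dif_neg hyv, if_neg hyu] at hc
        exact key c ⟨y.1, mem_erase.2 ⟨hyv, hyS⟩⟩ hyw hc.symm
    have hyu : (y : V) ≠ u := by
      intro hyu
      have hyv : (y : V) ≠ v := fun h' => hne (hyu.symm.trans h')
      rw [dif_neg hyv, if_pos hyu] at hc
      by_cases hxv : (x : V) = v
      · rw [dif_pos hxv] at hc
        exact key c ⟨u, hue⟩ hwu.symm hc
      · rw [dif_neg hxv, if_neg hxu] at hc
        exact key c ⟨x.1, mem_erase.2 ⟨hxv, hxS⟩⟩ hxw hc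
    refine ⟨Or.inl ⟨?_, fun h' => hxu h'.1, fun h' => hyu h'.2⟩, fun h' => absurd h' hxu,
      fun h' => absurd h' hyu⟩
    simp only [if_neg hxu, if_neg hyu] at hc
    by_cases hxv : (x : V) = v
    · have hyv : (y : V) ≠ v := fun h' => hxy' (hxv.trans h'.symm)
      rw [dif_pos hxv, dif_neg hyv] at hc
      rw [hxv]
      exact (c.2 ⟨u, hue⟩ ⟨y.1, mem_erase.2 ⟨hyv, hyS⟩⟩
        (fun h' => hyu (congrArg Subtype.val h').symm) hc).2.1 rfl
    · by_cases hyv : (y : V) = v
      · rw [dif_neg hxv, dif_pos hyv] at hc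
        rw [hyv]
        exact ((c.2 ⟨x.1, mem_erase.2 ⟨hxv, hxS⟩⟩ ⟨u, hue⟩
          (fun h' => hxu (congrArg Subtype.val h')) hc).2.2 rfl).symm
      · rw [dif_neg hxv, dif_neg hyv] at hc
        exact (c.2 ⟨x.1, mem_erase.2 ⟨hxv, hxS⟩⟩ ⟨y.1, mem_erase.2 ⟨hyv, hyS⟩⟩
          (fun h' => hxy' (Subtype.mk.inj h')) hc).1
  · intro c c' hcc
    apply Subtype.ext
    funext x
    have hcc' : ∀ y : (↥(S.erase w)), _ = _ := fun y => congrFun (congrArg Subtype.val hcc) y
    dsimp only at hcc'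
    have hxv : (x : V) ≠ v := ne_of_mem_erase x.2
    have hxS : (x : V) ∈ S := mem_of_mem_erase x.2
    by_cases hxu : (x : V) = u
    · have h1 := hcc' ⟨v, hve'⟩
      rw [dif_pos rfl, dif_pos rfl] at h1
      have e : x = ⟨u, hue⟩ := Subtype.ext hxu
      rw [e]
      exact h1
    by_cases hxw : (x : V) = w
    · have h1 := hcc' ⟨u, hue'⟩
      rw [dif_neg hne, dif_neg hne, if_pos rfl, if_pos rfl] at h1
      have e : x = ⟨w, hwe⟩ := Subtype.ext hxw
      rw [e]
      exact h1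
    · have h1 := hcc' ⟨x.1, mem_erase.2 ⟨hxw, hxS⟩⟩
      rw [dif_neg hxv, dif_neg hxv, if_neg hxu, if_neg hxu] at h1
      exact h1

/-- The edge `uv` is replaced by `uw`, where `w` is isolated.

Proof. `cnt_edge` for `H`, edge `uv`, and for `H' = add (del H u v) u w`, edge `uw`
(`w ≠ u, v` since `w` is isolated in `S`). The graphs `del H u v` and `del H' u w` agree on `S`
(`cnt_congr`). So it is enough that `cnt (ctr H u v) (S.erase v) q ≤ cnt (ctr H' u w) (S.erase w) q`.
Map the colouring `c` of `S.erase v` to the colouring `c'` of `S.erase w` with `c' v = c u`,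
`c' u = c w`, `c' x = c x` for the other `x`. This is injective. It is a colouring for
`ctr H' u w`: in `ctr H u v` the vertex `w` is isolated, so `c w` is a colour that is not used on
`S.erase v` again: the colour `c' u` is not used again. If `c' v = c' x` for an `x ≠ u, v`, then
`c u = c x`, so `x` is a common neighbour of `u` and `v` in `H`, and `H.Adj v x` is still true in
`ctr H' u w`. If `c' x = c' y` for `x, y` different from `u`, `v`, then `H.Adj x y`, also in
`ctr H' u w`. -/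
theorem cnt_swap (H : SimpleGraph V) {S : Finset V} {u v w : V} (hu : u ∈ S) (hv : v ∈ S)
    (hw : w ∈ S) (huv : H.Adj u v) (h : ∀ x ∈ S, ¬ H.Adj w x) (q : ℕ) :
    cnt H S q ≤ cnt (add (del H u v) u w) S q := by
  have hne : u ≠ v := huv.ne
  have hwu : w ≠ u := fun h' => h v hv (h' ▸ huv)
  have h1 := cnt_edge H hu hv huv q
  have h2 := cnt_edge (add (del H u v) u w) hu hw (Or.inr ⟨hwu.symm, Or.inl ⟨rfl, rfl⟩⟩) q
  have h3 : cnt (del H u v) S q = cnt (del (add (del H u v) u w) u w) S q := by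
    refine cnt_congr (fun a ha b hb => ⟨fun hab => ?_, fun hab => ?_⟩) q
    · refine ⟨Or.inl hab, ?_, ?_⟩
      · rintro ⟨-, rfl⟩
        exact h a ha hab.1.symm
      · rintro ⟨rfl, -⟩
        exact h b hb hab.1
    · rcases hab.1 with h4 | ⟨-, h4 | h4⟩
      · exact h4
      · exact absurd h4 hab.2.1
      · exact absurd h4 hab.2.2
  have h4 := C3_ctr H hu hv hw huv h q
  omega

end Pool.Agent.Lib.H20WD
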