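import Pool.Agent.Lib.H20WD.C1
import Pool.Agent.Lib.H20WD.C2

/-! # C4: a vertex of degree one or two -/

set_option autoImplicit false

namespace Pool.Agent.Lib.H20WD

open Finset
open scoped Classical

variable {V : Type}

/-- A pendant vertex `v` with neighbour `u`.

Proof. `cnt_edge` for the edge `uv`. In `del H u v` the vertex `v` is isolated in `S`: `cnt_iso`,
and `del H u v` and `H` agree on `S.erase v` (`cnt_congr`). In `ctr H u v` the vertex `u` is
isolated in `S.erase v` (a neighbour would be a neighbour of `v`, hence `u` itself): `cnt_iso`, and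
`ctr H u v` agrees with `H` on `(S.erase v).erase u`. -/
theorem cnt_pend (H : SimpleGraph V) {S : Finset V} {u v : V} (hu : u ∈ S) (hv : v ∈ S)
    (huv : H.Adj v u) (h : ∀ w ∈ S, H.Adj v w → w = u) (q : ℕ) :
    cnt H S (q + 1) = (q + 1) * (cnt H (S.erase v) q + cnt H ((S.erase v).erase u) q) := by
  have hue : u ∈ S.erase v := mem_erase.2 ⟨huv.ne', hu⟩
  have h1 : cnt (del H u v) S (q + 1) = (q + 1) * cnt (del H u v) (S.erase v) q := by
    refine cnt_iso (del H u v) hv (fun w hw ha => ?_) q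
    exact ha.2.2 ⟨rfl, h w hw ha.1⟩
  have h2 : cnt (del H u v) (S.erase v) q = cnt H (S.erase v) q := by
    refine cnt_congr (fun a ha b hb => ?_) q
    have ha' := (mem_erase.1 ha).1
    have hb' := (mem_erase.1 hb).1
    exact ⟨fun h' => h'.1, fun h' => ⟨h', fun h'' => hb' h''.2, fun h'' => ha' h''.1⟩⟩
  have h3 : cnt (ctr H u v) (S.erase v) (q + 1) =
      (q + 1) * cnt (ctr H u v) ((S.erase v).erase u) q := by
    refine cnt_iso (ctr H u v) hue (fun w hw ha => ?_) q
    have h4 : w = u := h w (mem_of_mem_erase hw) (ha.2.1 rfl)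
    exact ha.1.ne h4.symm
  have h4 : cnt (ctr H u v) ((S.erase v).erase u) q = cnt H ((S.erase v).erase u) q := by
    refine cnt_congr (fun a ha b hb => ?_) q
    have ha' := (mem_erase.1 ha).1
    have hb' := (mem_erase.1 hb).1
    exact ⟨fun h' => h'.1, fun h' => ⟨h', fun h'' => (ha' h'').elim, fun h'' => (hb' h'').elim⟩⟩
  rw [cnt_edge H hu hv huv.symm (q + 1), h1, h2, h3, h4, mul_add]

/-- A vertex `v` with exactly two neighbours `u`, `w`, which are not adjacent.

Proof. `cnt_edge` for the edge `uv`. In `del H u v` the vertex `v` is pendant with neighbour `w`: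
`cnt_pend` (and `cnt_congr`). In `ctr H u v` the vertex `u` is isolated in `S.erase v`: `cnt_iso`
and `cnt_congr`. -/
theorem cnt_two (H : SimpleGraph V) {S : Finset V} {u v w : V} (hu : u ∈ S) (hv : v ∈ S)
    (hw : w ∈ S) (hne : u ≠ w) (hvu : H.Adj v u) (hvw : H.Adj v w) (huw : ¬ H.Adj u w)
    (h : ∀ x ∈ S, H.Adj v x → x = u ∨ x = w) (q : ℕ) :
    cnt H S (q + 1) = (q + 1) * (cnt H (S.erase v) q + cnt H ((S.erase v).erase w) q +
      cnt H ((S.erase v).erase u) q) := by
  have hue : u ∈ S.erase v := mem_erase.2 ⟨hvu.ne', hu⟩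
  have hc : ∀ T : Finset V, (∀ a ∈ T, a ≠ v) → ∀ q, cnt (del H u v) T q = cnt H T q := by
    intro T hT q
    refine cnt_congr (fun a ha b hb => ?_) q
    have ha' := hT a ha
    have hb' := hT b hb
    exact ⟨fun h' => h'.1, fun h' => ⟨h', fun h'' => hb' h''.2, fun h'' => ha' h''.1⟩⟩
  have h1 : cnt (del H u v) S (q + 1) = (q + 1) * (cnt (del H u v) (S.erase v) q +
      cnt (del H u v) ((S.erase v).erase w) q) := by
    refine cnt_pend (del H u v) hw hv ⟨hvw, fun h' => hvu.ne h'.1, fun h' => hne h'.2.symm⟩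
      (fun x hx ha => ?_) q
    rcases h x hx ha.1 with h' | h'
    · exact (ha.2.2 ⟨rfl, h'⟩).elim
    · exact h'
  have h3 : cnt (ctr H u v) (S.erase v) (q + 1) =
      (q + 1) * cnt (ctr H u v) ((S.erase v).erase u) q := by
    refine cnt_iso (ctr H u v) hue (fun x hx ha => ?_) q
    rcases h x (mem_of_mem_erase hx) (ha.2.1 rfl) with h' | h'
    · exact ha.1.ne h'.symm
    · exact huw (h' ▸ ha.1)
  have h4 : cnt (ctr H u v) ((S.erase v).erase u) q = cnt H ((S.erase v).erase u) q := by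
    refine cnt_congr (fun a ha b hb => ?_) q
    have ha' := (mem_erase.1 ha).1
    have hb' := (mem_erase.1 hb).1
    exact ⟨fun h' => h'.1, fun h' => ⟨h', fun h'' => (ha' h'').elim, fun h'' => (hb' h'').elim⟩⟩
  rw [cnt_edge H hu hv hvu.symm (q + 1), h1, hc _ (fun a ha => (mem_erase.1 ha).1) q,
    hc _ (fun a ha => (mem_erase.1 (mem_of_mem_erase ha)).1) q, h3, h4, ← mul_add]

/-- A vertex `v` with exactly two neighbours `u`, `w`, which are adjacent.

Proof. `cnt_edge` for the edge `uv`. In `del H u v` the vertex `v` is pendant with neighbour `w`: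
`cnt_pend` (and `cnt_congr`). In `ctr H u v` the vertex `u` is pendant in `S.erase v`, with
neighbour `w`: `cnt_pend` and `cnt_congr`. -/
theorem cnt_three (H : SimpleGraph V) {S : Finset V} {u v w : V} (hu : u ∈ S) (hv : v ∈ S)
    (hw : w ∈ S) (hvu : H.Adj v u) (hvw : H.Adj v w) (huw : H.Adj u w)
    (h : ∀ x ∈ S, H.Adj v x → x = u ∨ x = w) (q : ℕ) :
    cnt H S (q + 1) = (q + 1) * (cnt H (S.erase v) q + cnt H ((S.erase v).erase w) q +
      cnt H ((S.erase v).erase u) q + cnt H (((S.erase v).erase u).erase w) q) := by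
  have hue : u ∈ S.erase v := mem_erase.2 ⟨hvu.ne', hu⟩
  have hwe : w ∈ S.erase v := mem_erase.2 ⟨hvw.ne', hw⟩
  have hc : ∀ T : Finset V, (∀ a ∈ T, a ≠ v) → ∀ q, cnt (del H u v) T q = cnt H T q := by
    intro T hT q
    refine cnt_congr (fun a ha b hb => ?_) q
    have ha' := hT a ha
    have hb' := hT b hb
    exact ⟨fun h' => h'.1, fun h' => ⟨h', fun h'' => hb' h''.2, fun h'' => ha' h''.1⟩⟩
  have hd : ∀ T : Finset V, (∀ a ∈ T, a ≠ u) → ∀ q, cnt (ctr H u v) T q = cnt H T q := by
    intro T hT q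
    refine cnt_congr (fun a ha b hb => ?_) q
    have ha' := hT a ha
    have hb' := hT b hb
    exact ⟨fun h' => h'.1, fun h' => ⟨h', fun h'' => (ha' h'').elim, fun h'' => (hb' h'').elim⟩⟩
  have h1 : cnt (del H u v) S (q + 1) = (q + 1) * (cnt (del H u v) (S.erase v) q +
      cnt (del H u v) ((S.erase v).erase w) q) := by
    refine cnt_pend (del H u v) hw hv ⟨hvw, fun h' => hvu.ne h'.1, fun h' => huw.ne h'.2.symm⟩
      (fun x hx ha => ?_) q
    rcases h x hx ha.1 with h' | h'
    · exact (ha.2.2 ⟨rfl, h'⟩).elim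
    · exact h'
  have h3 : cnt (ctr H u v) (S.erase v) (q + 1) =
      (q + 1) * (cnt (ctr H u v) ((S.erase v).erase u) q +
        cnt (ctr H u v) (((S.erase v).erase u).erase w) q) := by
    refine cnt_pend (ctr H u v) hwe hue ⟨huw, fun _ => hvw, fun _ => hvu⟩
      (fun x hx ha => ?_) q
    rcases h x (mem_of_mem_erase hx) (ha.2.1 rfl) with h' | h'
    · exact (ha.1.ne h'.symm).elim
    · exact h'
  rw [cnt_edge H hu hv hvu.symm (q + 1), h1, hc _ (fun a ha => (mem_erase.1 ha).1) q,
    hc _ (fun a ha => (mem_erase.1 (mem_of_mem_erase ha)).1) q, h3,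
    hd _ (fun a ha => (mem_erase.1 ha).1) q,
    hd _ (fun a ha => (mem_erase.1 (mem_of_mem_erase ha)).1) q, ← mul_add, ← add_assoc]

end Pool.Agent.Lib.H20WD
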