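import Pool.Agent.Lib.H20WD.Defs

/-! # D1: numbers of edges -/

set_option autoImplicit false

namespace Pool.Agent.Lib.H20WD

open Finset
open scoped Classical

variable {V : Type}

/-- Proof. The edges inside `S` which contain `v` are the pairs `s(v, w)`, `w ∈ S`, `H.Adj v w`
(`w ↦ s(v, w)` is injective); the others are the edges inside `S.erase v`. -/
theorem ec_erase (H : SimpleGraph V) {S : Finset V} {v : V} (hv : v ∈ S) :
    ec H (S.erase v) + dg H S v = ec H S := by
  unfold ec dg
  have h1 : #(S.filter fun w => H.Adj v w) = #((S.filter fun w => H.Adj v w).image fun w => s(v, w)) := by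
    refine (card_image_of_injOn ?_).symm
    intro a _ b _ hab
    exact Sym2.congr_right.1 hab
  rw [h1, ← card_union_of_disjoint]
  · congr 1
    ext e
    induction e using Sym2.ind with
    | _ a b =>
      simp only [mem_union, mem_filter, mk_mem_sym2_iff, mem_erase, mem_image,
        SimpleGraph.mem_edgeSet]
      constructor
      · rintro (⟨⟨⟨_, ha⟩, _, hb⟩, hab⟩ | ⟨w, ⟨hw, hvw⟩, he⟩)
        · exact ⟨⟨ha, hb⟩, hab⟩
        · rcases Sym2.eq_iff.1 he with ⟨rfl, rfl⟩ | ⟨rfl, rfl⟩
          · exact ⟨⟨hv, hw⟩, hvw⟩
          · exact ⟨⟨hw, hv⟩, hvw.symm⟩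
      · rintro ⟨⟨ha, hb⟩, hab⟩
        by_cases ha' : a = v
        · right
          subst ha'
          exact ⟨b, ⟨hb, hab⟩, rfl⟩
        · by_cases hb' : b = v
          · right
            subst hb'
            exact ⟨a, ⟨ha, hab.symm⟩, Sym2.eq_swap⟩
          · left
            exact ⟨⟨⟨ha', ha⟩, hb', hb⟩, hab⟩
  · rw [disjoint_left]
    intro e he he'
    obtain ⟨w, _, rfl⟩ := mem_image.1 he'
    have h2 := (mem_filter.1 he).1
    rw [mk_mem_sym2_iff, mem_erase] at h2
    exact h2.1.1 rfl

/-- Proof. Induction on `S` from `ec_erase` (`v ∉ T`: `ec H (insert v T) = ec H T + dg H T v`,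
`dg H (insert v T) v = dg H T v`, and `dg H (insert v T) w = dg H T w + (if H.Adj w v then 1 else 0)`
for `w ∈ T`); or double counting. -/
theorem sum_dg (H : SimpleGraph V) (S : Finset V) : ∑ v ∈ S, dg H S v = 2 * ec H S := by
  induction S using Finset.induction_on with
  | empty =>
    unfold ec
    simp
  | insert v T hv ih =>
    have h1 : dg H (insert v T) v = dg H T v := by
      unfold dg
      rw [filter_insert, if_neg (H.loopless.irrefl v)]
    have h2 := ec_erase H (mem_insert_self v T)
    rw [erase_insert hv, h1] at h2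
    have h3 : ∀ w ∈ T, dg H (insert v T) w = dg H T w + (if H.Adj w v then 1 else 0) := by
      intro w hw
      unfold dg
      rw [filter_insert]
      split_ifs with h
      · rw [card_insert_of_notMem]
        intro h'
        exact hv (mem_filter.1 h').1
      · rfl
    rw [sum_insert hv, h1, sum_congr rfl h3, sum_add_distrib, ih, ← card_filter]
    have h4 : #(T.filter fun w => H.Adj w v) = dg H T v := by
      unfold dg
      congr 1
      ext w
      simp only [mem_filter]
      exact and_congr_right fun _ => ⟨fun h => h.symm, fun h => h.symm⟩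
    rw [h4, ← h2]
    ring

/-- Proof. For `w ∈ S`, `w ≠ v`: the neighbours of `w` in `S.erase v` are those in `S` without `v`. -/
theorem dg_erase (H : SimpleGraph V) {S : Finset V} {v w : V} (hv : v ∈ S) (h : H.Adj w v) :
    dg H (S.erase v) w + 1 = dg H S w := by
  unfold dg
  rw [filter_erase]
  exact card_erase_add_one (mem_filter.2 ⟨hv, h⟩)

/-- Proof. If the graphs agree on `S` the two sets of edges are equal. -/
theorem ec_congr {H H' : SimpleGraph V} {S : Finset V}
    (h : ∀ a ∈ S, ∀ b ∈ S, (H.Adj a b ↔ H'.Adj a b)) : ec H S = ec H' S := by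
  unfold ec
  congr 1
  refine filter_congr fun e he => ?_
  induction e using Sym2.ind with
  | _ a b =>
    rw [mk_mem_sym2_iff] at he
    exact h a he.1 b he.2

/-- Proof. The two sets of neighbours are equal. -/
theorem dg_congr {H H' : SimpleGraph V} {S : Finset V} {v : V}
    (h : ∀ b ∈ S, (H.Adj v b ↔ H'.Adj v b)) : dg H S v = dg H' S v := by
  unfold dg
  congr 1
  exact filter_congr fun b hb => h b hb

end Pool.Agent.Lib.H20WD
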