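import Pool.Agent.Lib.H20WD.D1

/-! # D2: numbers of edges after deleting, contracting and moving an edge -/

set_option autoImplicit false

namespace Pool.Agent.Lib.H20WD

open Finset
open scoped Classical

variable {V : Type}

private theorem D2_dg_zero {H : SimpleGraph V} {S : Finset V} {v : V} :
    dg H S v = 0 ↔ ∀ w ∈ S, ¬ H.Adj v w := by
  unfold dg
  rw [card_eq_zero, filter_eq_empty_iff]

private theorem D2_del_adj {H : SimpleGraph V} {u v a b : V} :
    (del H u v).Adj a b ↔ H.Adj a b ∧ ¬ (a = u ∧ b = v) ∧ ¬ (a = v ∧ b = u) := Iff.rfl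

private theorem D2_add_adj {H : SimpleGraph V} {u w a b : V} :
    (add H u w).Adj a b ↔ H.Adj a b ∨ a ≠ b ∧ (a = u ∧ b = w ∨ a = w ∧ b = u) := Iff.rfl

private theorem D2_ctr_adj {H : SimpleGraph V} {u v a b : V} :
    (ctr H u v).Adj a b ↔ H.Adj a b ∧ (a = u → H.Adj v b) ∧ (b = u → H.Adj v a) := Iff.rfl

/-- Proof. The set of neighbours of `u` loses `v` (and nothing else). -/
theorem dg_del (H : SimpleGraph V) {S : Finset V} {u v : V} (hv : v ∈ S) (h : H.Adj u v) :
    dg (del H u v) S u + 1 = dg H S u := by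
  unfold dg
  have h1 : (S.filter fun w => (del H u v).Adj u w) = (S.filter fun w => H.Adj u w).erase v := by
    ext w
    rw [mem_filter, mem_erase, mem_filter, D2_del_adj]
    constructor
    · rintro ⟨h1, h2, h3, h4⟩
      exact ⟨fun h5 => h3 ⟨rfl, h5⟩, h1, h2⟩
    · rintro ⟨h1, h2, h3⟩
      exact ⟨h2, h3, fun h4 => h1 h4.2, fun h4 => h.ne h4.1⟩
  rw [h1]
  exact card_erase_add_one (mem_filter.2 ⟨hv, h⟩)

/-- Proof. The set of neighbours of `v` loses `u` (and nothing else). -/
theorem dg_del' (H : SimpleGraph V) {S : Finset V} {u v : V} (hu : u ∈ S) (h : H.Adj u v) :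
    dg (del H u v) S v + 1 = dg H S v := by
  unfold dg
  have h1 : (S.filter fun w => (del H u v).Adj v w) = (S.filter fun w => H.Adj v w).erase u := by
    ext w
    rw [mem_filter, mem_erase, mem_filter, D2_del_adj]
    constructor
    · rintro ⟨h1, h2, h3, h4⟩
      exact ⟨fun h5 => h4 ⟨rfl, h5⟩, h1, h2⟩
    · rintro ⟨h1, h2, h3⟩
      exact ⟨h2, h3, fun h4 => h.ne h4.1.symm, fun h4 => h1 h4.2⟩
  rw [h1]
  exact card_erase_add_one (mem_filter.2 ⟨hu, h.symm⟩)

/-- Proof. `dg_congr`. -/
theorem dg_del_ne (H : SimpleGraph V) {S : Finset V} {u v x : V} (hu : x ≠ u) (hv : x ≠ v) :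
    dg (del H u v) S x = dg H S x := by
  refine dg_congr fun b _ => ?_
  rw [D2_del_adj]
  exact ⟨fun h => h.1, fun h => ⟨h, fun h' => hu h'.1, fun h' => hv h'.1⟩⟩

/-- Proof. `ec_erase` at `u` for both graphs; they agree on `S.erase u` (`ec_congr`); `dg_del`. -/
theorem ec_del (H : SimpleGraph V) {S : Finset V} {u v : V} (hu : u ∈ S) (hv : v ∈ S)
    (h : H.Adj u v) : ec (del H u v) S + 1 = ec H S := by
  have h1 := ec_erase (del H u v) hu
  have h2 := ec_erase H hu
  have h3 : ec (del H u v) (S.erase u) = ec H (S.erase u) := by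
    refine ec_congr fun a ha b hb => ?_
    rw [D2_del_adj]
    exact ⟨fun h => h.1, fun h => ⟨h, fun h' => (mem_erase.1 ha).1 h'.1,
      fun h' => (mem_erase.1 hb).1 h'.2⟩⟩
  have h4 := dg_del H hv h
  omega

/-- The number of edges after a contraction, with the number of common neighbours.

Proof. `T = (S.erase v).erase u`. `ec_erase` at `u` for `ctr H u v` and `S.erase v`: the degree of
`u` is the number of common neighbours in `S` (`v` and `u` are not common neighbours), and the two
graphs agree on `T` (`ec_congr`). For `H`: `ec_erase` at `v` and then at `u`, with `dg_erase`. -/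
theorem ec_ctr (H : SimpleGraph V) {S : Finset V} {u v : V} (hu : u ∈ S) (hv : v ∈ S)
    (h : H.Adj u v) : ec (ctr H u v) (S.erase v) + dg H S u + dg H S v =
      ec H S + 1 + #(S.filter fun w => H.Adj u w ∧ H.Adj v w) := by
  have hu' : u ∈ S.erase v := mem_erase.2 ⟨h.ne, hu⟩
  have h1 := ec_erase (ctr H u v) hu'
  have h2 := ec_erase H hv
  have h3 := ec_erase H hu'
  have h4 := dg_erase H hv h
  have h5 : ec (ctr H u v) ((S.erase v).erase u) = ec H ((S.erase v).erase u) := by
    refine ec_congr fun a ha b hb => ?_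
    rw [D2_ctr_adj]
    exact ⟨fun h => h.1, fun h => ⟨h, fun h' => absurd h' (mem_erase.1 ha).1,
      fun h' => absurd h' (mem_erase.1 hb).1⟩⟩
  have h6 : dg (ctr H u v) (S.erase v) u = #(S.filter fun w => H.Adj u w ∧ H.Adj v w) := by
    unfold dg
    congr 1
    ext w
    rw [mem_filter, mem_filter, mem_erase, D2_ctr_adj]
    constructor
    · rintro ⟨⟨_, h2⟩, h3, h4, _⟩
      exact ⟨h2, h3, h4 rfl⟩
    · rintro ⟨h1, h2, h3⟩
      exact ⟨⟨h3.ne.symm, h1⟩, h2, fun _ => h3, fun h' => absurd h'.symm h2.ne⟩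
  omega

/-- Proof. `ec_del`, and adding the edge `uw` (which is not there) adds one: `ec_erase` at `w`
before and after (the graphs agree on `S.erase w`, the degree of `w` goes from `0` to `1`). -/
theorem ec_swap (H : SimpleGraph V) {S : Finset V} {u v w : V} (hu : u ∈ S) (hv : v ∈ S)
    (hw : w ∈ S) (huv : H.Adj u v) (h : ∀ x ∈ S, ¬ H.Adj w x) :
    ec (add (del H u v) u w) S = ec H S := by
  have hwu : w ≠ u := by
    rintro rfl
    exact h v hv huv
  have h1 := ec_erase (add (del H u v) u w) hw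
  have h2 := ec_erase (del H u v) hw
  have h3 := ec_del H hu hv huv
  have h4 : ec (add (del H u v) u w) (S.erase w) = ec (del H u v) (S.erase w) := by
    refine ec_congr fun a ha b hb => ?_
    rw [D2_add_adj]
    constructor
    · rintro (h' | ⟨_, h' | h'⟩)
      · exact h'
      · exact absurd h'.2 (mem_erase.1 hb).1
      · exact absurd h'.1 (mem_erase.1 ha).1
    · exact fun h' => Or.inl h'
  have h5 : dg (del H u v) S w = 0 := by
    rw [D2_dg_zero]
    intro x hx hadj
    exact h x hx hadj.1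
  have h6 : dg (add (del H u v) u w) S w = 1 := by
    unfold dg
    rw [card_eq_one]
    refine ⟨u, ?_⟩
    ext x
    rw [mem_filter, mem_singleton, D2_add_adj]
    constructor
    · rintro ⟨hx, h' | ⟨_, h' | h'⟩⟩
      · exact absurd h'.1 (h x hx)
      · exact absurd h'.1 hwu
      · exact h'.2
    · rintro rfl
      exact ⟨hu, Or.inr ⟨hwu, Or.inr ⟨rfl, rfl⟩⟩⟩
  omega

/-- The number of isolated vertices decreases if `v` has another neighbour.

Proof. `w` is isolated before and not afterwards. Every vertex `x ∈ S` which is isolated afterwards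
was isolated before: `x ≠ u`, `x ≠ w` (they are adjacent afterwards); if `x = v`, it has a
neighbour different from `u` (its degree is at least two, `dg_del'`) ; for the others the
neighbours are the same or more. So the filter becomes a proper subset (`card_lt_card`). -/
theorem iso_swap (H : SimpleGraph V) {S : Finset V} {u v w : V} (hu : u ∈ S) (hv : v ∈ S)
    (hw : w ∈ S) (huv : H.Adj u v) (h : ∀ x ∈ S, ¬ H.Adj w x) (hd : 2 ≤ dg H S v) :
    #(S.filter fun x => dg (add (del H u v) u w) S x = 0) < #(S.filter fun x => dg H S x = 0) := by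
  have hwu : w ≠ u := by
    rintro rfl
    exact h v hv huv
  have hadjuw : (add (del H u v) u w).Adj u w := Or.inr ⟨hwu.symm, Or.inl ⟨rfl, rfl⟩⟩
  refine card_lt_card ((ssubset_iff_of_subset ?_).2 ⟨w, ?_, ?_⟩)
  · intro x hx
    rw [mem_filter, D2_dg_zero] at hx ⊢
    refine ⟨hx.1, fun y hy hxy => ?_⟩
    by_cases hxu : x = u
    · rw [hxu] at hx
      exact hx.2 w hw hadjuw
    · by_cases hxv : x = v
      · rw [hxv] at hx
        have h1 : 1 < #(S.filter fun w => H.Adj v w) := hd
        obtain ⟨z, hz, hzu⟩ := exists_mem_ne h1 u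
        rw [mem_filter] at hz
        exact hx.2 z hz.1 (Or.inl ⟨hz.2, fun h' => huv.ne h'.1.symm, fun h' => hzu h'.2⟩)
      · exact hx.2 y hy (Or.inl ⟨hxy, fun h' => hxu h'.1, fun h' => hxv h'.1⟩)
  · rw [mem_filter, D2_dg_zero]
    exact ⟨hw, h⟩
  · rw [mem_filter, D2_dg_zero]
    rintro ⟨_, h1⟩
    exact h1 u hu hadjuw.symm

end Pool.Agent.Lib.H20WD
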