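import Mathlib

/-!
# The number of colourings of dense graphs (MP_e806f7)

`H` is the complement of the graph that is coloured: a colouring of the finite set `S` of vertices
is a map whose classes are cliques of `H`.
-/

set_option autoImplicit false

namespace Pool.Agent.Lib.H20WD

open Finset Polynomial
open scoped Classical

/-- The number of maps `S → Fin q` whose classes are cliques of `H`. -/
noncomputable def cnt {V : Type} (H : SimpleGraph V) (S : Finset V) (q : ℕ) : ℕ :=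
  Nat.card {c : S → Fin q // ∀ u v : S, u ≠ v → c u = c v → H.Adj u v}

/-- The number of edges of `H` inside `S`. -/
noncomputable def ec {V : Type} (H : SimpleGraph V) (S : Finset V) : ℕ :=
  #(S.sym2.filter fun e => e ∈ H.edgeSet)

/-- The degree of `v` into `S`. -/
noncomputable def dg {V : Type} (H : SimpleGraph V) (S : Finset V) (v : V) : ℕ :=
  #(S.filter fun w => H.Adj v w)

/-- Delete the edge `uv`. -/
def del {V : Type} (H : SimpleGraph V) (u v : V) : SimpleGraph V where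
  Adj a b := H.Adj a b ∧ ¬ (a = u ∧ b = v) ∧ ¬ (a = v ∧ b = u)
  symm := ⟨fun _ _ h => ⟨h.1.symm, fun h' => h.2.2 ⟨h'.2, h'.1⟩, fun h' => h.2.1 ⟨h'.2, h'.1⟩⟩⟩
  loopless := ⟨fun _ h => h.1.ne rfl⟩

/-- Add the edge `uw`. -/
def add {V : Type} (H : SimpleGraph V) (u w : V) : SimpleGraph V where
  Adj a b := H.Adj a b ∨ a ≠ b ∧ (a = u ∧ b = w ∨ a = w ∧ b = u)
  symm := ⟨fun _ _ h => h.elim (fun h => Or.inl h.symm) fun h => Or.inr ⟨h.1.symm,
    h.2.elim (fun h => Or.inr ⟨h.2, h.1⟩) fun h => Or.inl ⟨h.2, h.1⟩⟩⟩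
  loopless := ⟨fun _ h => h.elim (fun h => h.ne rfl) fun h => h.1 rfl⟩

/-- Contract `uv` to `u` (the vertex `v` has to be left out): the neighbours of `u` are the common
neighbours of `u` and `v`. -/
def ctr {V : Type} (H : SimpleGraph V) (u v : V) : SimpleGraph V where
  Adj a b := H.Adj a b ∧ (a = u → H.Adj v b) ∧ (b = u → H.Adj v a)
  symm := ⟨fun _ _ h => ⟨h.1.symm, h.2.2, h.2.1⟩⟩
  loopless := ⟨fun _ h => h.1.ne rfl⟩

/-! ## Polynomials -/

/-- The linear form: the coefficient of `X ^ j` (partitions into `n - j` classes) is multiplied by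
`q (q - 1) ... (q - n + j + 1)`. -/
def lam (n q : ℕ) (p : ℕ[X]) : ℕ :=
  ∑ j ∈ range (n + 1), p.coeff j * q.descFactorial (n - j)

/-- `K_2`. -/
noncomputable def bb : ℕ[X] := 1 + X
/-- `K_3`. -/
noncomputable def aa : ℕ[X] := 1 + 3 * X + X ^ 2

/-- `1, K_2, P_3` and three more: one more triangle. -/
noncomputable def gg : ℕ → ℕ[X]
  | 0 => 1
  | 1 => 1 + X
  | 2 => 1 + 2 * X
  | (i + 3) => aa * gg i

/-- The polynomial of the extremal graph with `n` vertices and `k < n` edges. -/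
noncomputable def PP (n k : ℕ) : ℕ[X] :=
  if n = 0 then 1 else bb ^ min k (n - 1 - k) * gg (2 * k + 1 - n)

/-- Coefficientwise comparison. -/
def Le (p p' : ℕ[X]) : Prop := ∃ r, p' = p + r

theorem gg_zero : gg 0 = 1 := by rw [gg]
theorem gg_one : gg 1 = 1 + X := by rw [gg]
theorem gg_two' : gg 2 = 1 + 2 * X := by rw [gg]
theorem gg_add (i : ℕ) : gg (i + 3) = aa * gg i := by rw [gg]

theorem Le.refl (p : ℕ[X]) : Le p p := ⟨0, by rw [add_zero]⟩
theorem Le.of_eq {p p' : ℕ[X]} (h : p = p') : Le p p' := h ▸ Le.refl p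
theorem Le.trans {p p' p'' : ℕ[X]} (h : Le p p') (h' : Le p' p'') : Le p p'' := by
  obtain ⟨r, rfl⟩ := h
  obtain ⟨r', rfl⟩ := h'
  exact ⟨r + r', by rw [add_assoc]⟩
theorem Le.mul (g : ℕ[X]) {p p' : ℕ[X]} (h : Le p p') : Le (g * p) (g * p') := by
  obtain ⟨r, rfl⟩ := h
  exact ⟨g * r, by rw [mul_add]⟩
theorem Le.add {p p' r r' : ℕ[X]} (h : Le p p') (h' : Le r r') : Le (p + r) (p' + r') := by
  obtain ⟨s, rfl⟩ := h
  obtain ⟨t, rfl⟩ := h'
  exact ⟨s + t, by ring⟩

theorem lam_add (n q : ℕ) (p p' : ℕ[X]) : lam n q (p + p') = lam n q p + lam n q p' := by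
  unfold lam
  rw [← sum_add_distrib]
  exact sum_congr rfl fun j _ => by rw [coeff_add, add_mul]

theorem lam_natMul (n q c : ℕ) (p : ℕ[X]) : lam n q ((c : ℕ[X]) * p) = c * lam n q p := by
  unfold lam
  rw [mul_sum]
  refine sum_congr rfl fun j _ => ?_
  rw [← map_natCast (C : ℕ →+* ℕ[X]) c, coeff_C_mul]
  simp [mul_assoc]

theorem lam_sum {ι : Type} (n q : ℕ) (s : Finset ι) (p : ι → ℕ[X]) :
    lam n q (∑ i ∈ s, p i) = ∑ i ∈ s, lam n q (p i) := by
  induction s using Finset.induction_on with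
  | empty => simp [lam]
  | insert a s ha ih => rw [sum_insert ha, sum_insert ha, lam_add, ih]

theorem lam_le {n q : ℕ} {p p' : ℕ[X]} (h : Le p p') : lam n q p ≤ lam n q p' := by
  obtain ⟨r, rfl⟩ := h
  rw [lam_add]
  exact Nat.le_add_right _ _

theorem lam_X (n q : ℕ) (p : ℕ[X]) : lam (n + 1) q (X * p) = lam n q p := by
  unfold lam
  rw [sum_range_succ' _ (n + 1)]
  have h0 : (X * p).coeff 0 = 0 := by simp
  rw [h0, zero_mul, add_zero]
  refine sum_congr rfl fun j _ => ?_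
  rw [coeff_X_mul, show n + 1 - (j + 1) = n - j by omega]

theorem lam_succ (n q : ℕ) (p : ℕ[X]) :
    lam (n + 1) (q + 1) p = (q + 1) * lam n q p + p.coeff (n + 1) := by
  unfold lam
  rw [sum_range_succ _ (n + 1), Nat.sub_self, Nat.descFactorial_zero, mul_one, mul_sum]
  rw [add_left_inj]
  refine sum_congr rfl fun j hj => ?_
  have hj' : j ≤ n := by have := mem_range.1 hj; omega
  rw [show n + 1 - j = (n - j) + 1 by omega, Nat.succ_descFactorial_succ]
  ring

theorem lam_succ_le (n q : ℕ) (p : ℕ[X]) : (q + 1) * lam n q p ≤ lam (n + 1) (q + 1) p := by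
  rw [lam_succ]
  exact Nat.le_add_right _ _

/-- The bound for all subsets with `n` elements. -/
def Bd (V : Type) (n : ℕ) : Prop :=
  ∀ (H : SimpleGraph V) (S : Finset V), #S = n → ec H S < n → ∀ q, n ≤ q + 1 →
    cnt H S q ≤ lam n q (PP n (ec H S))

end Pool.Agent.Lib.H20WD
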