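import Pool.Agent.Lib.H20WD.N1

/-! # Q1: the polynomials `PP n k`, first part -/

set_option autoImplicit false

namespace Pool.Agent.Lib.H20WD

open Finset Polynomial
open scoped Classical

/-- Proof. `min k (n - 1 - k) = k` and `2 k + 1 - n = 0`; `gg_zero`. (For `n = 0` the hypothesis is
false.) -/
theorem PP_small {n k : ℕ} (h : 2 * k + 1 ≤ n) : PP n k = bb ^ k := by
  unfold PP
  rw [if_neg (show n ≠ 0 by omega), show min k (n - 1 - k) = k by omega,
    show 2 * k + 1 - n = 0 by omega, gg_zero, mul_one]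

/-- Proof. `min k (n - 1 - k) = n - 1 - k`. -/
theorem PP_big {n k : ℕ} (h : n ≤ 2 * k + 1) (hk : k < n) :
    PP n k = bb ^ (n - 1 - k) * gg (2 * k + 1 - n) := by
  unfold PP
  rw [if_neg (show n ≠ 0 by omega), show min k (n - 1 - k) = n - 1 - k by omega]

private theorem q1_step {n k : ℕ} (hk : k + 1 < n) : Le (PP n k) (PP n (k + 1)) := by
  rcases Nat.lt_or_ge (2 * k + 2) n with h | h
  · rw [PP_small (show 2 * k + 1 ≤ n by omega), PP_small (show 2 * (k + 1) + 1 ≤ n by omega)]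
    refine ⟨bb ^ k * X, ?_⟩
    rw [pow_succ]
    unfold bb
    ring
  · rcases Nat.lt_or_ge n (2 * k + 2) with h' | h'
    · rw [PP_big (show n ≤ 2 * k + 1 by omega) (by omega),
        PP_big (show n ≤ 2 * (k + 1) + 1 by omega) hk]
      have e1 : n - 1 - k = (n - 1 - (k + 1)) + 1 := by omega
      have e2 : 2 * (k + 1) + 1 - n = (2 * k + 1 - n) + 2 := by omega
      rw [e1, e2, pow_succ, mul_assoc]
      exact Le.mul _ (gg_mono2 _)
    · have hn : n = 2 * k + 2 := by omega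
      rw [PP_small (show 2 * k + 1 ≤ n by omega),
        PP_big (show n ≤ 2 * (k + 1) + 1 by omega) hk]
      have e1 : n - 1 - (k + 1) = k := by omega
      have e2 : 2 * (k + 1) + 1 - n = 1 := by omega
      rw [e1, e2, gg_one]
      refine ⟨bb ^ k * X, ?_⟩
      ring

/-- Proof. One step `k' = k + 1` and induction (`Le.trans`). If `2 k + 3 ≤ n`: `bb ^ k` and
`bb ^ (k + 1) = bb ^ k + bb ^ k * X`. If `2 k + 2 = n`: `bb ^ k` and `bb ^ k * gg 1`. If
`n ≤ 2 k + 1`: `bb ^ (n - 1 - k) * gg i = bb ^ (n - 2 - k) * (bb * gg i)` with `i = 2 k + 1 - n` and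
`bb ^ (n - 2 - k) * gg (i + 2)`: `gg_mono2`. -/
theorem PP_mono {n k k' : ℕ} (h : k ≤ k') (hk : k' < n) : Le (PP n k) (PP n k') := by
  induction k', h using Nat.le_induction with
  | base => exact Le.refl _
  | succ m hm ih => exact (ih (by omega)).trans (q1_step hk)

/-- Proof. If `n = 2` then `k = 1`, `PP 1 0 = 1`, `PP 0 0 = 1`, `PP 2 1 = gg 1`. If `2 k + 1 ≤ n` all
are small (`PP_small`): `bb ^ (k - 1) + X * bb ^ (k - 1) = bb ^ k`. If `n = 2 k ≥ 4`:
`PP (n - 1) (k - 1) = bb ^ (k - 1)`, `PP (n - 2) (k - 1) = bb ^ (k - 2) * gg 1 = bb ^ (k - 1)` and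
`PP n k = bb ^ (k - 1) * gg 1`. -/
theorem PP_match {n k : ℕ} (h1 : 1 ≤ k) (h : 2 * k ≤ n) :
    Le (PP (n - 1) (k - 1) + X * PP (n - 2) (k - 1)) (PP n k) := by
  obtain ⟨m, rfl⟩ : ∃ m, k = m + 1 := ⟨k - 1, by omega⟩
  rw [Nat.add_sub_cancel]
  rw [PP_small (show 2 * m + 1 ≤ n - 1 by omega)]
  rcases Nat.lt_or_ge (2 * (m + 1)) n with h' | h'
  · rw [PP_small (show 2 * m + 1 ≤ n - 2 by omega), PP_small (show 2 * (m + 1) + 1 ≤ n by omega)]
    refine Le.of_eq ?_
    rw [pow_succ]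
    unfold bb
    ring
  · have hn : n = 2 * m + 2 := by omega
    subst hn
    rw [PP_big (show 2 * m + 2 ≤ 2 * (m + 1) + 1 by omega) (by omega)]
    rw [show 2 * m + 2 - 1 - (m + 1) = m by omega, show 2 * (m + 1) + 1 - (2 * m + 2) = 1 by omega,
      gg_one, show 2 * m + 2 - 2 = 2 * m by omega]
    have e : PP (2 * m) m = bb ^ m := by
      rcases m with _ | m
      · unfold PP
        rw [if_pos (by omega), pow_zero]
      · rw [PP_big (by omega) (by omega), show 2 * (m + 1) - 1 - (m + 1) = m by omega,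
          show 2 * (m + 1) + 1 - 2 * (m + 1) = 1 by omega, gg_one, pow_succ]
        rfl
    rw [e]
    exact Le.of_eq (by ring)

/-- Proof. With `i = 2 k - 1 - n` (so `2 k + 1 - n = i + 2`, `n ≥ 3`, `k ≥ 2`) `PP_big` three times
(the exponent of `bb` is `n - 1 - k` each time) and `gg_pend i`. -/
theorem PP_pend {n k : ℕ} (h : n + 1 ≤ 2 * k) (hk : k < n) :
    Le (PP (n - 1) (k - 1) + X * PP (n - 2) (k - 2)) (PP n k) := by
  rw [PP_big (show n - 1 ≤ 2 * (k - 1) + 1 by omega) (by omega),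
    PP_big (show n - 2 ≤ 2 * (k - 2) + 1 by omega) (by omega),
    PP_big (show n ≤ 2 * k + 1 by omega) hk]
  rw [show n - 1 - 1 - (k - 1) = n - 1 - k by omega, show n - 2 - 1 - (k - 2) = n - 1 - k by omega,
    show 2 * (k - 1) + 1 - (n - 1) = (2 * k - 1 - n) + 1 by omega,
    show 2 * (k - 2) + 1 - (n - 2) = 2 * k - 1 - n by omega,
    show 2 * k + 1 - n = (2 * k - 1 - n) + 2 by omega]
  have e : bb ^ (n - 1 - k) * gg (2 * k - 1 - n + 1) + X * (bb ^ (n - 1 - k) * gg (2 * k - 1 - n))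
      = bb ^ (n - 1 - k) * (gg (2 * k - 1 - n + 1) + X * gg (2 * k - 1 - n)) := by ring
  rw [e]
  exact Le.mul _ (gg_pend _)

end Pool.Agent.Lib.H20WD
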