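import Pool.Agent.Lib.H20WD.C1
import Pool.Agent.Lib.H20WD.C2
import Pool.Agent.Lib.H20WD.D2
import Pool.Agent.Lib.H20WD.Q1

/-! # E1: removing the edges at a vertex one by one -/

set_option autoImplicit false

namespace Pool.Agent.Lib.H20WD

open Finset Polynomial
open scoped Classical

variable {V : Type}

/-- Proof. Induction on `j`, for all `H`.

`j = 0`: `v` is isolated in `S`. If `q = 0`: `cnt_zero`. If `q = q' + 1`: `cnt_iso`, `Bd V n` for
`S.erase v` and `q'` (`ec H (S.erase v) = ec H S < n` by `ec_erase`), `lam_succ_le`.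

`j + 1`: take a neighbour `u ∈ S` of `v`, and `cnt_edge` for the edge `uv` (`ctr H u v`,
`S.erase v`). The graph `del H u v` has `ec H S - 1` edges (`ec_del`), the degree of `v` is `j`
(`dg_del'`), the other neighbours of `v` keep their degrees (`dg_del_ne`): induction hypothesis,
which gives all terms with index `i ≥ 1` (`sum_range_succ'`). The graph `ctr H u v` has by `ec_ctr`
at most `ec H S - d` edges in `S.erase v` (there are at most `j` common neighbours since `u` is a
neighbour of `v` and not of itself; `dg H S u ≥ d`, `dg H S v = j + 1`): `Bd V n` and `PP_mono`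
(`ec H S - d < n` since `ec H S < n + j + 1` and `d ≥ j + 1`). -/
theorem peel {n : ℕ} (hB : Bd V n) (d j : ℕ) : ∀ (H : SimpleGraph V) (S : Finset V) (v : V),
    v ∈ S → #S = n + 1 → dg H S v = j → j ≤ d → (∀ u ∈ S, H.Adj v u → d ≤ dg H S u) →
    ec H S < n + j → ∀ q, n ≤ q → cnt H S q ≤ lam (n + 1) q (PP n (ec H S - j)) +
      ∑ i ∈ range j, lam n q (PP n (ec H S - d - i)) := by
  induction j with
  | zero =>
    intro H S v hv hS hdv _ _ hec q hq
    have hiso : ∀ w ∈ S, ¬ H.Adj v w := by
      intro w hw hadj
      unfold dg at hdv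
      rw [card_eq_zero, filter_eq_empty_iff] at hdv
      exact hdv hw hadj
    have hc : #(S.erase v) = n := by rw [card_erase_of_mem hv, hS]; rfl
    have he := ec_erase H hv
    rw [hdv, add_zero] at he
    rw [sum_range_zero, add_zero, Nat.sub_zero]
    rcases Nat.eq_zero_or_pos q with h0 | h0
    · rw [h0, cnt_zero H ⟨v, hv⟩]
      exact Nat.zero_le _
    · obtain ⟨q', rfl⟩ : ∃ q', q = q' + 1 := ⟨q - 1, by omega⟩
      rw [cnt_iso H hv hiso]
      refine (Nat.mul_le_mul_left _ (hB H (S.erase v) hc (by omega) q' hq)).trans ?_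
      rw [he]
      exact lam_succ_le _ _ _
  | succ j ih =>
    intro H S v hv hS hdv hjd hnb hec q hq
    obtain ⟨u, hu⟩ : (S.filter fun w => H.Adj v w).Nonempty := by
      rw [← card_pos]
      unfold dg at hdv
      omega
    obtain ⟨huS, hvu⟩ := mem_filter.1 hu
    have huv : H.Adj u v := hvu.symm
    have hd1 := dg_del' H huS huv
    have he1 := ec_del H huS hv huv
    have hIH := ih (del H u v) S v hv hS (by omega) (by omega) (by
      intro x hx hadj
      have hxu : x ≠ u := fun h => hadj.2.2 ⟨rfl, h⟩
      have hxv : x ≠ v := fun h => (del H u v).ne_of_adj hadj h.symm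
      rw [dg_del_ne H hxu hxv]
      exact hnb x hx hadj.1) (by omega) q hq
    have hc : #(S.erase v) = n := by rw [card_erase_of_mem hv, hS]; rfl
    have he2 := ec_ctr H huS hv huv
    have hcom : #(S.filter fun w => H.Adj u w ∧ H.Adj v w) ≤ j := by
      have h1 : (S.filter fun w => H.Adj u w ∧ H.Adj v w) ⊆ (S.filter fun w => H.Adj v w).erase u := by
        intro w hw
        obtain ⟨hw1, hw2, hw3⟩ := mem_filter.1 hw
        refine mem_erase.2 ⟨fun h => ?_, mem_filter.2 ⟨hw1, hw3⟩⟩
        rw [h] at hw2
        exact H.loopless.irrefl u hw2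
      have h2 := card_le_card h1
      rw [card_erase_of_mem hu] at h2
      unfold dg at hdv
      omega
    have hdu := hnb u huS hvu
    have hBc := hB (ctr H u v) (S.erase v) hc (by omega) q (by omega)
    have hmono : Le (PP n (ec (ctr H u v) (S.erase v))) (PP n (ec H S - d)) :=
      PP_mono (by omega) (by omega)
    rw [cnt_edge H huS hv huv, sum_range_succ', Nat.sub_zero, ← add_assoc]
    refine Nat.add_le_add ?_ (hBc.trans (lam_le hmono))
    refine hIH.trans (le_of_eq ?_)
    rw [show ec (del H u v) S - j = ec H S - (j + 1) by omega]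
    congr 1
    refine sum_congr rfl fun i _ => ?_
    rw [show ec (del H u v) S - d - i = ec H S - d - (i + 1) by omega]

end Pool.Agent.Lib.H20WD
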