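import Pool.Agent.Lib.H20WD.N3

/-! # N4: the inequality for a vertex of degree three (`K_4`) -/

set_option autoImplicit false

namespace Pool.Agent.Lib.H20WD

open Finset Polynomial
open scoped Classical

private lemma N4_aux {n q : ℕ} (h : n ≤ q + 1) : ∀ (i : ℕ) (g : ℕ[X]),
    lam n q (g * (bb ^ 2 * gg (i + 4) +
      X * (bb ^ 2 * gg (i + 4) + bb ^ 3 * gg (i + 2) + bb ^ 4 * gg i))) ≤
      lam n q (g * gg (i + 9))
  | 0, g => by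
    have e1 : gg (0 + 4) = aa * (1 + X) := by
      rw [show 0 + 4 = 1 + 3 by norm_num, gg_add, gg_one]
    have e2 : gg (0 + 2) = 1 + 2 * X := gg_two'
    have e3 : gg (0 + 9) = aa ^ 3 := by
      rw [show 0 + 9 = 0 + 3 + 3 + 3 by norm_num, gg_add, gg_add, gg_add, gg_zero]
      ring
    rw [e1, e2, e3, gg_zero]
    set L : ℕ[X] := bb ^ 2 * (aa * (1 + X)) +
      X * (bb ^ 2 * (aa * (1 + X)) + bb ^ 3 * (1 + 2 * X) + bb ^ 4 * 1) with hL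
    have e4 : g * aa ^ 3 + X ^ (4 + 1) * g = g * L + (((2 : ℕ) : ℕ[X]) * (X ^ 2 * g) +
        ((4 : ℕ) : ℕ[X]) * (X ^ 3 * g)) := by
      rw [hL]
      unfold bb aa
      push_cast
      ring
    have e5 := congrArg (lam n q) e4
    rw [lam_add, lam_add, lam_add, lam_natMul, lam_natMul] at e5
    have r4 := lam_ratio (j := 4) h g
    have r3 := lam_ratio (j := 3) h g
    have r3' : 3 * lam n q (X ^ 4 * g) ≤ lam n q (X ^ 3 * g) := r3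
    omega
  | 1, g => by
    have e1 : gg (1 + 4) = aa * (1 + 2 * X) := by
      rw [show 1 + 4 = 2 + 3 by norm_num, gg_add, gg_two']
    have e2 : gg (1 + 2) = aa := by
      rw [show 1 + 2 = 0 + 3 by norm_num, gg_add, gg_zero, mul_one]
    have e3 : gg (1 + 9) = aa ^ 3 * (1 + X) := by
      rw [show 1 + 9 = 1 + 3 + 3 + 3 by norm_num, gg_add, gg_add, gg_add, gg_one]
      ring
    rw [e1, e2, e3, gg_one]
    refine lam_le (Le.mul g ⟨bb * (3 * X ^ 2 + 10 * X ^ 3 + 10 * X ^ 4 + 5 * X ^ 5 + X ^ 6), ?_⟩)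
    unfold bb aa
    ring
  | 2, g => by
    have e1 : gg (2 + 4) = aa ^ 2 := by
      rw [show 2 + 4 = 0 + 3 + 3 by norm_num, gg_add, gg_add, gg_zero]
      ring
    have e2 : gg (2 + 2) = aa * (1 + X) := by
      rw [show 2 + 2 = 1 + 3 by norm_num, gg_add, gg_one]
    have e3 : gg (2 + 9) = aa ^ 3 * (1 + 2 * X) := by
      rw [show 2 + 9 = 2 + 3 + 3 + 3 by norm_num, gg_add, gg_add, gg_add, gg_two']
      ring
    rw [e1, e2, e3, gg_two']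
    refine lam_le (Le.mul g ⟨3 * X ^ 2 + 14 * X ^ 3 + 20 * X ^ 4 + 9 * X ^ 5 + X ^ 6, ?_⟩)
    unfold bb aa
    ring
  | i + 3, g => by
    have ih := N4_aux h i (g * aa)
    have e1 : gg (i + 3 + 4) = aa * gg (i + 4) := gg_add (i + 4)
    have e2 : gg (i + 3 + 2) = aa * gg (i + 2) := gg_add (i + 2)
    have e3 : gg (i + 3 + 9) = aa * gg (i + 9) := gg_add (i + 9)
    rw [e1, e2, e3, gg_add i]
    have e4 : g * (bb ^ 2 * (aa * gg (i + 4)) +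
        X * (bb ^ 2 * (aa * gg (i + 4)) + bb ^ 3 * (aa * gg (i + 2)) + bb ^ 4 * (aa * gg i))) =
        g * aa * (bb ^ 2 * gg (i + 4) +
          X * (bb ^ 2 * gg (i + 4) + bb ^ 3 * gg (i + 2) + bb ^ 4 * gg i)) := by ring
    have e5 : g * (aa * gg (i + 9)) = g * aa * gg (i + 9) := by ring
    rw [e4, e5]
    exact ih

/-- Proof. Induction on `i` with steps of three, generalizing `g`: `gg (i + 3 + k) = aa * gg (i + k)`,
so the case `i + 3` for `g` is the case `i` for `g * aa`.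
`i = 1` and `i = 2`: coefficientwise (`lam_le (Le.mul g ..)`):
`i = 1`: left `bb ^ 3 * (1 + 7 X + 12 X ^ 2 + 4 X ^ 3)`, right `aa ^ 3 * bb`, and
`bb ^ 2 * (1 + 7 X + 12 X ^ 2 + 4 X ^ 3) = 1 + 9 X + 27 X ^ 2 + 35 X ^ 3 + 20 X ^ 4 + 4 X ^ 5`,
`aa ^ 3 = 1 + 9 X + 30 X ^ 2 + 45 X ^ 3 + 30 X ^ 4 + 9 X ^ 5 + X ^ 6`;
`i = 2`: left `1 + 11 X + 45 X ^ 2 + 91 X ^ 3 + 100 X ^ 4 + 60 X ^ 5 + 18 X ^ 6 + 2 X ^ 7`, right
`1 + 11 X + 48 X ^ 2 + 105 X ^ 3 + 120 X ^ 4 + 69 X ^ 5 + 19 X ^ 6 + 2 X ^ 7`.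
`i = 0`: left `L = bb ^ 3 * (1 + 6 X + 7 X ^ 2 + X ^ 3)`, right `aa ^ 3`, and
`aa ^ 3 + X ^ 5 = L + 2 X ^ 2 + 4 X ^ 3`. So
`lam (g aa^3) + lam (X^5 g) = lam (g L) + 2 lam (X^2 g) + 4 lam (X^3 g)` and
`lam (X^5 g) ≤ lam (X^4 g) ≤ lam (X^3 g)` by `lam_ratio` (`j = 4`, `j = 3`; `lam ≤ j * lam`). -/
theorem gg_phi {n q : ℕ} (h : n ≤ q + 1) (g : ℕ[X]) (i : ℕ) :
    lam n q (g * (bb ^ 2 * gg (i + 4) +
      X * (bb ^ 2 * gg (i + 4) + bb ^ 3 * gg (i + 2) + bb ^ 4 * gg i))) ≤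
      lam n q (g * gg (i + 9)) :=
  N4_aux h i g

end Pool.Agent.Lib.H20WD
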