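import Pool.Agent.Lib.H20WD.N3

/-! # N5: the inequality for the step from `d` to `d + 1` -/

set_option autoImplicit false

namespace Pool.Agent.Lib.H20WD

open Finset Polynomial
open scoped Classical

private theorem N5_gg6 : gg 6 = aa ^ 2 := by
  rw [show (6 : ℕ) = 3 + 3 from rfl, gg_add, show (3 : ℕ) = 0 + 3 from rfl, gg_add, gg_zero]
  ring

private theorem N5_gg7 : gg 7 = aa ^ 2 * bb := by
  rw [show (7 : ℕ) = 4 + 3 from rfl, gg_add, show (4 : ℕ) = 1 + 3 from rfl, gg_add, gg_one, bb]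
  ring

private theorem N5_gg8 : gg 8 = aa ^ 2 * (1 + 2 * X) := by
  rw [show (8 : ℕ) = 5 + 3 from rfl, gg_add, show (5 : ℕ) = 2 + 3 from rfl, gg_add, gg_two']
  ring

private theorem N5_gg9 : gg 9 = aa ^ 3 := by
  rw [show (9 : ℕ) = 6 + 3 from rfl, gg_add, N5_gg6]
  ring

private theorem N5_gg10 : gg 10 = aa ^ 3 * bb := by
  rw [show (10 : ℕ) = 7 + 3 from rfl, gg_add, N5_gg7]
  ring

private theorem N5_zero : gg 8 = (bb * gg 6 + X * (bb ^ 4 * gg 0)) +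
    X * (2 * X + 5 * X ^ 2 + 2 * X ^ 3) := by
  rw [N5_gg8, N5_gg6, gg_zero, aa, bb]
  ring

private theorem N5_two : gg 10 = (bb * gg 8 + X * (bb ^ 4 * gg 2)) +
    X * bb ^ 2 * (2 * X + 6 * X ^ 2 + 4 * X ^ 3 + X ^ 4) := by
  rw [N5_gg10, N5_gg8, gg_two', aa, bb]
  ring

private theorem N5_one : gg 9 + (4 * X ^ 4 + 4 * X ^ 5 + X ^ 6) =
    (bb * gg 7 + X * (bb ^ 4 * gg 1)) + (X ^ 2 + X ^ 3) := by
  rw [N5_gg9, N5_gg7, gg_one, aa, bb]
  ring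

private theorem N5_case1 {n q : ℕ} (h : n ≤ q + 1) (g : ℕ[X]) :
    lam n q (g * (bb * gg 7 + X * (bb ^ 4 * gg 1))) ≤ lam n q (g * gg 9) := by
  have h1 := congrArg (fun p => lam n q (g * p)) N5_one
  have e1 : g * (gg 9 + (4 * X ^ 4 + 4 * X ^ 5 + X ^ 6)) =
      g * gg 9 + (((4 : ℕ) : ℕ[X]) * (X ^ 4 * g) + (((4 : ℕ) : ℕ[X]) * (X ^ 5 * g) +
        X ^ 6 * g)) := by
    push_cast
    ring
  have e2 : g * ((bb * gg 7 + X * (bb ^ 4 * gg 1)) + (X ^ 2 + X ^ 3)) =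
      g * (bb * gg 7 + X * (bb ^ 4 * gg 1)) + (X ^ 2 * g + X ^ 3 * g) := by ring
  simp only [e1, e2, lam_add, lam_natMul] at h1
  have r2 := lam_ratio (j := 2) h g
  have r3 := lam_ratio (j := 3) h g
  have r4 := lam_ratio (j := 4) h g
  have r5 := lam_ratio (j := 5) h g
  simp only [show (2 : ℕ) + 1 = 3 from rfl, show (3 : ℕ) + 1 = 4 from rfl,
    show (4 : ℕ) + 1 = 5 from rfl, show (5 : ℕ) + 1 = 6 from rfl] at r2 r3 r4 r5
  omega

/-- Proof. Induction on `i` with steps of three, generalizing `g`: `gg (i + 3 + k) = aa * gg (i + k)`,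
so the case `i + 3` for `g` is the case `i` for `g * aa`.
`i = 0`: coefficientwise: `gg 8 = aa ^ 2 * (1 + 2 X)`, `gg 6 = aa ^ 2`; the difference
`aa ^ 2 * (1 + 2 X) - bb * aa ^ 2 - X * bb ^ 4 = X * (aa ^ 2 - bb ^ 4) = X * (2 X + 5 X ^ 2 + 2 X ^ 3)`.
`i = 2`: coefficientwise: `gg 10 = aa ^ 3 * bb`, `gg 8 = aa ^ 2 * (1 + 2 X)`,
`gg 2 = 1 + 2 X`; the difference is
`X * bb ^ 2 * (aa ^ 2 - bb ^ 2 * (1 + 2 X)) = X * bb ^ 2 * (2 X + 6 X ^ 2 + 4 X ^ 3 + X ^ 4)`.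
`i = 1`: `gg 9 = aa ^ 3`, `gg 7 = aa ^ 2 * bb`, `gg 1 = bb`, and
`aa ^ 3 + 4 X ^ 4 + 4 X ^ 5 + X ^ 6 = (bb * gg 7 + X * (bb ^ 4 * gg 1)) + X ^ 2 + X ^ 3`.
So it is enough that `4 lam (X^4 g) + 4 lam (X^5 g) + lam (X^6 g) ≤ lam (X^2 g) + lam (X^3 g)`.
By `lam_ratio`: `2 lam (X^3 g) ≤ lam (X^2 g)`, `3 lam (X^4 g) ≤ lam (X^3 g)`,
`4 lam (X^5 g) ≤ lam (X^4 g)`, `5 lam (X^6 g) ≤ lam (X^5 g)`; `omega` (or `linarith`). -/
theorem gg_step {n q : ℕ} (h : n ≤ q + 1) (g : ℕ[X]) (i : ℕ) :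
    lam n q (g * (bb * gg (i + 6) + X * (bb ^ 4 * gg i))) ≤ lam n q (g * gg (i + 8)) := by
  induction i using Nat.strong_induction_on generalizing g with
  | _ i ih =>
    match i with
    | 0 =>
      refine lam_le (Le.mul g ?_)
      exact ⟨_, N5_zero⟩
    | 1 => exact N5_case1 h g
    | 2 =>
      refine lam_le (Le.mul g ?_)
      exact ⟨_, N5_two⟩
    | (k + 3) =>
      have h1 := ih k (by omega) (g * aa)
      have e1 : g * (bb * gg (k + 3 + 6) + X * (bb ^ 4 * gg (k + 3))) =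
          g * aa * (bb * gg (k + 6) + X * (bb ^ 4 * gg k)) := by
        rw [show k + 3 + 6 = (k + 6) + 3 by omega, gg_add (k + 6), gg_add k]
        ring
      have e2 : g * gg (k + 3 + 8) = g * aa * gg (k + 8) := by
        rw [show k + 3 + 8 = (k + 8) + 3 by omega, gg_add (k + 8)]
        ring
      rw [e1, e2]
      exact h1

end Pool.Agent.Lib.H20WD
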