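import Pool.Agent.Lib.H20WD.Q1
import Pool.Agent.Lib.H20WD.N4
import Pool.Agent.Lib.H20WD.N5

/-! # Q3: a vertex of degree at least three -/

set_option autoImplicit false

namespace Pool.Agent.Lib.H20WD

open Finset Polynomial
open scoped Classical

/-- The bound that comes from the removal of the edges at a vertex of degree `d` all of whose
neighbours have degree at least `d`. -/
noncomputable def Phi (n k d : ℕ) : ℕ[X] :=
  PP (n - 1) (k - d) + X * ∑ i ∈ range d, PP (n - 1) (k - d - i)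

/-- Proof. With `i = 2 k - 8 - n` (so `2 k + 1 - n = i + 9`): by `PP_big`
`PP (n - 1) (k - 3) = bb ^ (n - k + 1) * gg (i + 4)`, `PP (n - 1) (k - 4) = bb ^ (n - k + 2) * gg (i + 2)`,
`PP (n - 1) (k - 5) = bb ^ (n - k + 3) * gg i`, `PP n k = bb ^ (n - 1 - k) * gg (i + 9)`: `gg_phi`
with `g = bb ^ (n - 1 - k)` (`sum_range_succ`). -/
theorem phi_three {n k q : ℕ} (h : n ≤ q + 1) (hx : n + 8 ≤ 2 * k) (hk : k < n) :
    lam n q (Phi n k 3) ≤ lam n q (PP n k) := by
  obtain ⟨i, hi⟩ := Nat.exists_eq_add_of_le hx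
  have h1 := gg_phi h (bb ^ (n - 1 - k)) i
  unfold Phi
  rw [sum_range_succ, sum_range_succ, sum_range_succ, sum_range_zero,
    PP_big (n := n) (k := k) (by omega) hk,
    PP_big (n := n - 1) (k := k - 3) (by omega) (by omega),
    PP_big (n := n - 1) (k := k - 3 - 0) (by omega) (by omega),
    PP_big (n := n - 1) (k := k - 3 - 1) (by omega) (by omega),
    PP_big (n := n - 1) (k := k - 3 - 2) (by omega) (by omega),
    show 2 * k + 1 - n = i + 9 by omega,
    show 2 * (k - 3) + 1 - (n - 1) = i + 4 by omega,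
    show 2 * (k - 3 - 0) + 1 - (n - 1) = i + 4 by omega,
    show 2 * (k - 3 - 1) + 1 - (n - 1) = i + 2 by omega,
    show 2 * (k - 3 - 2) + 1 - (n - 1) = i by omega,
    show n - 1 - 1 - (k - 3) = n - 1 - k + 2 by omega,
    show n - 1 - 1 - (k - 3 - 0) = n - 1 - k + 2 by omega,
    show n - 1 - 1 - (k - 3 - 1) = n - 1 - k + 3 by omega,
    show n - 1 - 1 - (k - 3 - 2) = n - 1 - k + 4 by omega]
  refine le_trans (le_of_eq ?_) h1
  congr 1
  ring

/-- Proof. Put `m i = PP (n - 1) (k - d - i)`; `Phi n k (d + 1) = m 1 + X * (m 1 + ... + m (d + 1))`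
and `Phi n k d = m 0 + X * (m 0 + ... + m (d - 1))`. The sums `m 1 + ... + m (d - 1)` cancel (use
`sum_range_succ`, `sum_range_succ'`), so the claim is
`lam (m 1 + X * m d + X * m (d + 1)) ≤ lam (m 0 + X * m 0)`. By `PP_mono` `m d ≤ m 0`,
`m (d + 1) ≤ m 4`, and `lam (m 1 + X * m 4) ≤ lam (m 0)` is `gg_step` with `g = bb ^ (n - k + d - 2)`,
`i = 2 k + 2 - n - 2 d - 8`: `PP_big` gives `m 0 = g * gg (i + 8)`, `m 1 = g * (bb * gg (i + 6))`,
`m 4 = g * (bb ^ 4 * gg i)` (`i` is a natural number since `(d + 1) ^ 2 ≥ 2 d + 7` for `d ≥ 3`). -/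
theorem phi_succ {n k q d : ℕ} (h : n ≤ q + 1) (hd : 3 ≤ d) (hx : n + (d + 1) ^ 2 ≤ 2 * k + 1)
    (hk : k < n) : lam n q (Phi n k (d + 1)) ≤ lam n q (Phi n k d) := by
  have hd2 : 2 * d + 10 ≤ (d + 1) ^ 2 := by nlinarith
  obtain ⟨e, rfl⟩ : ∃ e, d = e + 1 := ⟨d - 1, by omega⟩
  obtain ⟨i, hi⟩ : ∃ i, 2 * k = n + 2 * (e + 1) + 6 + i := ⟨2 * k - (n + 2 * (e + 1) + 6), by omega⟩
  have h1 := gg_step h (bb ^ (n - 1 - 1 - (k - (e + 1)))) i
  have em0 : PP (n - 1) (k - (e + 1)) = bb ^ (n - 1 - 1 - (k - (e + 1))) * gg (i + 8) := by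
    rw [PP_big (by omega) (by omega), show 2 * (k - (e + 1)) + 1 - (n - 1) = i + 8 by omega]
  have em1 : PP (n - 1) (k - (e + 1) - 1) =
      bb ^ (n - 1 - 1 - (k - (e + 1))) * (bb * gg (i + 6)) := by
    rw [PP_big (by omega) (by omega), show 2 * (k - (e + 1) - 1) + 1 - (n - 1) = i + 6 by omega,
      show n - 1 - 1 - (k - (e + 1) - 1) = n - 1 - 1 - (k - (e + 1)) + 1 by omega]
    ring
  have em4 : PP (n - 1) (k - (e + 1) - 4) =
      bb ^ (n - 1 - 1 - (k - (e + 1))) * (bb ^ 4 * gg i) := by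
    rw [PP_big (by omega) (by omega), show 2 * (k - (e + 1) - 4) + 1 - (n - 1) = i by omega,
      show n - 1 - 1 - (k - (e + 1) - 4) = n - 1 - 1 - (k - (e + 1)) + 4 by omega]
    ring
  have hstep : lam n q (PP (n - 1) (k - (e + 1) - 1) + X * PP (n - 1) (k - (e + 1) - 4)) ≤
      lam n q (PP (n - 1) (k - (e + 1))) := by
    rw [em0, em1, em4]
    refine le_trans (le_of_eq ?_) h1
    congr 1
    ring
  have hle1 : Le (PP (n - 1) (k - (e + 1) - (e + 1))) (PP (n - 1) (k - (e + 1))) :=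
    PP_mono (by omega) (by omega)
  have hle2 : Le (PP (n - 1) (k - (e + 1) - (e + 1 + 1))) (PP (n - 1) (k - (e + 1) - 4)) :=
    PP_mono (by omega) (by omega)
  have hS : ∑ j ∈ range e, PP (n - 1) (k - (e + 1 + 1) - j) =
      ∑ j ∈ range e, PP (n - 1) (k - (e + 1) - (j + 1)) :=
    sum_congr rfl fun j _ => by rw [show k - (e + 1 + 1) - j = k - (e + 1) - (j + 1) by omega]
  have eL : Phi n k (e + 1 + 1) = PP (n - 1) (k - (e + 1) - 1) + X *
      ((∑ j ∈ range e, PP (n - 1) (k - (e + 1) - (j + 1))) +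
        PP (n - 1) (k - (e + 1) - (e + 1)) + PP (n - 1) (k - (e + 1) - (e + 1 + 1))) := by
    unfold Phi
    rw [sum_range_succ, sum_range_succ, hS,
      show k - (e + 1 + 1) = k - (e + 1) - 1 by omega,
      show k - (e + 1) - 1 - e = k - (e + 1) - (e + 1) by omega,
      show k - (e + 1) - 1 - (e + 1) = k - (e + 1) - (e + 1 + 1) by omega]
  have eR : Phi n k (e + 1) = PP (n - 1) (k - (e + 1)) + X *
      ((∑ j ∈ range e, PP (n - 1) (k - (e + 1) - (j + 1))) + PP (n - 1) (k - (e + 1))) := by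
    unfold Phi
    rw [sum_range_succ', Nat.sub_zero]
  set S : ℕ[X] := ∑ j ∈ range e, PP (n - 1) (k - (e + 1) - (j + 1)) with hSdef
  rw [eL, eR]
  have hA : Le (PP (n - 1) (k - (e + 1) - 1) + X * (S + PP (n - 1) (k - (e + 1) - (e + 1)) +
      PP (n - 1) (k - (e + 1) - (e + 1 + 1))))
      ((PP (n - 1) (k - (e + 1) - 1) + X * PP (n - 1) (k - (e + 1) - 4)) +
        X * (S + PP (n - 1) (k - (e + 1)))) := by
    obtain ⟨r1, hr1⟩ := hle1
    obtain ⟨r2, hr2⟩ := hle2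
    refine ⟨X * r1 + X * r2, ?_⟩
    rw [hr1, hr2]
    ring
  refine (lam_le hA).trans ?_
  rw [lam_add, lam_add n q (PP (n - 1) (k - (e + 1)))]
  exact Nat.add_le_add_right hstep _

/-- Proof. Induction on `d` from `phi_three` and `phi_succ`. -/
theorem phi_le {n k q d : ℕ} (h : n ≤ q + 1) (hd : 3 ≤ d) (hx : n + d ^ 2 ≤ 2 * k + 1)
    (hk : k < n) : lam n q (Phi n k d) ≤ lam n q (PP n k) := by
  induction d, hd using Nat.le_induction with
  | base => exact phi_three h (by omega) hk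
  | succ d hd ih =>
    refine (phi_succ h hd hx hk).trans (ih ?_)
    have h1 : d ^ 2 ≤ (d + 1) ^ 2 := Nat.pow_le_pow_left (Nat.le_succ d) 2
    omega

end Pool.Agent.Lib.H20WD
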