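import Pool.Agent.Lib.H20WD.E1
import Pool.Agent.Lib.H20WD.Q3

/-! # E2: a vertex of degree at least three -/

set_option autoImplicit false

namespace Pool.Agent.Lib.H20WD

open Finset Polynomial
open scoped Classical

variable {V : Type}

/-- Proof. `peel` with `j = d`, and `phi_le` with `n + 1` in place of `n`: by `lam_add`, `lam_X`,
`lam_sum` the right side of `peel` is `lam (n + 1) q (Phi (n + 1) (ec H S) d)`. -/
theorem case_big {n : ℕ} (hB : Bd V n) (H : SimpleGraph V) {S : Finset V} {v : V} (hv : v ∈ S)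
    (hS : #S = n + 1) (hk : ec H S < n + 1) (hd : 3 ≤ dg H S v)
    (h : ∀ u ∈ S, H.Adj v u → dg H S v ≤ dg H S u)
    (hx : n + 1 + dg H S v ^ 2 ≤ 2 * ec H S + 1) {q : ℕ} (hq : n + 1 ≤ q + 1) :
    cnt H S q ≤ lam (n + 1) q (PP (n + 1) (ec H S)) := by
  have hdk : dg H S v ≤ ec H S := by
    have := ec_erase H hv
    omega
  have h1 := peel hB (dg H S v) (dg H S v) H S v hv hS rfl le_rfl h (by omega) q (by omega)
  refine h1.trans ?_
  have h2 := phi_le (n := n + 1) (k := ec H S) (q := q) (d := dg H S v) hq hd (by omega) hk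
  refine le_trans (le_of_eq ?_) h2
  unfold Phi
  rw [lam_add, lam_X, lam_sum, Nat.add_sub_cancel]

end Pool.Agent.Lib.H20WD
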