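import Pool.Agent.Lib.H20WD.C4
import Pool.Agent.Lib.H20WD.D2
import Pool.Agent.Lib.H20WD.Q1

/-! # E3: pendant vertices and matchings -/

set_option autoImplicit false

namespace Pool.Agent.Lib.H20WD

open Finset Polynomial
open scoped Classical

variable {V : Type}

private theorem E3_lam0 (q : ℕ) : lam 0 q 1 = 1 := by
  unfold lam
  simp

private theorem E3_PP0 : PP 0 0 = 1 := by
  unfold PP
  simp

private theorem E3_dg0 (H : SimpleGraph V) {S : Finset V} {v : V} (h : dg H S v = 0) :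
    ∀ w ∈ S, ¬ H.Adj v w := by
  intro w hw hvw
  unfold dg at h
  rw [Finset.card_eq_zero] at h
  have : w ∈ S.filter fun w => H.Adj v w := Finset.mem_filter.2 ⟨hw, hvw⟩
  rw [h] at this
  exact absurd this (Finset.notMem_empty _)

private theorem E3_dg1 (H : SimpleGraph V) {S : Finset V} {v : V} (h : dg H S v = 1) :
    ∃ u ∈ S, H.Adj v u ∧ ∀ w ∈ S, H.Adj v w → w = u := by
  unfold dg at h
  obtain ⟨u, hu⟩ := Finset.card_eq_one.1 h
  have h1 : u ∈ S.filter fun w => H.Adj v w := by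
    rw [hu]
    exact Finset.mem_singleton_self _
  refine ⟨u, (Finset.mem_filter.1 h1).1, (Finset.mem_filter.1 h1).2, fun w hw hvw => ?_⟩
  have h2 : w ∈ S.filter fun w => H.Adj v w := Finset.mem_filter.2 ⟨hw, hvw⟩
  rw [hu] at h2
  exact Finset.mem_singleton.1 h2

private theorem E3_pos (H : SimpleGraph V) {S : Finset V} {v u : V} (hu : u ∈ S)
    (h : H.Adj v u) : 1 ≤ dg H S v := by
  unfold dg
  exact Finset.card_pos.2 ⟨u, Finset.mem_filter.2 ⟨hu, h⟩⟩

private theorem E3_fin {m q' A B k : ℕ} {p p' : ℕ[X]}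
    (hA : A ≤ lam (m + 1) q' p) (hB : B ≤ lam m q' p') (hL : Le (p + X * p') (PP (m + 2) k)) :
    (q' + 1) * (A + B) ≤ lam (m + 2) (q' + 1) (PP (m + 2) k) := by
  calc (q' + 1) * (A + B) ≤ (q' + 1) * (lam (m + 1) q' p + lam m q' p') :=
        Nat.mul_le_mul_left _ (Nat.add_le_add hA hB)
    _ = (q' + 1) * lam (m + 1) q' (p + X * p') := by rw [lam_add, lam_X]
    _ ≤ lam (m + 1 + 1) (q' + 1) (p + X * p') := lam_succ_le _ _ _
    _ ≤ lam (m + 2) (q' + 1) (PP (m + 2) k) := lam_le hL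

/-- No edges.

Proof. `ec H S = 0` (`sum_dg`), `PP n 0 = 1` (`PP_small`, or `n = 0`). Take `v ∈ S`; if `q = 0` then
`cnt_zero`; if `q = q' + 1` then `cnt_iso`, and for `S.erase v`: if `m = 0` it is empty
(`cnt_empty`, `lam 0 q' 1 = 1`), otherwise `Bd V m` (`ec = 0 < m`); `lam_succ_le`. -/
theorem case_none {m : ℕ} (hB : Bd V m) (H : SimpleGraph V) {S : Finset V} (hS : #S = m + 1)
    (h : ∀ v ∈ S, dg H S v = 0) {q : ℕ} (hq : m + 1 ≤ q + 1) :
    cnt H S q ≤ lam (m + 1) q (PP (m + 1) (ec H S)) := by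
  have hec : ec H S = 0 := by
    have h1 := sum_dg H S
    rw [Finset.sum_eq_zero h] at h1
    omega
  rw [hec, PP_small (by omega), pow_zero]
  have hne : S.Nonempty := Finset.card_pos.1 (by omega)
  rcases q with _ | q
  · rw [cnt_zero H hne]
    exact Nat.zero_le _
  · obtain ⟨v, hv⟩ := hne
    rw [cnt_iso H hv (E3_dg0 H (h v hv))]
    have hcard : #(S.erase v) = m := by
      rw [Finset.card_erase_of_mem hv, hS]
      rfl
    have hkey : cnt H (S.erase v) q ≤ lam m q 1 := by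
      rcases Nat.eq_zero_or_pos m with hm | hm
      · subst hm
        rw [Finset.card_eq_zero] at hcard
        rw [hcard, cnt_empty, E3_lam0]
      · have h2 := ec_erase H hv
        have h3 : ec H (S.erase v) = 0 := by omega
        have h4 := hB H (S.erase v) hcard (by omega) q (by omega)
        rwa [h3, PP_small (by omega), pow_zero] at h4
    exact (Nat.mul_le_mul_left _ hkey).trans (lam_succ_le m q 1)

/-- All degrees at most one, at least one edge.

Proof. Take `v ∈ S` with `dg H S v = 1` and its neighbour `u`, `dg H S u = 1`. `2 * ec H S ≤ m + 2`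
by `sum_dg`. `q = q' + 1`, `cnt_pend`. `ec H (S.erase v) = ec H S - 1 < m + 1`: `Bd V (m + 1)`.
`ec H ((S.erase v).erase u) = ec H S - 1` (`ec_erase`, `dg_erase`), which is `< m` if `m > 0`:
`Bd V m`; if `m = 0` the set is empty: `cnt_empty` and `PP 0 0 = 1`, `lam 0 q' 1 = 1`. Then
`lam_succ_le`, `lam_X`, `lam_add` and `PP_match` (`lam_le`). -/
theorem case_match {m : ℕ} (hB : Bd V (m + 1)) (hB' : Bd V m) (H : SimpleGraph V) {S : Finset V}
    (hS : #S = m + 2) (h : ∀ v ∈ S, dg H S v ≤ 1) (h1 : ∃ v ∈ S, dg H S v = 1) {q : ℕ}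
    (hq : m + 2 ≤ q + 1) : cnt H S q ≤ lam (m + 2) q (PP (m + 2) (ec H S)) := by
  obtain ⟨v, hv, hv1⟩ := h1
  obtain ⟨u, hu, huv, huniq⟩ := E3_dg1 H hv1
  have hu1 : dg H S u = 1 := le_antisymm (h u hu) (E3_pos H hv huv.symm)
  have hsum := sum_dg H S
  have hle : ∑ v ∈ S, dg H S v ≤ m + 2 := by
    calc ∑ v ∈ S, dg H S v ≤ ∑ _v ∈ S, 1 := Finset.sum_le_sum h
      _ = m + 2 := by rw [Finset.sum_const, hS, smul_eq_mul, mul_one]
  have hge : dg H S v ≤ ∑ v ∈ S, dg H S v :=
    Finset.single_le_sum (f := fun v => dg H S v) (fun _ _ => Nat.zero_le _) hv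
  rcases q with _ | q
  · omega
  rw [cnt_pend H hu hv huv huniq q]
  have e1 := ec_erase H hv
  have hu' : u ∈ S.erase v := Finset.mem_erase.2 ⟨huv.ne', hu⟩
  have e2 := ec_erase H hu'
  have e3 := dg_erase H hv huv.symm
  have c1 : #(S.erase v) = m + 1 := by
    rw [Finset.card_erase_of_mem hv, hS]
    rfl
  have c2 : #((S.erase v).erase u) = m := by
    rw [Finset.card_erase_of_mem hu', c1]
    rfl
  have k1 : ec H (S.erase v) = ec H S - 1 := by omega
  have k2 : ec H ((S.erase v).erase u) = ec H S - 1 := by omega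
  have hA := hB H (S.erase v) c1 (by omega) q (by omega)
  rw [k1] at hA
  have hB2 : cnt H ((S.erase v).erase u) q ≤ lam m q (PP m (ec H S - 1)) := by
    rcases Nat.eq_zero_or_pos m with hm | hm
    · subst hm
      rw [Finset.card_eq_zero] at c2
      rw [c2, cnt_empty, show ec H S - 1 = 0 by omega, E3_PP0, E3_lam0]
    · have h4 := hB' H _ c2 (by omega) q (by omega)
      rwa [k2] at h4
  have h5 := PP_match (n := m + 2) (k := ec H S) (by omega) (by omega)
  rw [show m + 2 - 1 = m + 1 by omega, show m + 2 - 2 = m by omega] at h5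
  exact E3_fin hA hB2 h5

/-- A pendant vertex `v` whose neighbour `u` has degree at least two.

Proof. `q = q' + 1`, `cnt_pend`. `ec H (S.erase v) = ec H S - 1 < m + 1`: `Bd V (m + 1)`.
`ec H ((S.erase v).erase u) = ec H S - dg H S u ≤ ec H S - 2` (`ec_erase`, `dg_erase`): `Bd V m` and
`PP_mono` (`ec H S - 2 < m`). Then `lam_succ_le`, `lam_X`, `lam_add` and `PP_pend` (`lam_le`). -/
theorem case_pend {m : ℕ} (hB : Bd V (m + 1)) (hB' : Bd V m) (H : SimpleGraph V) {S : Finset V}
    (hS : #S = m + 2) (hk : ec H S < m + 2) (hx : m + 3 ≤ 2 * ec H S) {u v : V} (hu : u ∈ S)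
    (hv : v ∈ S) (huv : H.Adj v u) (h1 : dg H S v = 1) (h2 : 2 ≤ dg H S u) {q : ℕ}
    (hq : m + 2 ≤ q + 1) : cnt H S q ≤ lam (m + 2) q (PP (m + 2) (ec H S)) := by
  rcases q with _ | q
  · omega
  have huniq : ∀ w ∈ S, H.Adj v w → w = u := by
    obtain ⟨u', _, _, h'⟩ := E3_dg1 H h1
    intro w hw hvw
    rw [h' w hw hvw, h' u hu huv]
  rw [cnt_pend H hu hv huv huniq q]
  have e1 := ec_erase H hv
  have hu' : u ∈ S.erase v := Finset.mem_erase.2 ⟨huv.ne', hu⟩
  have e2 := ec_erase H hu'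
  have e3 := dg_erase H hv huv.symm
  have c1 : #(S.erase v) = m + 1 := by
    rw [Finset.card_erase_of_mem hv, hS]
    rfl
  have c2 : #((S.erase v).erase u) = m := by
    rw [Finset.card_erase_of_mem hu', c1]
    rfl
  have k1 : ec H (S.erase v) = ec H S - 1 := by omega
  have hA := hB H (S.erase v) c1 (by omega) q (by omega)
  rw [k1] at hA
  have hB2 : cnt H ((S.erase v).erase u) q ≤ lam m q (PP m (ec H S - 2)) :=
    (hB' H _ c2 (by omega) q (by omega)).trans (lam_le (PP_mono (by omega) (by omega)))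
  have h5 := PP_pend (n := m + 2) (k := ec H S) (by omega) hk
  rw [show m + 2 - 1 = m + 1 by omega, show m + 2 - 2 = m by omega] at h5
  exact E3_fin hA hB2 h5

end Pool.Agent.Lib.H20WD
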