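import Pool.Agent.Lib.H20WD.Defs

/-! # N2: one coefficientwise inequality -/

set_option autoImplicit false

namespace Pool.Agent.Lib.H20WD

open Finset Polynomial
open scoped Classical

private theorem n2_aux : ∀ i : ℕ, Le (bb * gg (i + 3) + X * (bb ^ 2 * gg i + bb * gg (i + 2)) +
    X ^ 2 * (bb * gg (i + 1))) (gg (i + 6))
  | 0 => by
    refine ⟨X ^ 2, ?_⟩
    rw [show (0 : ℕ) + 6 = (0 + 3) + 3 from rfl, gg_add, gg_add, zero_add, zero_add, gg_zero,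
      gg_one, gg_two']
    unfold bb aa
    ring
  | 1 => by
    refine ⟨bb * (X ^ 2 + X ^ 3 + X ^ 4), ?_⟩
    rw [show (1 : ℕ) + 6 = (1 + 3) + 3 from rfl, gg_add, gg_add,
      show (1 : ℕ) + 2 = 0 + 3 from rfl, gg_add, show (1 : ℕ) + 1 = 2 from rfl, gg_zero,
      gg_one, gg_two']
    unfold bb aa
    ring
  | 2 => by
    refine ⟨X ^ 2 + 2 * X ^ 3, ?_⟩
    rw [show (2 : ℕ) + 6 = (2 + 3) + 3 from rfl, gg_add, gg_add,
      show (2 : ℕ) + 2 = 1 + 3 from rfl, gg_add, show (2 : ℕ) + 1 = 0 + 3 from rfl, gg_add,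
      gg_zero, gg_one, gg_two']
    unfold bb aa
    ring
  | i + 3 => by
    have h := Le.mul aa (n2_aux i)
    have e1 : gg (i + 3 + 3) = aa * gg (i + 3) := gg_add _
    have e2 : gg (i + 3 + 2) = aa * gg (i + 2) := by
      rw [show i + 3 + 2 = (i + 2) + 3 by omega, gg_add]
    have e3 : gg (i + 3 + 1) = aa * gg (i + 1) := by
      rw [show i + 3 + 1 = (i + 1) + 3 by omega, gg_add]
    have e4 : gg (i + 3 + 6) = aa * gg (i + 6) := by
      rw [show i + 3 + 6 = (i + 6) + 3 by omega, gg_add]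
    have e5 : gg (i + 3) = aa * gg i := gg_add _
    rw [e1, e2, e3, e4]
    nth_rewrite 2 [e5]
    refine Le.trans (Le.of_eq ?_) h
    ring

/-- Proof. Induction with steps of three: `gg (i + 3 + k) = aa * gg (i + k)` (`gg_add`), so the
statement for `i + 3` is `aa` times the statement for `i` (`Le.mul`). For `i = 0, 1, 2` the two
sides are (unfold `bb`, `aa`, `gg_zero`, `gg_one`, `gg_two'`, `gg_add`; `ring`):
`i = 0`: `1 + 6 X + 10 X ^ 2 + 6 X ^ 3 + X ^ 4` and `1 + 6 X + 11 X ^ 2 + 6 X ^ 3 + X ^ 4`;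
`i = 1`: `bb * (1 + 6 X + 10 X ^ 2 + 5 X ^ 3)` and `bb * (1 + 6 X + 11 X ^ 2 + 6 X ^ 3 + X ^ 4)`;
`i = 2`: `1 + 8 X + 22 X ^ 2 + 26 X ^ 3 + 13 X ^ 4 + 2 X ^ 5` and
`1 + 8 X + 23 X ^ 2 + 28 X ^ 3 + 13 X ^ 4 + 2 X ^ 5`. -/
theorem gg_tri (i : ℕ) : Le (bb * gg (i + 3) + X * (bb ^ 2 * gg i + bb * gg (i + 2)) +
    X ^ 2 * (bb * gg (i + 1))) (gg (i + 6)) :=
  n2_aux i

end Pool.Agent.Lib.H20WD
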