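import Pool.Agent.Lib.H20WD.Q1
import Pool.Agent.Lib.H20WD.N2

/-! # Q2: the polynomials `PP n k`, second part -/

set_option autoImplicit false

namespace Pool.Agent.Lib.H20WD

open Finset Polynomial
open scoped Classical

/-- Proof. With `i = 2 k - 2 - n` (so `2 k + 1 - n = i + 3`; `n ≥ 4`, `k ≥ 3`) `PP_big` on both sides
(the exponent of `bb` is `n - 1 - k` both times; `2 (k - 3) + 1 - (n - 3) = i`) and `gg_add i`. -/
theorem PP_tri {n k : ℕ} (h : n + 2 ≤ 2 * k) (hk : k < n) :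
    PP n k = aa * PP (n - 3) (k - 3) := by
  obtain ⟨i, hi⟩ := Nat.exists_eq_add_of_le h
  rw [PP_big (n := n) (k := k) (by omega) hk,
    PP_big (n := n - 3) (k := k - 3) (by omega) (by omega),
    show 2 * k + 1 - n = i + 3 by omega, show 2 * (k - 3) + 1 - (n - 3) = i by omega,
    show n - 3 - 1 - (k - 3) = n - 1 - k by omega, gg_add]
  ring

/-- Proof. `PP_big` on both sides; the exponents of `bb` are `n - k` and `n - 1 - k`, the index of
`gg` is `2 k - 2 - n` both times. -/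
theorem PP_tri' {n k : ℕ} (h : n + 2 ≤ 2 * k) (hk : k < n) :
    PP (n - 1) (k - 2) = bb * PP (n - 3) (k - 3) := by
  obtain ⟨i, hi⟩ := Nat.exists_eq_add_of_le h
  rw [PP_big (n := n - 1) (k := k - 2) (by omega) (by omega),
    PP_big (n := n - 3) (k := k - 3) (by omega) (by omega),
    show 2 * (k - 2) + 1 - (n - 1) = i by omega, show 2 * (k - 3) + 1 - (n - 3) = i by omega,
    show n - 3 - 1 - (k - 3) = n - 1 - k by omega,
    show n - 1 - 1 - (k - 2) = n - 1 - k + 1 by omega]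
  ring

/-- Proof. With `i = 2 k - 3 - n` (so `2 k + 1 - n = i + 4`; `n ≥ 5`, `k ≥ 4`) `PP_big` three times:
`PP (n - 1) (k - 2) = bb ^ (n - k) * gg (i + 1)`, `PP (n - 2) (k - 3) = bb ^ (n - k) * gg i`; then
`bb ^ (n - 1 - k)` times `gg_two i`. -/
theorem PP_two {n k : ℕ} (h : n + 3 ≤ 2 * k) (hk : k < n) :
    Le (PP (n - 1) (k - 2) + 2 * X * PP (n - 2) (k - 3)) (PP n k) := by
  obtain ⟨i, hi⟩ := Nat.exists_eq_add_of_le h
  rw [PP_big (n := n) (k := k) (by omega) hk,
    PP_big (n := n - 1) (k := k - 2) (by omega) (by omega),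
    PP_big (n := n - 2) (k := k - 3) (by omega) (by omega),
    show 2 * k + 1 - n = i + 4 by omega,
    show 2 * (k - 2) + 1 - (n - 1) = i + 1 by omega,
    show 2 * (k - 3) + 1 - (n - 2) = i by omega,
    show n - 2 - 1 - (k - 3) = n - 1 - k + 1 by omega,
    show n - 1 - 1 - (k - 2) = n - 1 - k + 1 by omega]
  refine Le.trans (Le.of_eq ?_) (Le.mul (bb ^ (n - 1 - k)) (gg_two i))
  ring

/-- Proof. With `i = 2 k - 5 - n` (so `2 k + 1 - n = i + 6`; `n ≥ 7`, `k ≥ 6`) `PP_big` five times: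
`PP (n - 1) (k - 2) = bb ^ (n - k) * gg (i + 3)`, `PP (n - 2) (k - 4) = bb ^ (n - k + 1) * gg i`,
`PP (n - 2) (k - 3) = bb ^ (n - k) * gg (i + 2)`, `PP (n - 3) (k - 4) = bb ^ (n - k) * gg (i + 1)`;
then `bb ^ (n - 1 - k)` times `gg_tri i`. -/
theorem PP_three {n k : ℕ} (h : n + 5 ≤ 2 * k) (hk : k < n) :
    Le (PP (n - 1) (k - 2) + X * (PP (n - 2) (k - 4) + PP (n - 2) (k - 3)) +
      X ^ 2 * PP (n - 3) (k - 4)) (PP n k) := by
  obtain ⟨i, hi⟩ := Nat.exists_eq_add_of_le h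
  rw [PP_big (n := n) (k := k) (by omega) hk,
    PP_big (n := n - 1) (k := k - 2) (by omega) (by omega),
    PP_big (n := n - 2) (k := k - 4) (by omega) (by omega),
    PP_big (n := n - 2) (k := k - 3) (by omega) (by omega),
    PP_big (n := n - 3) (k := k - 4) (by omega) (by omega),
    show 2 * k + 1 - n = i + 6 by omega,
    show 2 * (k - 2) + 1 - (n - 1) = i + 3 by omega,
    show 2 * (k - 4) + 1 - (n - 2) = i by omega,
    show 2 * (k - 3) + 1 - (n - 2) = i + 2 by omega,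
    show 2 * (k - 4) + 1 - (n - 3) = i + 1 by omega,
    show n - 1 - 1 - (k - 2) = n - 1 - k + 1 by omega,
    show n - 2 - 1 - (k - 4) = n - 1 - k + 2 by omega,
    show n - 2 - 1 - (k - 3) = n - 1 - k + 1 by omega,
    show n - 3 - 1 - (k - 4) = n - 1 - k + 1 by omega]
  refine Le.trans (Le.of_eq ?_) (Le.mul (bb ^ (n - 1 - k)) (gg_tri i))
  ring

end Pool.Agent.Lib.H20WD
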