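import Pool.Agent.Lib.H20WD.C4
import Pool.Agent.Lib.H20WD.D2
import Pool.Agent.Lib.H20WD.Q2

/-! # E4: a vertex of degree two, first case: its neighbours are not adjacent -/

set_option autoImplicit false

namespace Pool.Agent.Lib.H20WD

open Finset Polynomial
open scoped Classical

variable {V : Type}

/-- Proof. The only neighbours of `v` in `S` are `u` and `w` (`dg H S v = 2`). `q = q' + 1`,
`cnt_two`. The numbers of edges (`ec_erase`, `dg_erase`): `S.erase v`: `ec H S - 2`;
`(S.erase v).erase w`: `ec H S - 1 - dg H S w ≤ ec H S - 3`; the same for `u`. `Bd V (m + 2)`,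
`Bd V (m + 1)` and `PP_mono`; `lam_succ_le`, `lam_X`, `lam_add` and `PP_two` (`lam_le`). -/
theorem case_two {m : ℕ} (hB : Bd V (m + 2)) (hB' : Bd V (m + 1)) (H : SimpleGraph V)
    {S : Finset V} (hS : #S = m + 3) (hk : ec H S < m + 3) (hx : m + 6 ≤ 2 * ec H S) {u v w : V}
    (hu : u ∈ S) (hv : v ∈ S) (hw : w ∈ S) (hne : u ≠ w) (hvu : H.Adj v u) (hvw : H.Adj v w)
    (huw : ¬ H.Adj u w) (h2 : dg H S v = 2) (hdu : 2 ≤ dg H S u) (hdw : 2 ≤ dg H S w) {q : ℕ}
    (hq : m + 3 ≤ q + 1) : cnt H S q ≤ lam (m + 3) q (PP (m + 3) (ec H S)) := by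
  obtain ⟨q', rfl⟩ : ∃ q', q = q' + 1 := ⟨q - 1, by omega⟩
  have hsub : ({u, w} : Finset V) ⊆ S.filter fun x => H.Adj v x := by
    intro x hx
    rw [mem_insert, mem_singleton] at hx
    rcases hx with rfl | rfl
    · exact mem_filter.2 ⟨hu, hvu⟩
    · exact mem_filter.2 ⟨hw, hvw⟩
  have heq : ({u, w} : Finset V) = S.filter fun x => H.Adj v x := by
    refine eq_of_subset_of_card_le hsub ?_
    rw [card_pair hne]
    exact le_of_eq h2
  have hall : ∀ x ∈ S, H.Adj v x → x = u ∨ x = w := by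
    intro x hx hadj
    have h3 : x ∈ ({u, w} : Finset V) := by
      rw [heq]
      exact mem_filter.2 ⟨hx, hadj⟩
    rw [mem_insert, mem_singleton] at h3
    exact h3
  have huv' : u ∈ S.erase v := mem_erase.2 ⟨hvu.ne.symm, hu⟩
  have hwv' : w ∈ S.erase v := mem_erase.2 ⟨hvw.ne.symm, hw⟩
  have c1 : #(S.erase v) = m + 2 := by rw [card_erase_of_mem hv, hS]; rfl
  have c2 : #((S.erase v).erase w) = m + 1 := by rw [card_erase_of_mem hwv', c1]; rfl
  have c3 : #((S.erase v).erase u) = m + 1 := by rw [card_erase_of_mem huv', c1]; rfl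
  have e1 := ec_erase H hv
  have e2 := ec_erase H hwv'
  have e3 := ec_erase H huv'
  have g2 := dg_erase H hv hvw.symm
  have g3 := dg_erase H hv hvu.symm
  have b1 := hB H (S.erase v) c1 (by omega) q' (by omega)
  have b2 := hB' H ((S.erase v).erase w) c2 (by omega) q' (by omega)
  have b3 := hB' H ((S.erase v).erase u) c3 (by omega) q' (by omega)
  have l2 : Le (PP (m + 1) (ec H ((S.erase v).erase w))) (PP (m + 1) (ec H S - 3)) :=
    PP_mono (by omega) (by omega)
  have l3 : Le (PP (m + 1) (ec H ((S.erase v).erase u))) (PP (m + 1) (ec H S - 3)) :=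
    PP_mono (by omega) (by omega)
  rw [show ec H (S.erase v) = ec H S - 2 by omega] at b1
  have b2' := b2.trans (lam_le l2)
  have b3' := b3.trans (lam_le l3)
  have hX : lam (m + 2) q' (X * PP (m + 1) (ec H S - 3)) = lam (m + 1) q' (PP (m + 1) (ec H S - 3)) :=
    lam_X _ _ _
  rw [cnt_two H hu hv hw hne hvu hvw huw hall]
  refine le_trans (Nat.mul_le_mul_left _ ?_) (lam_succ_le (m + 2) q' _)
  have hP := lam_le (n := m + 2) (q := q') (PP_two (n := m + 3) (k := ec H S) (by omega) hk)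
  rw [show m + 3 - 1 = m + 2 from rfl, show m + 3 - 2 = m + 1 from rfl,
    show (2 : ℕ[X]) * X * PP (m + 1) (ec H S - 3) =
      X * PP (m + 1) (ec H S - 3) + X * PP (m + 1) (ec H S - 3) by ring,
    lam_add, lam_add] at hP
  omega

end Pool.Agent.Lib.H20WD
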