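import Pool.Agent.Lib.H20WD.E2
import Pool.Agent.Lib.H20WD.E3
import Pool.Agent.Lib.H20WD.E4
import Pool.Agent.Lib.H20WD.E5
import Pool.Agent.Lib.H20WD.C3

/-! # E6: the upper bound -/

set_option autoImplicit false

namespace Pool.Agent.Lib.H20WD

open Finset Polynomial
open scoped Classical

variable {V : Type}

private theorem e6_nbr {H : SimpleGraph V} {S : Finset V} {v : V} (h : 1 ≤ dg H S v) :
    ∃ u ∈ S, H.Adj v u := by
  unfold dg at h
  obtain ⟨u, hu⟩ := card_pos.1 (by omega : 0 < #(S.filter fun w => H.Adj v w))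
  rw [mem_filter] at hu
  exact ⟨u, hu.1, hu.2⟩

/-- Proof. `∑ (v ∈ S), (dg H S v - 1) = 2 ec H S - #S` (`sum_dg`), and the terms outside `T` are
nonnegative. -/
theorem sum_sub_le (H : SimpleGraph V) {S T : Finset V} (hT : T ⊆ S)
    (h1 : ∀ v ∈ S, 1 ≤ dg H S v) : #S + ∑ v ∈ T, (dg H S v - 1) ≤ 2 * ec H S := by
  have h2 := sum_dg H S
  have h3 : ∑ v ∈ S, dg H S v = ∑ v ∈ S, (dg H S v - 1) + #S := by
    rw [card_eq_sum_ones, ← sum_add_distrib]
    refine sum_congr rfl fun v hv => ?_
    have := h1 v hv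
    omega
  have h4 : ∑ v ∈ T, (dg H S v - 1) ≤ ∑ v ∈ S, (dg H S v - 1) :=
    sum_le_sum_of_subset hT
  omega

/-- No isolated vertex.

Proof. If all degrees are at most one they are all one: `case_match` (`n ≥ 2` since a vertex has a
neighbour). Otherwise some degree is at least two, so `n + 1 ≤ 2 ec H S` (`sum_sub_le`, `T` one
vertex). If there is a pendant vertex whose neighbour has degree at least two: `case_pend`. If not:
all neighbours of a vertex of degree at least two have degree at least two. Let `v` be a vertex of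
least degree `d` among the vertices of degree at least two (`exists_min_image`).
`d = 2`, neighbours `u`, `w` (`card_eq_two`), both of degree at least two: `n + 3 ≤ 2 ec H S` by
`sum_sub_le` with `T = {v, u, w}`. Not adjacent: `case_two`. Adjacent and both of degree two:
`case_tri`. Adjacent and `dg u ≥ 3` (or the same with `w`): `u` has a further neighbour `y`,
of degree at least two, so `n + 5 ≤ 2 ec H S` by `sum_sub_le` with `T = {v, u, w, y}`: `case_three`.
`d ≥ 3`: `T` = `v` and its `d` neighbours, all of degree at least `d`: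
`n + (d + 1) (d - 1) ≤ 2 ec H S`: `case_big`. -/
theorem no_isolated {n : ℕ} (hB : ∀ m < n, Bd V m) (H : SimpleGraph V) {S : Finset V}
    (hS : #S = n) (hk : ec H S < n) (h1 : ∀ v ∈ S, 1 ≤ dg H S v) {q : ℕ} (hq : n ≤ q + 1) :
    cnt H S q ≤ lam n q (PP n (ec H S)) := by
  have hsum := fun T hT => sum_sub_le H (S := S) (T := T) hT h1
  rw [hS] at hsum
  have hpos : 0 < n := by omega
  have hne : S.Nonempty := card_pos.1 (by omega)
  have hadj2 : ∀ v ∈ S, ∀ u ∈ S, H.Adj v u → 2 ≤ n := by
    intro v hv u hu huv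
    have h3 : #({v, u} : Finset V) ≤ #S := card_le_card (by
      intro x hx
      rcases mem_insert.1 hx with rfl | hx
      · exact hv
      · rw [mem_singleton.1 hx]; exact hu)
    rw [card_pair huv.ne, hS] at h3
    exact h3
  by_cases hall : ∀ v ∈ S, dg H S v ≤ 1
  · obtain ⟨v, hv⟩ := hne
    obtain ⟨u, hu, huv⟩ := e6_nbr (h1 v hv)
    obtain ⟨m, rfl⟩ := Nat.exists_eq_add_of_le' (hadj2 v hv u hu huv)
    exact case_match (hB _ (by omega)) (hB _ (by omega)) H hS hall
      ⟨v, hv, le_antisymm (hall v hv) (h1 v hv)⟩ hq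
  push Not at hall
  obtain ⟨v0, hv0, hd0⟩ := hall
  have hx1 : n + 1 ≤ 2 * ec H S := by
    have := hsum {v0} (singleton_subset_iff.2 hv0)
    rw [sum_singleton] at this
    omega
  obtain ⟨m, rfl⟩ : ∃ m, n = m + 2 := by
    obtain ⟨u, hu, huv⟩ := e6_nbr (h1 v0 hv0)
    exact Nat.exists_eq_add_of_le' (hadj2 v0 hv0 u hu huv)
  by_cases hp : ∃ v ∈ S, dg H S v = 1 ∧ ∃ u ∈ S, H.Adj v u ∧ 2 ≤ dg H S u
  · obtain ⟨v, hv, hdv, u, hu, huv, hdu⟩ := hp
    exact case_pend (hB _ (by omega)) (hB _ (by omega)) H hS hk (by omega) hu hv huv hdv hdu hq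
  have hp' : ∀ u ∈ S, 2 ≤ dg H S u → ∀ v ∈ S, H.Adj u v → 2 ≤ dg H S v := by
    intro u hu hdu v hv huv
    by_contra h3
    exact hp ⟨v, hv, by have := h1 v hv; omega, u, hu, huv.symm, hdu⟩
  obtain ⟨v, hv, hmin⟩ := exists_min_image (S.filter fun x => 2 ≤ dg H S x) (fun x => dg H S x)
    ⟨v0, mem_filter.2 ⟨hv0, by omega⟩⟩
  obtain ⟨hvS, hdv⟩ := mem_filter.1 hv
  have hmin' : ∀ u ∈ S, H.Adj v u → dg H S v ≤ dg H S u := fun u hu huv =>
    hmin u (mem_filter.2 ⟨hu, hp' v hvS hdv u hu huv⟩)
  rcases Nat.lt_or_ge (dg H S v) 3 with h3 | h3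
  · have hdv2 : dg H S v = 2 := by omega
    have hdv2' := hdv2
    unfold dg at hdv2'
    obtain ⟨u, w, huw, hN⟩ := card_eq_two.1 hdv2'
    have hu' : u ∈ S ∧ H.Adj v u := mem_filter.1 (hN ▸ mem_insert_self u {w})
    have hw' : w ∈ S ∧ H.Adj v w :=
      mem_filter.1 (hN ▸ mem_insert_of_mem (mem_singleton_self w))
    have hdu : 2 ≤ dg H S u := hp' v hvS hdv u hu'.1 hu'.2
    have hdw : 2 ≤ dg H S w := hp' v hvS hdv w hw'.1 hw'.2
    have hT3 : ({v, u, w} : Finset V) ⊆ S := by
      intro x hx
      simp only [mem_insert, mem_singleton] at hx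
      rcases hx with rfl | rfl | rfl
      · exact hvS
      · exact hu'.1
      · exact hw'.1
    have hx3 : m + 5 ≤ 2 * ec H S := by
      have := hsum _ hT3
      rw [sum_insert (by simp [hu'.2.ne, hw'.2.ne]), sum_pair huw] at this
      omega
    obtain ⟨m, rfl⟩ : ∃ m', m = m' + 1 := by
      have h4 : #({v, u, w} : Finset V) ≤ #S := card_le_card hT3
      rw [card_insert_of_notMem (by simp [hu'.2.ne, hw'.2.ne]), card_pair huw, hS] at h4
      exact Nat.exists_eq_add_of_le' (by omega)
    have h13 : m + 1 + 2 = m + 3 := by omega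
    rw [h13] at hS hk hq hB hsum ⊢
    by_cases hadj : H.Adj u w
    · -- a triangle
      have key : ∀ u w, u ≠ w → u ∈ S → w ∈ S → H.Adj v u → H.Adj v w → H.Adj u w →
          2 ≤ dg H S w → 3 ≤ dg H S u → cnt H S q ≤ lam (m + 3) q (PP (m + 3) (ec H S)) := by
        intro u w huw hu hw hvu hvw hadj hdw hdu
        have h5 : ∃ y ∈ S.filter (fun x => H.Adj u x), y ∉ ({v, w} : Finset V) := by
          by_contra hcon
          push Not at hcon
          have h6 := card_le_card (show S.filter (fun x => H.Adj u x) ⊆ {v, w} from hcon)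
          have h7 := card_le_two (a := v) (b := w)
          unfold dg at hdu
          omega
        obtain ⟨y, hy, hy2⟩ := h5
        obtain ⟨hyS, huy⟩ := mem_filter.1 hy
        rw [mem_insert, mem_singleton, not_or] at hy2
        have hdy : 2 ≤ dg H S y := hp' u hu (by omega) y hyS huy
        have hT4 : ({v, u, w, y} : Finset V) ⊆ S := by
          intro x hx
          simp only [mem_insert, mem_singleton] at hx
          rcases hx with rfl | rfl | rfl | rfl
          · exact hvS
          · exact hu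
          · exact hw
          · exact hyS
        have hx5 : m + 8 ≤ 2 * ec H S := by
          have := hsum _ hT4
          rw [sum_insert (by simp [hvu.ne, hvw.ne, Ne.symm hy2.1]),
            sum_insert (by simp [huw, huy.ne]), sum_pair (Ne.symm hy2.2)] at this
          omega
        exact case_three (hB _ (by omega)) (hB _ (by omega)) (hB _ (by omega)) H hS hk hx5 hu hvS
          hw hvu hvw hadj hdv2 hdu hdw hq
      rcases Nat.lt_or_ge (dg H S u) 3 with h5 | h5
      · rcases Nat.lt_or_ge (dg H S w) 3 with h6 | h6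
        · exact case_tri (hB _ (by omega)) (hB _ (by omega)) H hS hk (by omega) hu'.1 hvS hw'.1
            hu'.2 hw'.2 hadj hdv2 (by omega) (by omega) hq
        · exact key w u huw.symm hw'.1 hu'.1 hw'.2 hu'.2 hadj.symm hdu h6
      · exact key u w huw hu'.1 hw'.1 hu'.2 hw'.2 hadj hdw h5
    · exact case_two (hB _ (by omega)) (hB _ (by omega)) H hS hk (by omega) hu'.1 hvS hw'.1 huw
        hu'.2 hw'.2 hadj hdv2 hdu hdw hq
  · -- degree at least three
    have hT : insert v (S.filter fun x => H.Adj v x) ⊆ S := by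
      intro x hx
      rcases mem_insert.1 hx with rfl | hx
      · exact hvS
      · exact (mem_filter.1 hx).1
    have h4 := hsum _ hT
    rw [sum_insert (by simp)] at h4
    have h5 : dg H S v * (dg H S v - 1) ≤ ∑ x ∈ S.filter (fun x => H.Adj v x), (dg H S x - 1) := by
      have h6 : #(S.filter fun x => H.Adj v x) • (dg H S v - 1) ≤
          ∑ x ∈ S.filter (fun x => H.Adj v x), (dg H S x - 1) := by
        refine card_nsmul_le_sum _ _ _ fun x hx => ?_
        obtain ⟨hx1, hx2⟩ := mem_filter.1 hx
        have := hmin' x hx1 hx2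
        omega
      rw [smul_eq_mul] at h6
      exact h6
    have h7 : m + 1 + 1 + dg H S v ^ 2 ≤ 2 * ec H S + 1 := by
      obtain ⟨d, hd⟩ : ∃ d, dg H S v = d + 1 := ⟨dg H S v - 1, by omega⟩
      rw [hd, Nat.add_sub_cancel] at h4 h5
      rw [hd]
      nlinarith
    exact case_big (n := m + 1) (hB _ (by omega)) H hvS hS hk h3 hmin' h7 hq

/-- Proof. Strong induction on `n`, and inside (all `H`, fixed `S`) induction on the number of
isolated vertices `#(S.filter fun x => dg H S x = 0)`. `n > 0` since `ec H S < n`. If there is no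
isolated vertex: `no_isolated`. If all degrees are at most one: `case_none` or `case_match` (if some
degree is one then `n ≥ 2`). Otherwise there are an isolated `w ∈ S` and a `v ∈ S` with
`dg H S v ≥ 2`, with a neighbour `u ∈ S`: `cnt_swap`, `ec_swap`, `iso_swap` and the inner induction
hypothesis for `add (del H u v) u w`. -/
theorem main_bound (n : ℕ) : Bd V n := by
  induction n using Nat.strong_induction_on with
  | _ n ihn =>
  suffices h : ∀ (i : ℕ) (H : SimpleGraph V) (S : Finset V), #S = n → ec H S < n →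
      #(S.filter fun x => dg H S x = 0) = i → ∀ q, n ≤ q + 1 →
      cnt H S q ≤ lam n q (PP n (ec H S)) from
    fun H S hS hk q hq => h _ H S hS hk rfl q hq
  intro i
  induction i using Nat.strong_induction_on with
  | _ i ihi =>
  intro H S hS hk hi q hq
  by_cases h1 : ∀ v ∈ S, 1 ≤ dg H S v
  · exact no_isolated ihn H hS hk h1 hq
  push Not at h1
  obtain ⟨w, hw, hdw⟩ := h1
  have hw0 : dg H S w = 0 := by omega
  have hwi : ∀ x ∈ S, ¬ H.Adj w x := by
    intro x hx hwx
    unfold dg at hw0
    rw [card_eq_zero, filter_eq_empty_iff] at hw0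
    exact hw0 hx hwx
  by_cases hall : ∀ v ∈ S, dg H S v ≤ 1
  · by_cases h0 : ∀ v ∈ S, dg H S v = 0
    · obtain ⟨m, rfl⟩ : ∃ m, n = m + 1 := ⟨n - 1, by omega⟩
      exact case_none (ihn _ (by omega)) H hS h0 hq
    · push Not at h0
      obtain ⟨v, hv, hdv⟩ := h0
      have hdv1 : dg H S v = 1 := by have := hall v hv; omega
      obtain ⟨m, rfl⟩ : ∃ m, n = m + 2 := by
        have h3 : #({v, w} : Finset V) ≤ #S := card_le_card (by
          intro x hx
          rcases mem_insert.1 hx with rfl | hx
          · exact hv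
          · rw [mem_singleton.1 hx]; exact hw)
        rw [card_pair (by rintro rfl; omega), hS] at h3
        exact Nat.exists_eq_add_of_le' h3
      exact case_match (ihn _ (by omega)) (ihn _ (by omega)) H hS hall ⟨v, hv, hdv1⟩ hq
  · push Not at hall
    obtain ⟨v, hv, hdv⟩ := hall
    obtain ⟨u, hu, hvu⟩ := e6_nbr (by omega : 1 ≤ dg H S v)
    have huv : H.Adj u v := hvu.symm
    have h3 := cnt_swap H hu hv hw huv hwi q
    have h4 := ec_swap H hu hv hw huv hwi
    have h5 := iso_swap H hu hv hw huv hwi (by omega)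
    have h6 := ihi _ (hi ▸ h5) (add (del H u v) u w) S hS (by rw [h4]; exact hk) rfl q hq
    rw [h4] at h6
    exact h3.trans h6

end Pool.Agent.Lib.H20WD
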