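import Pool.Agent.Lib.H20WD.D1

/-! # F1: translation to graphs on `Fin n` -/

set_option autoImplicit false

namespace Pool.Agent.Lib.H20WD

open Finset Polynomial
open scoped Classical

/-- Proof. A proper colouring of `G` is a map `c` with `c u ≠ c v` for adjacent `u`, `v`, that is,
`u ≠ v` and `c u = c v` imply that `u`, `v` are adjacent in the complement. Equivalence with
`{c : (univ : Finset (Fin n)) → Fin q // ..}` (`Equiv.subtypeUnivEquiv`). -/
theorem card_coloring {n : ℕ} (G : SimpleGraph (Fin n)) (q : ℕ) :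
    Nat.card (G.Coloring (Fin q)) = cnt Gᶜ univ q := by
  unfold cnt
  refine Nat.card_congr ⟨fun c => ⟨fun u => c u.1, fun u v huv h => ?_⟩,
    fun c => SimpleGraph.Coloring.mk (fun v => c.1 ⟨v, mem_univ v⟩) (fun {u v} huv h => ?_), ?_, ?_⟩
  · rw [SimpleGraph.compl_adj]
    exact ⟨fun h' => huv (Subtype.ext h'), fun h' => c.valid h' h⟩
  · have h1 := c.2 ⟨u, mem_univ u⟩ ⟨v, mem_univ v⟩ (fun h' => huv.ne (congrArg Subtype.val h')) h
    rw [SimpleGraph.compl_adj] at h1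
    exact h1.2 huv
  · intro c
    rfl
  · intro c
    rfl

private theorem F1_ec {n : ℕ} (H : SimpleGraph (Fin n)) : ec H univ = H.edgeSet.ncard := by
  unfold ec
  rw [← Set.ncard_coe_finset]
  congr 1
  ext e
  rw [mem_coe, Finset.sym2_univ, mem_filter]
  exact ⟨fun h => h.2, fun h => ⟨mem_univ _, h⟩⟩

/-- Proof. The edges of `G` and of the complement partition the `n.choose 2` pairs
(`Sym2.card_subtype_not_diag` or `SimpleGraph.card_edgeFinset_top_eq_card_choose_two`,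
`SimpleGraph.isCompl_compl` / `edgeFinset_compl`). -/
theorem card_edges {n : ℕ} (G : SimpleGraph (Fin n)) :
    G.edgeSet.ncard + ec Gᶜ univ = n.choose 2 := by
  have h2 : ec Gᶜ univ = Gᶜ.edgeSet.ncard := F1_ec Gᶜ
  have h3 : Disjoint G.edgeSet Gᶜ.edgeSet :=
    SimpleGraph.disjoint_edgeSet.2 disjoint_compl_right
  rw [h2, ← Set.ncard_union_eq h3 (Set.toFinite _) (Set.toFinite _), ← SimpleGraph.edgeSet_sup,
    sup_compl_eq_top]
  have h4 : #(⊤ : SimpleGraph (Fin n)).edgeFinset = n.choose 2 := by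
    rw [SimpleGraph.card_edgeFinset_top_eq_card_choose_two, Fintype.card_fin]
  rw [← h4, ← SimpleGraph.coe_edgeFinset, Set.ncard_coe_finset]

/-- Proof. The equivalence `Fin n ≃ range n`. -/
theorem cnt_comap {n : ℕ} (H : SimpleGraph ℕ) (q : ℕ) :
    cnt (H.comap (Fin.val : Fin n → ℕ)) univ q = cnt H (range n) q := by
  unfold cnt
  refine Nat.card_congr ⟨fun c => ⟨fun x => c.1 ⟨⟨x.1, mem_range.1 x.2⟩, mem_univ _⟩,
    fun u v huv h => ?_⟩, fun c => ⟨fun y => c.1 ⟨y.1.1, mem_range.2 y.1.2⟩,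
    fun u v huv h => ?_⟩, ?_, ?_⟩
  · exact c.2 ⟨⟨u.1, mem_range.1 u.2⟩, mem_univ _⟩ ⟨⟨v.1, mem_range.1 v.2⟩, mem_univ _⟩
      (fun h' => huv (Subtype.ext (congrArg (fun z : (univ : Finset (Fin n)) => z.1.1) h'))) h
  · exact c.2 ⟨u.1.1, mem_range.2 u.1.2⟩ ⟨v.1.1, mem_range.2 v.1.2⟩
      (fun h' => huv (Subtype.ext (Fin.ext (congrArg Subtype.val h')))) h
  · intro c
    rfl
  · intro c
    rfl

/-- Proof. `Sym2.map Fin.val` is a bijection from the edges of `H.comap Fin.val` to the edges of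
`H` inside `range n`. -/
theorem ec_comap {n : ℕ} (H : SimpleGraph ℕ) :
    ec (H.comap (Fin.val : Fin n → ℕ)) univ = ec H (range n) := by
  unfold ec
  refine card_bij (fun e _ => Sym2.map Fin.val e) ?_ ?_ ?_
  · intro e he
    rw [mem_filter] at he ⊢
    obtain ⟨-, he⟩ := he
    revert he
    refine Sym2.ind (fun a b he => ?_) e
    rw [Sym2.map_mk, mk_mem_sym2_iff]
    exact ⟨⟨mem_range.2 a.2, mem_range.2 b.2⟩, he⟩
  · intro e _ e' _ h
    exact Sym2.map.injective Fin.val_injective h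
  · intro e he
    rw [mem_filter] at he
    obtain ⟨h1, h2⟩ := he
    revert h1 h2
    refine Sym2.ind (fun a b h1 h2 => ?_) e
    rw [mk_mem_sym2_iff, mem_range, mem_range] at h1
    refine ⟨s(⟨a, h1.1⟩, ⟨b, h1.2⟩), ?_, ?_⟩
    · rw [mem_filter, mk_mem_sym2_iff]
      exact ⟨⟨mem_univ _, mem_univ _⟩, h2⟩
    · rw [Sym2.map_mk]

end Pool.Agent.Lib.H20WD
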