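import Pool.Agent.Lib.H20WD.T2
import Pool.Agent.Lib.H20WD.Q1

/-! # T3: the extremal graphs -/

set_option autoImplicit false

namespace Pool.Agent.Lib.H20WD

open Finset Polynomial
open scoped Classical

private theorem T3_twos {n k : ℕ} {p : ℕ[X]} {H : SimpleGraph ℕ} (h : AttG n k p H) (m : ℕ) :
    ∃ H', AttG (n + 2 * m) (k + m) (bb ^ m * p) H' := by
  induction m with
  | zero => exact ⟨H, by simpa using h⟩
  | succ m ih =>
    obtain ⟨H', h'⟩ := ih
    have h2 := attG_two h'
    rw [← mul_assoc, ← pow_succ'] at h2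
    exact ⟨_, h2⟩

private theorem T3_ones {n k : ℕ} {p : ℕ[X]} {H : SimpleGraph ℕ} (h : AttG n k p H) (m : ℕ) :
    AttG (n + m) k p H := by
  induction m with
  | zero => exact h
  | succ m ih => exact attG_one ih

/-- Proof. Induction with steps of three: `attG_zero` and `attG_one`; `attG_two` from `attG_zero`
(`gg 1 = bb * 1`); `attG_path` from `attG_zero` (`gg 2 = (1 + 2 X) * 1`); `attG_tri` and
`gg_add`. -/
theorem att_gg (i : ℕ) : ∃ H, AttG (i + 1) i (gg i) H := by
  induction i using Nat.strong_induction_on with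
  | _ i ih =>
    match i, ih with
    | 0, _ => exact ⟨⊥, by rw [gg_zero]; exact attG_one attG_zero⟩
    | 1, _ => exact ⟨_, by
        have h := attG_two attG_zero
        rw [mul_one] at h
        rw [gg_one]
        exact h⟩
    | 2, _ => exact ⟨_, by
        have h := attG_path attG_zero
        rw [mul_one] at h
        rw [gg_two']
        exact h⟩
    | (i + 3), ih =>
      obtain ⟨H, hH⟩ := ih i (by omega)
      exact ⟨_, by rw [gg_add]; exact attG_tri hH⟩

/-- Proof. If `n ≤ 2 k + 1`: `PP_big`, `att_gg (2 k + 1 - n)` and `n - 1 - k` times `attG_two`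
(induction on the number of times). If `2 k + 1 < n`: `PP_small`, `attG_one` `n - 2 k` times
from `attG_zero`, and then `k` times `attG_two`. -/
theorem att_PP {n k : ℕ} (hk : k < n) : ∃ H, AttG n k (PP n k) H := by
  rcases le_or_gt n (2 * k + 1) with h | h
  · rw [PP_big h hk]
    obtain ⟨H, hH⟩ := att_gg (2 * k + 1 - n)
    obtain ⟨H', hH'⟩ := T3_twos hH (n - 1 - k)
    rw [show 2 * k + 1 - n + 1 + 2 * (n - 1 - k) = n by omega,
      show 2 * k + 1 - n + (n - 1 - k) = k by omega] at hH'
    exact ⟨H', hH'⟩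
  · rw [PP_small (by omega)]
    obtain ⟨H', hH'⟩ := T3_twos (T3_ones attG_zero (n - 2 * k)) k
    rw [show 0 + (n - 2 * k) + 2 * k = n by omega, zero_add, mul_one] at hH'
    exact ⟨H', hH'⟩

end Pool.Agent.Lib.H20WD
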