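import Pool.Agent.Lib.H20WD.E6
import Pool.Agent.Lib.H20WD.T3
import Pool.Agent.Lib.H20WD.F1

/-! # F2: the theorem -/

set_option autoImplicit false

namespace Pool.Agent.Lib.H20WD

open Finset Polynomial
open scoped Classical

/-- Proof. `k ≤ n - 1 ≤ n.choose 2`. Upper bound: `card_coloring`, `card_edges`
(`ec Gᶜ univ = k`) and `main_bound`. Attained: `att_PP` gives `H` on `ℕ`;
`G = (H.comap Fin.val)ᶜ`, `card_edges`, `card_coloring`, `compl_compl`, `cnt_comap`, `ec_comap`. -/
theorem main {n k q : ℕ} (hk : k < n) (hq : n ≤ q + 1) :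
    IsGreatest {P | ∃ G : SimpleGraph (Fin n), G.edgeSet.ncard = n.choose 2 - k ∧
      Nat.card (G.Coloring (Fin q)) = P} (lam n q (PP n k)) := by
  obtain ⟨H, hH1, hH2, -, hH4⟩ := att_PP hk
  have h1 := card_edges ((H.comap (Fin.val : Fin n → ℕ))ᶜ)
  rw [compl_compl, ec_comap, hH2] at h1
  refine ⟨⟨(H.comap (Fin.val : Fin n → ℕ))ᶜ, by omega, ?_⟩, ?_⟩
  · rw [card_coloring, compl_compl, cnt_comap, hH4]
  · rintro P ⟨G, hG, rfl⟩
    have h2 := card_edges G
    have h3 : ec Gᶜ univ = k := by omega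
    rw [card_coloring]
    have h4 := main_bound (V := Fin n) n Gᶜ univ (by rw [card_univ, Fintype.card_fin])
      (by rw [h3]; exact hk) q hq
    rw [h3] at h4
    exact h4

end Pool.Agent.Lib.H20WD
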