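import Pool.Agent.Lib.H20WD.V2

/-! # V4: one path with four vertices -/

set_option autoImplicit false

namespace Pool.Agent.Lib.H20WD

open Finset Polynomial
open scoped Classical

variable {V : Type}

private theorem V4_one {H : SimpleGraph V} {S : Finset V} {v u : V} (h : dg H S v = 1) (hu : u ∈ S)
    (huv : H.Adj v u) : ∀ w ∈ S, H.Adj v w → w = u := by
  obtain ⟨x, _, _, hx⟩ := dg_one_iff.1 h
  intro w hw hvw
  rw [hx w hw hvw, hx u hu huv]

private theorem V4_two {H : SimpleGraph V} {S : Finset V} {v a b : V} (h : dg H S v = 2) (ha : a ∈ S)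
    (hb : b ∈ S) (hab : a ≠ b) (hva : H.Adj v a) (hvb : H.Adj v b) :
    ∀ w ∈ S, H.Adj v w → w = a ∨ w = b := by
  obtain ⟨x, _, y, _, _, _, _, hx⟩ := dg_two_iff.1 h
  intro w hw hvw
  rcases hx w hw hvw with h1 | h1 <;> rcases hx a ha hva with h2 | h2 <;>
    rcases hx b hb hvb with h3 | h3
  · exact Or.inl (h1.trans h2.symm)
  · exact Or.inl (h1.trans h2.symm)
  · exact Or.inr (h1.trans h3.symm)
  · exact absurd (h2.trans h3.symm) hab
  · exact absurd (h2.trans h3.symm) hab
  · exact Or.inr (h1.trans h3.symm)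
  · exact Or.inl (h1.trans h2.symm)
  · exact Or.inl (h1.trans h2.symm)

/-- Proof. `a` is pendant with neighbour `b`. `S.erase a` is of type `TyP` (path `b c d`): as in
`cp_P`, polynomial `(1 + 2 X) * p` (with the same `R`, `p`: do it directly, `b` is pendant with
neighbour `c` there). `(S.erase a).erase b`: the edge `c d` and `R`: `bb * p`. `Cp.pend`:
`(1 + 2 X) * p + X * (bb * p) = aa * p`. -/
theorem cp_Q {H : SimpleGraph V} {S : Finset V} (h : TyQ H S) :
    ∃ e t, #S = 2 * e + 3 * t + 4 ∧ ec H S = e + 3 * t + 3 ∧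
      Cp H S (bb ^ e * aa ^ (t + 1)) := by
  obtain ⟨a, ha, b, hb, c, hc, d, hd, hab, hbc, hcd, da, db, dc, dd, hgood⟩ := h
  have nab : a ≠ b := hab.ne
  have nbc : b ≠ c := hbc.ne
  have ncd : c ≠ d := hcd.ne
  have nac : a ≠ c := by
    rintro rfl
    omega
  have nbd : b ≠ d := by
    rintro rfl
    omega
  have na := V4_one da hb hab
  have nd := V4_one dd hc hcd.symm
  have nb := V4_two db ha hc nac hab.symm hbc
  have nc := V4_two dc hb hd nbd hbc.symm hcd
  have nad : a ≠ d := by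
    rintro rfl
    exact nbc (na c hc hcd.symm).symm
  -- the sets
  have hbT : b ∈ S.erase a := mem_erase.2 ⟨nab.symm, hb⟩
  have hcT1 : c ∈ S.erase a := mem_erase.2 ⟨nac.symm, hc⟩
  have hcT : c ∈ (S.erase a).erase b := mem_erase.2 ⟨nbc.symm, hcT1⟩
  have hdT1 : d ∈ S.erase a := mem_erase.2 ⟨nad.symm, hd⟩
  have hdT2 : d ∈ (S.erase a).erase b := mem_erase.2 ⟨nbd.symm, hdT1⟩
  have hdT : d ∈ ((S.erase a).erase b).erase c := mem_erase.2 ⟨ncd.symm, hdT2⟩
  have hR : (((S.erase a).erase b).erase c).erase d = S \ {a, b, c, d} := by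
    ext x
    simp only [mem_erase, mem_sdiff, mem_insert, mem_singleton]
    tauto
  have hR' : (((S.erase a).erase b).erase d).erase c = S \ {a, b, c, d} := by
    ext x
    simp only [mem_erase, mem_sdiff, mem_insert, mem_singleton]
    tauto
  have hgR : ∀ v ∈ S \ {a, b, c, d}, Good H (S \ {a, b, c, d}) v := by
    intro v hv
    rw [mem_sdiff] at hv
    have hv2 := hv.2
    simp only [mem_insert, mem_singleton, not_or] at hv2
    rw [good_sdiff_iff hv.1 hv.2]
    · exact hgood v hv.1 hv2.1 hv2.2.1 hv2.2.2.1 hv2.2.2.2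
    · intro x hx hxZ z hz hxz
      simp only [mem_insert, mem_singleton, not_or] at hxZ hz
      rcases hz with rfl | rfl | rfl | rfl
      · exact hxZ.2.1 (na x hx hxz.symm)
      · rcases nb x hx hxz.symm with h' | h'
        · exact hxZ.1 h'
        · exact hxZ.2.2.1 h'
      · rcases nc x hx hxz.symm with h' | h'
        · exact hxZ.2.1 h'
        · exact hxZ.2.2.2 h'
      · exact hxZ.2.2.1 (nd x hx hxz.symm)
  obtain ⟨e, t, h1, h2, hp⟩ := cp_good H _ hgR
  -- numbers
  have c1 := card_erase_add_one ha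
  have c2 := card_erase_add_one hbT
  have c3 := card_erase_add_one hcT
  have c4 := card_erase_add_one hdT
  rw [hR] at c4
  have e1 := ec_erase H ha
  have e2 := ec_erase H hbT
  have e3 := ec_erase H hcT
  have e4 := ec_erase H hdT
  rw [hR] at e4
  have d2 := dg_erase H ha hab.symm
  have d3 : dg H ((S.erase a).erase b) c = 1 := by
    refine dg_one_iff.2 ⟨d, hdT2, hcd, fun w hw hcw => ?_⟩
    rcases nc w (mem_of_mem_erase (mem_of_mem_erase hw)) hcw with h' | h'
    · exact absurd h' (mem_erase.1 hw).1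
    · exact h'
  have i4 : ∀ w ∈ ((S.erase a).erase b).erase c, ¬ H.Adj d w := by
    intro w hw hdw
    exact (mem_erase.1 hw).1
      (nd w (mem_of_mem_erase (mem_of_mem_erase (mem_of_mem_erase hw))) hdw)
  have d4 : dg H (((S.erase a).erase b).erase c) d = 0 := dg_zero_iff.2 i4
  refine ⟨e, t, by omega, by omega, ?_⟩
  -- polynomials
  have p3 : Cp H (((S.erase a).erase b).erase c) (bb ^ e * aa ^ t) :=
    Cp.iso hdT i4 (by rw [hR]; exact hp)
  have hcT2d : c ∈ ((S.erase a).erase b).erase d := mem_erase.2 ⟨ncd, hcT⟩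
  have p2' : Cp H (((S.erase a).erase b).erase d) (bb ^ e * aa ^ t) := by
    refine Cp.iso hcT2d (fun w hw hcw => ?_) (by rw [hR']; exact hp)
    rw [mem_erase, mem_erase, mem_erase] at hw
    rcases nc w hw.2.2.2 hcw with h' | h'
    · exact hw.2.1 h'
    · exact hw.1 h'
  have p2 : Cp H ((S.erase a).erase b) (bb ^ e * aa ^ t + X * (bb ^ e * aa ^ t)) := by
    refine Cp.pend hcT hdT2 hcd.symm (fun w hw hdw => ?_) p2' (by rw [hR']; exact hp)
    exact nd w (mem_of_mem_erase (mem_of_mem_erase hw)) hdw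
  have p1 : Cp H (S.erase a)
      (bb ^ e * aa ^ t + X * (bb ^ e * aa ^ t) + X * (bb ^ e * aa ^ t)) := by
    refine Cp.pend hcT1 hbT hbc (fun w hw hbw => ?_) p2 p3
    rw [mem_erase] at hw
    rcases nb w hw.2 hbw with h' | h'
    · exact absurd h' hw.1
    · exact h'
  have p0 := Cp.pend hb ha hab na p1 p2
  have he : bb ^ e * aa ^ t + X * (bb ^ e * aa ^ t) + X * (bb ^ e * aa ^ t) +
      X * (bb ^ e * aa ^ t + X * (bb ^ e * aa ^ t)) = bb ^ e * aa ^ (t + 1) := by
    rw [pow_succ, show bb ^ e * (aa ^ t * aa) = bb ^ e * aa ^ t * aa by ring]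
    generalize bb ^ e * aa ^ t = p
    unfold aa
    ring
  rw [he] at p0
  exact p0

end Pool.Agent.Lib.H20WD
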