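import Pool.Agent.Lib.H20WD.U0

/-! # U6: degrees and good vertices -/

set_option autoImplicit false

namespace Pool.Agent.Lib.H20WD

open Finset
open scoped Classical

variable {V : Type}

theorem dg_zero_iff {H : SimpleGraph V} {S : Finset V} {v : V} :
    dg H S v = 0 ↔ ∀ w ∈ S, ¬ H.Adj v w := by
  unfold dg
  rw [card_eq_zero, filter_eq_empty_iff]

theorem dg_pos_iff {H : SimpleGraph V} {S : Finset V} {v : V} :
    1 ≤ dg H S v ↔ ∃ w ∈ S, H.Adj v w := by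
  unfold dg
  rw [Nat.one_le_iff_ne_zero, Ne, card_eq_zero, filter_eq_empty_iff]
  push Not
  rfl

theorem dg_one_iff {H : SimpleGraph V} {S : Finset V} {v : V} :
    dg H S v = 1 ↔ ∃ u ∈ S, H.Adj v u ∧ ∀ w ∈ S, H.Adj v w → w = u := by
  unfold dg
  rw [card_eq_one]
  constructor
  · rintro ⟨u, hu⟩
    have h := mem_filter.1 (hu.symm ▸ mem_singleton_self u : u ∈ S.filter fun w => H.Adj v w)
    exact ⟨u, h.1, h.2, fun w hw hvw =>
      mem_singleton.1 (hu ▸ (mem_filter.2 ⟨hw, hvw⟩ : w ∈ S.filter fun w => H.Adj v w))⟩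
  · rintro ⟨u, hu, hvu, h⟩
    refine ⟨u, ?_⟩
    ext w
    rw [mem_filter, mem_singleton]
    exact ⟨fun hw => h w hw.1 hw.2, fun hw => hw ▸ ⟨hu, hvu⟩⟩

theorem dg_two_iff {H : SimpleGraph V} {S : Finset V} {v : V} :
    dg H S v = 2 ↔ ∃ a ∈ S, ∃ b ∈ S, a ≠ b ∧ H.Adj v a ∧ H.Adj v b ∧
      ∀ w ∈ S, H.Adj v w → w = a ∨ w = b := by
  unfold dg
  rw [card_eq_two]
  constructor
  · rintro ⟨a, b, hab, he⟩
    have h (w : V) : w ∈ S ∧ H.Adj v w ↔ w = a ∨ w = b := by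
      rw [← mem_filter (s := S) (p := fun w => H.Adj v w), he, mem_insert, mem_singleton]
    have ha := (h a).2 (Or.inl rfl)
    have hb := (h b).2 (Or.inr rfl)
    exact ⟨a, ha.1, b, hb.1, hab, ha.2, hb.2, fun w hw hvw => (h w).1 ⟨hw, hvw⟩⟩
  · rintro ⟨a, ha, b, hb, hab, hva, hvb, h⟩
    refine ⟨a, b, hab, ?_⟩
    ext w
    rw [mem_filter, mem_insert, mem_singleton]
    refine ⟨fun hw => h w hw.1 hw.2, ?_⟩
    rintro (rfl | rfl)
    · exact ⟨ha, hva⟩
    · exact ⟨hb, hvb⟩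

/-- If `v` has no neighbour in `Z` its degree in `S \ Z` is that in `S`. -/
theorem dg_sdiff {H : SimpleGraph V} {S Z : Finset V} {v : V} (h : ∀ z ∈ Z, ¬ H.Adj v z) :
    dg H (S \ Z) v = dg H S v := by
  unfold dg
  congr 1
  ext w
  rw [mem_filter, mem_filter, mem_sdiff]
  exact ⟨fun hw => ⟨hw.1.1, hw.2⟩, fun hw => ⟨⟨hw.1, fun hz => h w hz hw.2⟩, hw.2⟩⟩

/-- `Good` depends only on the component. -/
theorem good_sdiff_iff {H : SimpleGraph V} {S Z : Finset V} {v : V} (hv : v ∈ S) (hvZ : v ∉ Z)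
    (h : ∀ x ∈ S, x ∉ Z → ∀ z ∈ Z, ¬ H.Adj x z) : Good H (S \ Z) v ↔ Good H S v := by
  unfold Good
  rw [dg_sdiff (h v hv hvZ)]
  refine and_congr_right fun _ => and_congr ?_ ?_
  · constructor
    · intro h' a ha hva
      have haZ : a ∉ Z := fun hz => h v hv hvZ a hz hva
      rw [← h' a (mem_sdiff.2 ⟨ha, haZ⟩) hva, dg_sdiff (h a ha haZ)]
    · intro h' a ha hva
      rw [mem_sdiff] at ha
      rw [dg_sdiff (h a ha.1 ha.2), h' a ha.1 hva]
  · constructor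
    · intro h' a ha b hb hva hvb
      exact h' a (mem_sdiff.2 ⟨ha, fun hz => h v hv hvZ a hz hva⟩) b
        (mem_sdiff.2 ⟨hb, fun hz => h v hv hvZ b hz hvb⟩) hva hvb
    · intro h' a ha b hb
      exact h' a (mem_sdiff.1 ha).1 b (mem_sdiff.1 hb).1

theorem erase_erase_eq {S : Finset V} {u v : V} : (S.erase v).erase u = S \ {v, u} := by
  ext x
  rw [mem_erase, mem_erase, mem_sdiff, mem_insert, mem_singleton]
  tauto

theorem erase_erase_erase_eq {S : Finset V} {u v w : V} :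
    ((S.erase v).erase u).erase w = S \ {v, u, w} := by
  ext x
  rw [mem_erase, mem_erase, mem_erase, mem_sdiff, mem_insert, mem_insert, mem_singleton]
  tauto

end Pool.Agent.Lib.H20WD
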