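import Pool.Agent.Lib.H20WD.V1
import Pool.Agent.Lib.H20WD.D2
import Pool.Agent.Lib.H20WD.U6

/-! # V6: matchings -/

set_option autoImplicit false

namespace Pool.Agent.Lib.H20WD

open Finset Polynomial
open scoped Classical

variable {V : Type}

private theorem V6_aux (n : ℕ) : ∀ (H : SimpleGraph V) (S : Finset V), #S = n →
    (∀ v ∈ S, dg H S v ≤ 1) → Cp H S (bb ^ ec H S) := by
  induction n using Nat.strong_induction_on with
  | _ n ih =>
    intro H S hn h
    have hsub : ∀ v ∈ S, ∀ w ∈ S.erase v, dg H (S.erase v) w ≤ 1 := by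
      intro v _ w hw
      refine le_trans ?_ (h w (mem_of_mem_erase hw))
      exact card_le_card (filter_subset_filter _ (erase_subset v S))
    rcases S.eq_empty_or_nonempty with hS | ⟨v, hv⟩
    · subst hS
      have h0 : ec H ∅ = 0 := by simp [ec]
      rw [h0, pow_zero]
      exact Cp.empty H
    have hcard : ∀ v ∈ S, #(S.erase v) < n := by
      intro v hv
      rw [← hn]
      exact card_erase_lt_of_mem hv
    by_cases hiso : ∃ v ∈ S, dg H S v = 0
    · obtain ⟨x, hx, hx0⟩ := hiso
      have h1 := ih _ (hcard x hx) H (S.erase x) rfl (hsub x hx)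
      have h2 := ec_erase H hx
      rw [hx0, add_zero] at h2
      rw [h2] at h1
      exact Cp.iso hx (dg_zero_iff.1 hx0) h1
    · have hone : ∀ v ∈ S, dg H S v = 1 := by
        intro x hx
        have h1 := h x hx
        have h2 : dg H S x ≠ 0 := fun h0 => hiso ⟨x, hx, h0⟩
        omega
      obtain ⟨u, hu, hvu, huniq⟩ := dg_one_iff.1 (hone v hv)
      have h1 := ih _ (hcard v hv) H (S.erase v) rfl (hsub v hv)
      have hu' : u ∈ S.erase v := mem_erase.2 ⟨hvu.ne.symm, hu⟩
      have hlt : #((S.erase v).erase u) < n :=
        (card_erase_lt_of_mem hu').trans (hcard v hv)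
      have h2 := ih _ hlt H ((S.erase v).erase u) rfl (by
        intro w hw
        refine le_trans ?_ (hsub v hv w (mem_of_mem_erase hw))
        exact card_le_card (filter_subset_filter _ (erase_subset u _)))
      have h3 := ec_erase H hv
      rw [hone v hv] at h3
      have h4 := ec_erase H hu'
      have h5 := dg_erase H hv hvu.symm
      rw [hone u hu] at h5
      have h6 : ec H ((S.erase v).erase u) = ec H (S.erase v) := by omega
      rw [h6] at h2
      have h7 := Cp.pend hu hv hvu huniq h1 h2
      have h8 : bb ^ ec H S = bb ^ ec H (S.erase v) + X * bb ^ ec H (S.erase v) := by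
        rw [← h3, pow_succ]
        unfold bb
        ring
      rw [h8]
      exact h7

/-- Proof. Strong induction on the number of elements. Empty: `Cp.empty`. If some `v ∈ S` is
isolated: `Cp.iso`. Otherwise take `v` and its neighbour `u`, both of degree one: `Cp.pend` and
`Cp.iso` as follows: in `S.erase v` the vertex
`u` is isolated, `T = (S.erase v).erase u` has the polynomial `p = bb ^ (k - 1)`, so
`p + X * p = bb * p`. -/
theorem cp_match (H : SimpleGraph V) (S : Finset V) (h : ∀ v ∈ S, dg H S v ≤ 1) :
    Cp H S (bb ^ ec H S) :=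
  V6_aux _ H S rfl h

end Pool.Agent.Lib.H20WD
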