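import Pool.Agent.Lib.H20WD.V3
import Pool.Agent.Lib.H20WD.V4
import Pool.Agent.Lib.H20WD.V6
import Pool.Agent.Lib.H20WD.Q1

/-! # V5: the polynomials of the extremal graphs -/

set_option autoImplicit false

namespace Pool.Agent.Lib.H20WD

open Finset Polynomial
open scoped Classical

variable {V : Type}

private theorem V5_gg0 (t : ℕ) : gg (3 * t) = aa ^ t := by
  induction t with
  | zero => rw [Nat.mul_zero, gg_zero, pow_zero]
  | succ t ih => rw [show 3 * (t + 1) = 3 * t + 3 by ring, gg_add, ih, pow_succ, mul_comm]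

private theorem V5_gg1 (t : ℕ) : gg (3 * t + 1) = aa ^ t * bb := by
  induction t with
  | zero => rw [Nat.mul_zero, Nat.zero_add, gg_one, pow_zero, one_mul]; rfl
  | succ t ih =>
    rw [show 3 * (t + 1) + 1 = (3 * t + 1) + 3 by ring, gg_add, ih, pow_succ]
    ring

private theorem V5_gg2 (t : ℕ) : gg (3 * t + 2) = aa ^ t * (1 + 2 * X) := by
  induction t with
  | zero => rw [Nat.mul_zero, Nat.zero_add, gg_two', pow_zero, one_mul]
  | succ t ih =>
    rw [show 3 * (t + 1) + 2 = (3 * t + 2) + 3 by ring, gg_add, ih, pow_succ]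
    ring

/-- Proof. `gg (3 t) = aa ^ t`, `gg (3 t + 1) = aa ^ t * bb`, `gg (3 t + 2) = aa ^ t * (1 + 2 X)`
(induction, `gg_add`). All degrees at most one: `cp_match`, and `PP_small` or `n = 2 k` (`PP_big`,
`gg 1`; `n = 0` is excluded). All good: `cp_good`, `e ≥ 1` since `ec H S < #S`; `PP_big`:
`bb ^ (e - 1) * gg (3 t + 1)`. `cp_P`: `bb ^ e * gg (3 t + 2)`. `cp_K`: `bb ^ e * gg (3 t)`. `cp_Q`:
`bb ^ e * gg (3 t + 3)`. -/
theorem ext_eq {H : SimpleGraph V} {S : Finset V} (h : Ext H S) (hk : ec H S < #S) :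
    Cp H S (PP #S (ec H S)) := by
  rcases h with ⟨h1, h2⟩ | ⟨h1, h2 | h2 | h2 | h2⟩
  · have h3 := cp_match H S h2
    rcases Nat.lt_or_ge (2 * ec H S) #S with h4 | h4
    · rw [PP_small (by omega)]
      exact h3
    · rw [PP_big (by omega) hk]
      obtain ⟨m, hm⟩ : ∃ m, ec H S = m + 1 := ⟨ec H S - 1, by omega⟩
      rw [show #S - 1 - ec H S = m by omega, show 2 * ec H S + 1 - #S = 1 by omega, gg_one]
      rw [hm, pow_succ] at h3
      exact h3
  · obtain ⟨e, t, hn, he, hp⟩ := cp_good H S h2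
    rw [PP_big (by omega) hk]
    obtain ⟨m, rfl⟩ : ∃ m, e = m + 1 := ⟨e - 1, by omega⟩
    rw [show #S - 1 - ec H S = m by omega, show 2 * ec H S + 1 - #S = 3 * t + 1 by omega, V5_gg1]
    rw [show bb ^ m * (aa ^ t * bb) = bb ^ (m + 1) * aa ^ t by rw [pow_succ]; ring]
    exact hp
  · obtain ⟨e, t, hn, he, hp⟩ := cp_P h2
    rw [PP_big (by omega) hk]
    rw [show #S - 1 - ec H S = e by omega, show 2 * ec H S + 1 - #S = 3 * t + 2 by omega, V5_gg2,
      ← mul_assoc]
    exact hp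
  · obtain ⟨e, t, hn, he, hp⟩ := cp_K h2
    rw [PP_big (by omega) hk]
    rw [show #S - 1 - ec H S = e by omega, show 2 * ec H S + 1 - #S = 3 * t by omega, V5_gg0]
    exact hp
  · obtain ⟨e, t, hn, he, hp⟩ := cp_Q h2
    rw [PP_big (by omega) hk]
    rw [show #S - 1 - ec H S = e by omega, show 2 * ec H S + 1 - #S = 3 * (t + 1) by omega, V5_gg0]
    exact hp

end Pool.Agent.Lib.H20WD
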