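import Pool.Agent.Lib.H20WD.W4
import Pool.Agent.Lib.H20WD.V5
import Pool.Agent.Lib.H20WD.F2

/-! # F3: the extremal graphs -/

set_option autoImplicit false

namespace Pool.Agent.Lib.H20WD

open Finset Polynomial
open scoped Classical

theorem le_choose_two {n k : ℕ} (hk : k < n) : k ≤ n.choose 2 := by
  obtain ⟨m, rfl⟩ : ∃ m, n = m + 1 := ⟨n - 1, by omega⟩
  rw [Nat.choose_succ_succ' m 1, Nat.choose_one_right]
  omega

theorem main_ext {n k q : ℕ} (hk : k < n) (hq : n ≤ q + 1) (G : SimpleGraph (Fin n))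
    (hG : G.edgeSet.ncard = n.choose 2 - k) :
    Nat.card (G.Coloring (Fin q)) = lam n q (PP n k) ↔ Ext Gᶜ univ := by
  have h1 := card_edges G
  have h2 := le_choose_two hk
  have h3 : ec Gᶜ univ = k := by omega
  have h4 : #(univ : Finset (Fin n)) = n := by rw [card_univ, Fintype.card_fin]
  rw [card_coloring]
  constructor
  · intro h
    by_contra hE
    have h5 := main_lt n Gᶜ univ h4 (by rw [h3]; exact hk) hE q hq
    rw [h3, h] at h5
    exact h5.false
  · intro h
    have h5 := (ext_eq h (by rw [h3, h4]; exact hk)).2 q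
    rw [h3, h4] at h5
    exact h5

end Pool.Agent.Lib.H20WD
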