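import Pool.Agent.Lib.H20WD.U6
import Pool.Agent.Lib.H20WD.D1

/-! # F4: the extremal graphs by their components -/

set_option autoImplicit false

namespace Pool.Agent.Lib.H20WD

open Finset
open scoped Classical

/-- A copy of `K` in `H` on the set `C`, which is a union of components of `H`. -/
def Cmp {V : Type} {j : ℕ} (H : SimpleGraph V) (K : SimpleGraph (Fin j)) (C : Set V) : Prop :=
  ∃ f : K ↪g H, Set.range f = C ∧ ∀ x y, H.Adj (f x) y → y ∈ C

variable {V : Type} [Fintype V]

/-- Degrees of a component. -/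
theorem cmp_dg {j : ℕ} {H : SimpleGraph V} {K : SimpleGraph (Fin j)} {C : Set V} (f : K ↪g H)
    (hf : Set.range f = C) (h : ∀ x y, H.Adj (f x) y → y ∈ C) (x : Fin j) :
    dg H univ (f x) = dg K univ x := by
  unfold dg
  have h1 : (univ.filter fun w => H.Adj (f x) w) = (univ.filter fun w => K.Adj x w).map f.toEmbedding := by
    ext y
    rw [mem_filter, mem_map]
    constructor
    · rintro ⟨-, hy⟩
      obtain ⟨z, rfl⟩ : y ∈ Set.range f := hf ▸ h x y hy
      exact ⟨z, mem_filter.2 ⟨mem_univ _, f.map_adj_iff.1 hy⟩, rfl⟩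
    · rintro ⟨z, hz, rfl⟩
      exact ⟨mem_univ _, f.map_adj_iff.2 (mem_filter.1 hz).2⟩
  rw [h1, card_map]

theorem dg_top {j : ℕ} {K : SimpleGraph (Fin (j + 1))} (h : ∀ a b, K.Adj a b ↔ b ≠ a)
    {x : Fin (j + 1)} : dg K univ x = j := by
  unfold dg
  have h1 : (univ.filter fun w => K.Adj x w) = univ.erase x := by
    ext w
    rw [mem_filter, mem_erase, h, and_comm]
  rw [h1, card_erase_of_mem (mem_univ x), card_univ, Fintype.card_fin, Nat.add_sub_cancel]

theorem two_nbr {H : SimpleGraph V} {v a b : V} (h : dg H univ v = 2) (hab : a ≠ b)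
    (ha : H.Adj v a) (hb : H.Adj v b) : ∀ z, H.Adj v z → z = a ∨ z = b := by
  unfold dg at h
  have h1 : ({a, b} : Finset V) ⊆ univ.filter fun w => H.Adj v w := by
    intro x hx
    rw [mem_insert, mem_singleton] at hx
    rcases hx with rfl | rfl
    · exact mem_filter.2 ⟨mem_univ _, ha⟩
    · exact mem_filter.2 ⟨mem_univ _, hb⟩
  have h2 := eq_of_subset_of_card_le h1 (by rw [h, card_pair hab])
  intro z hz
  have h3 : z ∈ ({a, b} : Finset V) := h2 ▸ mem_filter.2 ⟨mem_univ z, hz⟩
  rwa [mem_insert, mem_singleton] at h3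

/-- A component which is complete, with two or three vertices. -/
theorem cmp_good {j : ℕ} (hj : j = 1 ∨ j = 2) {H : SimpleGraph V} {C : Set V} {v : V} (hv : v ∈ C)
    (h : Cmp H (⊤ : SimpleGraph (Fin (j + 1))) C) : Good H univ v := by
  obtain ⟨f, hf, h⟩ := h
  have hd (x : Fin (j + 1)) : dg H univ (f x) = j := by
    rw [cmp_dg f hf h x]
    exact dg_top fun a b => by rw [SimpleGraph.top_adj, ne_comm]
  obtain ⟨x, rfl⟩ : v ∈ Set.range f := hf ▸ hv
  refine ⟨by rw [hd]; exact hj, ?_, ?_⟩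
  · intro a _ ha
    obtain ⟨y, rfl⟩ : a ∈ Set.range f := hf ▸ h x a ha
    rw [hd, hd]
  · intro a _ b _ ha hb hab
    obtain ⟨y, rfl⟩ : a ∈ Set.range f := hf ▸ h x a ha
    obtain ⟨z, rfl⟩ : b ∈ Set.range f := hf ▸ h x b hb
    exact f.map_adj_iff.2 (SimpleGraph.top_adj _ _ |>.2 fun hyz => hab (by rw [hyz]))

/-- A good vertex is in a component which is complete, with two or three vertices. -/
theorem good_cmp {H : SimpleGraph V} {v : V} (h : Good H univ v) :
    ∃ C : Set V, v ∈ C ∧ (Cmp H (⊤ : SimpleGraph (Fin 2)) C ∨ Cmp H (⊤ : SimpleGraph (Fin 3)) C) := by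
  obtain ⟨h1, h2, h3⟩ := h
  rcases h1 with h1 | h1
  · obtain ⟨u, -, hvu, hN⟩ := dg_one_iff.1 h1
    have hu := h2 u (mem_univ u) hvu
    rw [h1] at hu
    obtain ⟨v', -, huv', hN'⟩ := dg_one_iff.1 hu
    have hv' : v = v' := hN' v (mem_univ v) hvu.symm
    subst hv'
    have hf : ∀ x y : Fin 2, H.Adj (![v, u] x) (![v, u] y) ↔ x ≠ y := by
      intro x y
      fin_cases x <;> fin_cases y <;> simp [hvu, hvu.symm]
    refine ⟨Set.range ![v, u], ⟨0, rfl⟩, Or.inl ⟨⟨⟨![v, u], ?_⟩, ?_⟩, rfl, ?_⟩⟩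
    · intro x y hxy
      by_contra hne
      have := (hf x y).2 hne
      rw [hxy] at this
      exact this.ne rfl
    · intro x y
      exact hf x y
    · intro x y hxy
      change H.Adj (![v, u] x) y at hxy
      fin_cases x
      · exact ⟨1, (hN y (mem_univ y) hxy).symm⟩
      · exact ⟨0, (hN' y (mem_univ y) hxy).symm⟩
  · obtain ⟨a, -, b, -, hab, hva, hvb, hN⟩ := dg_two_iff.1 h1
    have hadj : H.Adj a b := h3 a (mem_univ a) b (mem_univ b) hva hvb hab
    have key : ∀ a b, a ≠ b → H.Adj v a → H.Adj v b → H.Adj a b → ∀ y, H.Adj a y → y = v ∨ y = b := by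
      intro a b hab hva hvb hadj y hay
      have ha := h2 a (mem_univ a) hva
      rw [h1] at ha
      exact two_nbr ha hvb.ne hva.symm hadj y hay
    have hf : ∀ x y : Fin 3, H.Adj (![v, a, b] x) (![v, a, b] y) ↔ x ≠ y := by
      intro x y
      fin_cases x <;> fin_cases y <;> simp [hva, hva.symm, hvb, hvb.symm, hadj, hadj.symm]
    refine ⟨Set.range ![v, a, b], ⟨0, rfl⟩, Or.inr ⟨⟨⟨![v, a, b], ?_⟩, ?_⟩, rfl, ?_⟩⟩
    · intro x y hxy
      by_contra hne
      have := (hf x y).2 hne
      rw [hxy] at this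
      exact this.ne rfl
    · intro x y
      exact hf x y
    · intro x y hxy
      change H.Adj (![v, a, b] x) y at hxy
      fin_cases x
      · rcases hN y (mem_univ y) hxy with h | h
        · exact ⟨1, h.symm⟩
        · exact ⟨2, h.symm⟩
      · rcases key a b hab hva hvb hadj y hxy with h | h
        · exact ⟨0, h.symm⟩
        · exact ⟨2, h.symm⟩
      · rcases key b a hab.symm hvb hva hadj.symm y hxy with h | h
        · exact ⟨0, h.symm⟩
        · exact ⟨1, h.symm⟩

/-- All components are `K_2` or `K_3`, with the possible exception of one, which is a path with one,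
three or four vertices. -/
def Small (H : SimpleGraph V) : Prop :=
  ∃ Z : Set V, (Z = ∅ ∨ Cmp H (SimpleGraph.pathGraph 1) Z ∨ Cmp H (SimpleGraph.pathGraph 3) Z ∨
    Cmp H (SimpleGraph.pathGraph 4) Z) ∧ ∀ v ∉ Z, ∃ C, v ∈ C ∧
      (Cmp H (⊤ : SimpleGraph (Fin 2)) C ∨ Cmp H (⊤ : SimpleGraph (Fin 3)) C)

theorem path_dg1 : dg (SimpleGraph.pathGraph 1) univ 0 = 0 := by
  rw [dg_zero_iff]
  intro w _ hw
  rw [SimpleGraph.pathGraph_adj] at hw
  omega

theorem path_dg3 : dg (SimpleGraph.pathGraph 3) univ 0 = 1 ∧ dg (SimpleGraph.pathGraph 3) univ 1 = 2 ∧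
    dg (SimpleGraph.pathGraph 3) univ 2 = 1 := by
  refine ⟨dg_one_iff.2 ⟨1, mem_univ _, by simp [SimpleGraph.pathGraph_adj], ?_⟩,
    dg_two_iff.2 ⟨0, mem_univ _, 2, mem_univ _, by simp, by simp [SimpleGraph.pathGraph_adj],
      by simp [SimpleGraph.pathGraph_adj], ?_⟩,
    dg_one_iff.2 ⟨1, mem_univ _, by simp [SimpleGraph.pathGraph_adj], ?_⟩⟩ <;>
  · intro w _ hw
    rw [SimpleGraph.pathGraph_adj] at hw
    fin_cases w <;> simp_all

theorem path_dg4 : dg (SimpleGraph.pathGraph 4) univ 0 = 1 ∧ dg (SimpleGraph.pathGraph 4) univ 1 = 2 ∧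
    dg (SimpleGraph.pathGraph 4) univ 2 = 2 ∧ dg (SimpleGraph.pathGraph 4) univ 3 = 1 := by
  refine ⟨dg_one_iff.2 ⟨1, mem_univ _, by simp [SimpleGraph.pathGraph_adj], ?_⟩,
    dg_two_iff.2 ⟨0, mem_univ _, 2, mem_univ _, by simp, by simp [SimpleGraph.pathGraph_adj],
      by simp [SimpleGraph.pathGraph_adj], ?_⟩,
    dg_two_iff.2 ⟨1, mem_univ _, 3, mem_univ _, by simp, by simp [SimpleGraph.pathGraph_adj],
      by simp [SimpleGraph.pathGraph_adj], ?_⟩,
    dg_one_iff.2 ⟨2, mem_univ _, by simp [SimpleGraph.pathGraph_adj], ?_⟩⟩ <;>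
  · intro w _ hw
    rw [SimpleGraph.pathGraph_adj] at hw
    fin_cases w <;> simp_all

theorem small_iff {H : SimpleGraph V} :
    ((∀ v ∈ univ, Good H univ v) ∨ TyP H univ ∨ TyK H univ ∨ TyQ H univ) ↔ Small H := by
  constructor
  · rintro (h | ⟨c, -, a, -, b, -, hab, hca, hcb, hdc, hda, hdb, h⟩ | ⟨w, -, hw, h⟩ |
      ⟨a, -, b, -, c, -, d, -, hab, hbc, hcd, hda, hdb, hdc, hdd, h⟩)
    · exact ⟨∅, Or.inl rfl, fun v _ => good_cmp (h v (mem_univ v))⟩
    · -- the path a c b
      obtain ⟨a', -, -, hNa⟩ := dg_one_iff.1 hda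
      obtain ⟨b', -, -, hNb⟩ := dg_one_iff.1 hdb
      have ea := hNa c (mem_univ c) hca.symm
      have eb := hNb c (mem_univ c) hcb.symm
      subst ea eb
      have hnab : ¬ H.Adj a b := fun h => hcb.ne (hNa b (mem_univ b) h).symm
      have hnba : ¬ H.Adj b a := fun h => hnab h.symm
      have hNc' : ∀ z, H.Adj c z → z = a ∨ z = b := two_nbr hdc hab hca hcb
      have hf : ∀ x y : Fin 3, H.Adj (![a, c, b] x) (![a, c, b] y) ↔
          (SimpleGraph.pathGraph 3).Adj x y := by
        intro x y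
        rw [SimpleGraph.pathGraph_adj]
        fin_cases x <;> fin_cases y <;>
          simp [hca, hca.symm, hcb, hcb.symm, hnab, hnba]
      have hinj : Function.Injective ![a, c, b] := by
        intro x y hxy
        fin_cases x <;> fin_cases y <;>
          simp_all [hca.ne, hca.ne', hcb.ne, hcb.ne', hab.symm]
      refine ⟨Set.range ![a, c, b], Or.inr (Or.inr (Or.inl ⟨⟨⟨![a, c, b], hinj⟩, ?_⟩, rfl, ?_⟩)),
        ?_⟩
      · intro x y
        exact hf x y
      · intro x y hxy
        change H.Adj (![a, c, b] x) y at hxy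
        fin_cases x
        · exact ⟨1, (hNa y (mem_univ y) hxy).symm⟩
        · rcases hNc' y hxy with h | h
          · exact ⟨0, h.symm⟩
          · exact ⟨2, h.symm⟩
        · exact ⟨1, (hNb y (mem_univ y) hxy).symm⟩
      · intro v hv
        exact good_cmp (h v (mem_univ v) (fun e => hv ⟨1, e.symm⟩) (fun e => hv ⟨0, e.symm⟩)
          (fun e => hv ⟨2, e.symm⟩))
    · rw [dg_zero_iff] at hw
      refine ⟨Set.range ![w], Or.inr (Or.inl ⟨⟨⟨![w], Function.injective_of_subsingleton _⟩, ?_⟩,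
        rfl, ?_⟩), ?_⟩
      · intro x y
        have e : x = y := Subsingleton.elim x y
        subst e
        exact ⟨fun h => absurd rfl h.ne, fun h => absurd rfl h.ne⟩
      · intro x y hxy
        change H.Adj (![w] x) y at hxy
        fin_cases x
        exact absurd hxy (hw y (mem_univ y))
      · intro v hv
        exact good_cmp (h v (mem_univ v) (fun e => hv ⟨0, e.symm⟩))
    · -- the path a b c d
      obtain ⟨a', -, -, hNa⟩ := dg_one_iff.1 hda
      obtain ⟨d', -, -, hNd⟩ := dg_one_iff.1 hdd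
      have ea := hNa b (mem_univ b) hab
      have ed := hNd c (mem_univ c) hcd.symm
      subst ea ed
      have hac : a ≠ c := by
        rintro rfl
        omega
      have hbd : b ≠ d := by
        rintro rfl
        omega
      have had : a ≠ d := by
        rintro rfl
        exact hbc.ne (hNa c (mem_univ c) hcd.symm).symm
      have nac : ¬ H.Adj a c := fun h => hbc.ne (hNa c (mem_univ c) h).symm
      have nad : ¬ H.Adj a d := fun h => hbd (hNa d (mem_univ d) h).symm
      have nbd : ¬ H.Adj b d := fun h => hbc.ne (hNd b (mem_univ b) h.symm)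
      have nca : ¬ H.Adj c a := fun h => nac h.symm
      have nda : ¬ H.Adj d a := fun h => nad h.symm
      have ndb : ¬ H.Adj d b := fun h => nbd h.symm
      have hNb' : ∀ z, H.Adj b z → z = a ∨ z = c := two_nbr hdb hac hab.symm hbc
      have hNc' : ∀ z, H.Adj c z → z = b ∨ z = d := two_nbr hdc hbd hbc.symm hcd
      have hf : ∀ x y : Fin 4, H.Adj (![a, b, c, d] x) (![a, b, c, d] y) ↔
          (SimpleGraph.pathGraph 4).Adj x y := by
        intro x y
        rw [SimpleGraph.pathGraph_adj]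
        fin_cases x <;> fin_cases y <;>
          simp [hab, hab.symm, hbc, hbc.symm, hcd, hcd.symm, nac, nad, nbd, nca, nda, ndb]
      have hinj : Function.Injective ![a, b, c, d] := by
        intro x y hxy
        fin_cases x <;> fin_cases y <;>
          simp_all [hab.ne, hab.ne', hbc.ne, hbc.ne', hcd.ne, hcd.ne', hac.symm, had.symm,
            hbd.symm]
      refine ⟨Set.range ![a, b, c, d],
        Or.inr (Or.inr (Or.inr ⟨⟨⟨![a, b, c, d], hinj⟩, ?_⟩, rfl, ?_⟩)), ?_⟩
      · intro x y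
        exact hf x y
      · intro x y hxy
        change H.Adj (![a, b, c, d] x) y at hxy
        fin_cases x
        · exact ⟨1, (hNa y (mem_univ y) hxy).symm⟩
        · rcases hNb' y hxy with h | h
          · exact ⟨0, h.symm⟩
          · exact ⟨2, h.symm⟩
        · rcases hNc' y hxy with h | h
          · exact ⟨1, h.symm⟩
          · exact ⟨3, h.symm⟩
        · exact ⟨2, (hNd y (mem_univ y) hxy).symm⟩
      · intro v hv
        exact good_cmp (h v (mem_univ v) (fun e => hv ⟨0, e.symm⟩) (fun e => hv ⟨1, e.symm⟩)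
          (fun e => hv ⟨2, e.symm⟩) (fun e => hv ⟨3, e.symm⟩))
  · rintro ⟨Z, hZ, h⟩
    have hg : ∀ v, v ∉ Z → Good H univ v := by
      intro v hv
      obtain ⟨C, hC, h1 | h1⟩ := h v hv
      · exact cmp_good (j := 1) (Or.inl rfl) hC h1
      · exact cmp_good (j := 2) (Or.inr rfl) hC h1
    rcases hZ with rfl | ⟨f, hf, hc⟩ | ⟨f, hf, hc⟩ | ⟨f, hf, hc⟩
    · exact Or.inl fun v _ => hg v (Set.notMem_empty v)
    · refine Or.inr (Or.inr (Or.inl ⟨f 0, mem_univ _, ?_, ?_⟩))
      · rw [cmp_dg f hf hc, path_dg1]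
      · intro v _ hv
        refine hg v fun h => ?_
        rw [← hf] at h
        obtain ⟨x, rfl⟩ := h
        exact hv (by rw [Subsingleton.elim x 0])
    · refine Or.inr (Or.inl ⟨f 1, mem_univ _, f 0, mem_univ _, f 2, mem_univ _, ?_, ?_, ?_, ?_, ?_,
        ?_, ?_⟩)
      · exact f.injective.ne (by simp)
      · exact f.map_adj_iff.2 (by simp [SimpleGraph.pathGraph_adj])
      · exact f.map_adj_iff.2 (by simp [SimpleGraph.pathGraph_adj])
      · rw [cmp_dg f hf hc, path_dg3.2.1]
      · rw [cmp_dg f hf hc, path_dg3.1]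
      · rw [cmp_dg f hf hc, path_dg3.2.2]
      · intro v _ h1 h0 h2
        refine hg v fun h => ?_
        rw [← hf] at h
        obtain ⟨x, rfl⟩ := h
        fin_cases x
        · exact h0 rfl
        · exact h1 rfl
        · exact h2 rfl
    · refine Or.inr (Or.inr (Or.inr ⟨f 0, mem_univ _, f 1, mem_univ _, f 2, mem_univ _, f 3,
        mem_univ _, ?_, ?_, ?_, ?_, ?_, ?_, ?_, ?_⟩))
      · exact f.map_adj_iff.2 (by simp [SimpleGraph.pathGraph_adj])
      · exact f.map_adj_iff.2 (by simp [SimpleGraph.pathGraph_adj])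
      · exact f.map_adj_iff.2 (by simp [SimpleGraph.pathGraph_adj])
      · rw [cmp_dg f hf hc, path_dg4.1]
      · rw [cmp_dg f hf hc, path_dg4.2.1]
      · rw [cmp_dg f hf hc, path_dg4.2.2.1]
      · rw [cmp_dg f hf hc, path_dg4.2.2.2]
      · intro v _ h0 h1 h2 h3
        refine hg v fun h => ?_
        rw [← hf] at h
        obtain ⟨x, rfl⟩ := h
        fin_cases x
        · exact h0 rfl
        · exact h1 rfl
        · exact h2 rfl
        · exact h3 rfl

/-- Degrees at most one. -/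
theorem matching_iff {H : SimpleGraph V} :
    (∀ v ∈ univ, dg H univ v ≤ 1) ↔ ∀ v a b, H.Adj v a → H.Adj v b → a = b := by
  constructor
  · intro h v a b ha hb
    have h1 := h v (mem_univ v)
    unfold dg at h1
    exact card_le_one.1 h1 a (mem_filter.2 ⟨mem_univ a, ha⟩) b (mem_filter.2 ⟨mem_univ b, hb⟩)
  · intro h v _
    unfold dg
    exact card_le_one.2 fun a ha b hb => h v a b (mem_filter.1 ha).2 (mem_filter.1 hb).2

end Pool.Agent.Lib.H20WD
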