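import Pool.Agent.Lib.H20WD.E6

/-! # G1: the upper bound for all `q` if there are few edges, cases -/

set_option autoImplicit false

namespace Pool.Agent.Lib.H20WD

open Finset Polynomial
open scoped Classical

variable {V : Type}

/-- The bound for all subsets with `n` elements, for `n ≤ q + 1` or at most `(n + 7) / 2` edges. -/
def BdA (V : Type) (n : ℕ) : Prop :=
  ∀ (H : SimpleGraph V) (S : Finset V), #S = n → ec H S < n → ∀ q,
    (n ≤ q + 1 ∨ 2 * ec H S ≤ n + 7) → cnt H S q ≤ lam n q (PP n (ec H S))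

theorem BdA.bd {n : ℕ} (h : BdA V n) : Bd V n := fun H S hS hk q hq => h H S hS hk q (Or.inl hq)


private theorem G1_lam0 (q : ℕ) : lam 0 q 1 = 1 := by
  unfold lam
  simp

private theorem G1_PP0 : PP 0 0 = 1 := by
  unfold PP
  simp

private theorem G1_dg0 (H : SimpleGraph V) {S : Finset V} {v : V} (h : dg H S v = 0) :
    ∀ w ∈ S, ¬ H.Adj v w := by
  intro w hw hvw
  unfold dg at h
  rw [Finset.card_eq_zero] at h
  have : w ∈ S.filter fun w => H.Adj v w := Finset.mem_filter.2 ⟨hw, hvw⟩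
  rw [h] at this
  exact absurd this (Finset.notMem_empty _)

private theorem G1_dg1 (H : SimpleGraph V) {S : Finset V} {v : V} (h : dg H S v = 1) :
    ∃ u ∈ S, H.Adj v u ∧ ∀ w ∈ S, H.Adj v w → w = u := by
  unfold dg at h
  obtain ⟨u, hu⟩ := Finset.card_eq_one.1 h
  have h1 : u ∈ S.filter fun w => H.Adj v w := by
    rw [hu]
    exact Finset.mem_singleton_self _
  refine ⟨u, (Finset.mem_filter.1 h1).1, (Finset.mem_filter.1 h1).2, fun w hw hvw => ?_⟩
  have h2 : w ∈ S.filter fun w => H.Adj v w := Finset.mem_filter.2 ⟨hw, hvw⟩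
  rw [hu] at h2
  exact Finset.mem_singleton.1 h2

private theorem G1_pos (H : SimpleGraph V) {S : Finset V} {v u : V} (hu : u ∈ S)
    (h : H.Adj v u) : 1 ≤ dg H S v := by
  unfold dg
  exact Finset.card_pos.2 ⟨u, Finset.mem_filter.2 ⟨hu, h⟩⟩

private theorem G1_fin {m q' A B k : ℕ} {p p' : ℕ[X]}
    (hA : A ≤ lam (m + 1) q' p) (hB : B ≤ lam m q' p') (hL : Le (p + X * p') (PP (m + 2) k)) :
    (q' + 1) * (A + B) ≤ lam (m + 2) (q' + 1) (PP (m + 2) k) := by
  calc (q' + 1) * (A + B) ≤ (q' + 1) * (lam (m + 1) q' p + lam m q' p') :=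
        Nat.mul_le_mul_left _ (Nat.add_le_add hA hB)
    _ = (q' + 1) * lam (m + 1) q' (p + X * p') := by rw [lam_add, lam_X]
    _ ≤ lam (m + 1 + 1) (q' + 1) (p + X * p') := lam_succ_le _ _ _
    _ ≤ lam (m + 2) (q' + 1) (PP (m + 2) k) := lam_le hL

/-- No edges.

Proof. `ec H S = 0` (`sum_dg`), `PP n 0 = 1` (`PP_small`, or `n = 0`). Take `v ∈ S`; if `q = 0` then
`cnt_zero`; if `q = q' + 1` then `cnt_iso`, and for `S.erase v`: if `m = 0` it is empty
(`cnt_empty`, `lam 0 q' 1 = 1`), otherwise `BdA V m` (`ec = 0 < m`); `lam_succ_le`. -/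
theorem case_noneA {m : ℕ} (hB : BdA V m) (H : SimpleGraph V) {S : Finset V} (hS : #S = m + 1)
    (h : ∀ v ∈ S, dg H S v = 0) {q : ℕ} (hq : m + 1 ≤ q + 1 ∨ 2 * ec H S ≤ m + 1 + 7) :
    cnt H S q ≤ lam (m + 1) q (PP (m + 1) (ec H S)) := by
  have hec : ec H S = 0 := by
    have h1 := sum_dg H S
    rw [Finset.sum_eq_zero h] at h1
    omega
  rw [hec, PP_small (by omega), pow_zero]
  have hne : S.Nonempty := Finset.card_pos.1 (by omega)
  rcases q with _ | q
  · rw [cnt_zero H hne]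
    exact Nat.zero_le _
  · obtain ⟨v, hv⟩ := hne
    rw [cnt_iso H hv (G1_dg0 H (h v hv))]
    have hcard : #(S.erase v) = m := by
      rw [Finset.card_erase_of_mem hv, hS]
      rfl
    have hkey : cnt H (S.erase v) q ≤ lam m q 1 := by
      rcases Nat.eq_zero_or_pos m with hm | hm
      · subst hm
        rw [Finset.card_eq_zero] at hcard
        rw [hcard, cnt_empty, G1_lam0]
      · have h2 := ec_erase H hv
        have h3 : ec H (S.erase v) = 0 := by omega
        have h4 := hB H (S.erase v) hcard (by omega) q (by omega)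
        rwa [h3, PP_small (by omega), pow_zero] at h4
    exact (Nat.mul_le_mul_left _ hkey).trans (lam_succ_le m q 1)

/-- All degrees at most one, at least one edge.

Proof. Take `v ∈ S` with `dg H S v = 1` and its neighbour `u`, `dg H S u = 1`. `2 * ec H S ≤ m + 2`
by `sum_dg`. `q = q' + 1`, `cnt_pend`. `ec H (S.erase v) = ec H S - 1 < m + 1`: `BdA V (m + 1)`.
`ec H ((S.erase v).erase u) = ec H S - 1` (`ec_erase`, `dg_erase`), which is `< m` if `m > 0`:
`BdA V m`; if `m = 0` the set is empty: `cnt_empty` and `PP 0 0 = 1`, `lam 0 q' 1 = 1`. Then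
`lam_succ_le`, `lam_X`, `lam_add` and `PP_match` (`lam_le`). -/
theorem case_matchA {m : ℕ} (hB : BdA V (m + 1)) (hB' : BdA V m) (H : SimpleGraph V) {S : Finset V}
    (hS : #S = m + 2) (h : ∀ v ∈ S, dg H S v ≤ 1) (h1 : ∃ v ∈ S, dg H S v = 1) {q : ℕ}
    (hq : m + 2 ≤ q + 1 ∨ 2 * ec H S ≤ m + 2 + 7) : cnt H S q ≤ lam (m + 2) q (PP (m + 2) (ec H S)) := by
  obtain ⟨v, hv, hv1⟩ := h1
  obtain ⟨u, hu, huv, huniq⟩ := G1_dg1 H hv1
  have hu1 : dg H S u = 1 := le_antisymm (h u hu) (G1_pos H hv huv.symm)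
  have hsum := sum_dg H S
  have hle : ∑ v ∈ S, dg H S v ≤ m + 2 := by
    calc ∑ v ∈ S, dg H S v ≤ ∑ _v ∈ S, 1 := Finset.sum_le_sum h
      _ = m + 2 := by rw [Finset.sum_const, hS, smul_eq_mul, mul_one]
  have hge : dg H S v ≤ ∑ v ∈ S, dg H S v :=
    Finset.single_le_sum (f := fun v => dg H S v) (fun _ _ => Nat.zero_le _) hv
  rcases q with _ | q
  · rw [cnt_zero H ⟨v, hv⟩]
    exact Nat.zero_le _
  rw [cnt_pend H hu hv huv huniq q]
  have e1 := ec_erase H hv
  have hu' : u ∈ S.erase v := Finset.mem_erase.2 ⟨huv.ne', hu⟩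
  have e2 := ec_erase H hu'
  have e3 := dg_erase H hv huv.symm
  have c1 : #(S.erase v) = m + 1 := by
    rw [Finset.card_erase_of_mem hv, hS]
    rfl
  have c2 : #((S.erase v).erase u) = m := by
    rw [Finset.card_erase_of_mem hu', c1]
    rfl
  have k1 : ec H (S.erase v) = ec H S - 1 := by omega
  have k2 : ec H ((S.erase v).erase u) = ec H S - 1 := by omega
  have hA := hB H (S.erase v) c1 (by omega) q (by omega)
  rw [k1] at hA
  have hB2 : cnt H ((S.erase v).erase u) q ≤ lam m q (PP m (ec H S - 1)) := by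
    rcases Nat.eq_zero_or_pos m with hm | hm
    · subst hm
      rw [Finset.card_eq_zero] at c2
      rw [c2, cnt_empty, show ec H S - 1 = 0 by omega, G1_PP0, G1_lam0]
    · have h4 := hB' H _ c2 (by omega) q (by omega)
      rwa [k2] at h4
  have h5 := PP_match (n := m + 2) (k := ec H S) (by omega) (by omega)
  rw [show m + 2 - 1 = m + 1 by omega, show m + 2 - 2 = m by omega] at h5
  exact G1_fin hA hB2 h5

/-- A pendant vertex `v` whose neighbour `u` has degree at least two.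

Proof. `q = q' + 1`, `cnt_pend`. `ec H (S.erase v) = ec H S - 1 < m + 1`: `BdA V (m + 1)`.
`ec H ((S.erase v).erase u) = ec H S - dg H S u ≤ ec H S - 2` (`ec_erase`, `dg_erase`): `BdA V m` and
`PP_mono` (`ec H S - 2 < m`). Then `lam_succ_le`, `lam_X`, `lam_add` and `PP_pend` (`lam_le`). -/
theorem case_pendA {m : ℕ} (hB : BdA V (m + 1)) (hB' : BdA V m) (H : SimpleGraph V) {S : Finset V}
    (hS : #S = m + 2) (hk : ec H S < m + 2) (hx : m + 3 ≤ 2 * ec H S) {u v : V} (hu : u ∈ S)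
    (hv : v ∈ S) (huv : H.Adj v u) (h1 : dg H S v = 1) (h2 : 2 ≤ dg H S u) {q : ℕ}
    (hq : m + 2 ≤ q + 1 ∨ 2 * ec H S ≤ m + 2 + 7) : cnt H S q ≤ lam (m + 2) q (PP (m + 2) (ec H S)) := by
  rcases q with _ | q
  · rw [cnt_zero H ⟨v, hv⟩]
    exact Nat.zero_le _
  have huniq : ∀ w ∈ S, H.Adj v w → w = u := by
    obtain ⟨u', _, _, h'⟩ := G1_dg1 H h1
    intro w hw hvw
    rw [h' w hw hvw, h' u hu huv]
  rw [cnt_pend H hu hv huv huniq q]
  have e1 := ec_erase H hv
  have hu' : u ∈ S.erase v := Finset.mem_erase.2 ⟨huv.ne', hu⟩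
  have e2 := ec_erase H hu'
  have e3 := dg_erase H hv huv.symm
  have c1 : #(S.erase v) = m + 1 := by
    rw [Finset.card_erase_of_mem hv, hS]
    rfl
  have c2 : #((S.erase v).erase u) = m := by
    rw [Finset.card_erase_of_mem hu', c1]
    rfl
  have k1 : ec H (S.erase v) = ec H S - 1 := by omega
  have hA := hB H (S.erase v) c1 (by omega) q (by omega)
  rw [k1] at hA
  have hB2 : cnt H ((S.erase v).erase u) q ≤ lam m q (PP m (ec H S - 2)) :=
    (hB' H _ c2 (by omega) q (by omega)).trans (lam_le (PP_mono (by omega) (by omega)))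
  have h5 := PP_pend (n := m + 2) (k := ec H S) (by omega) hk
  rw [show m + 2 - 1 = m + 1 by omega, show m + 2 - 2 = m by omega] at h5
  exact G1_fin hA hB2 h5



/-- Proof. The only neighbours of `v` in `S` are `u` and `w` (`dg H S v = 2`). `q = q' + 1`,
`cnt_two`. The numbers of edges (`ec_erase`, `dg_erase`): `S.erase v`: `ec H S - 2`;
`(S.erase v).erase w`: `ec H S - 1 - dg H S w ≤ ec H S - 3`; the same for `u`. `BdA V (m + 2)`,
`BdA V (m + 1)` and `PP_mono`; `lam_succ_le`, `lam_X`, `lam_add` and `PP_two` (`lam_le`). -/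
theorem case_twoA {m : ℕ} (hB : BdA V (m + 2)) (hB' : BdA V (m + 1)) (H : SimpleGraph V)
    {S : Finset V} (hS : #S = m + 3) (hk : ec H S < m + 3) (hx : m + 6 ≤ 2 * ec H S) {u v w : V}
    (hu : u ∈ S) (hv : v ∈ S) (hw : w ∈ S) (hne : u ≠ w) (hvu : H.Adj v u) (hvw : H.Adj v w)
    (huw : ¬ H.Adj u w) (h2 : dg H S v = 2) (hdu : 2 ≤ dg H S u) (hdw : 2 ≤ dg H S w) {q : ℕ}
    (hq : m + 3 ≤ q + 1 ∨ 2 * ec H S ≤ m + 3 + 7) : cnt H S q ≤ lam (m + 3) q (PP (m + 3) (ec H S)) := by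
  rcases Nat.eq_zero_or_pos q with h0 | h0
  · rw [h0, cnt_zero H ⟨v, hv⟩]
    exact Nat.zero_le _
  obtain ⟨q', rfl⟩ : ∃ q', q = q' + 1 := ⟨q - 1, by omega⟩
  have hsub : ({u, w} : Finset V) ⊆ S.filter fun x => H.Adj v x := by
    intro x hx
    rw [mem_insert, mem_singleton] at hx
    rcases hx with rfl | rfl
    · exact mem_filter.2 ⟨hu, hvu⟩
    · exact mem_filter.2 ⟨hw, hvw⟩
  have heq : ({u, w} : Finset V) = S.filter fun x => H.Adj v x := by
    refine eq_of_subset_of_card_le hsub ?_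
    rw [card_pair hne]
    exact le_of_eq h2
  have hall : ∀ x ∈ S, H.Adj v x → x = u ∨ x = w := by
    intro x hx hadj
    have h3 : x ∈ ({u, w} : Finset V) := by
      rw [heq]
      exact mem_filter.2 ⟨hx, hadj⟩
    rw [mem_insert, mem_singleton] at h3
    exact h3
  have huv' : u ∈ S.erase v := mem_erase.2 ⟨hvu.ne.symm, hu⟩
  have hwv' : w ∈ S.erase v := mem_erase.2 ⟨hvw.ne.symm, hw⟩
  have c1 : #(S.erase v) = m + 2 := by rw [card_erase_of_mem hv, hS]; rfl
  have c2 : #((S.erase v).erase w) = m + 1 := by rw [card_erase_of_mem hwv', c1]; rfl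
  have c3 : #((S.erase v).erase u) = m + 1 := by rw [card_erase_of_mem huv', c1]; rfl
  have e1 := ec_erase H hv
  have e2 := ec_erase H hwv'
  have e3 := ec_erase H huv'
  have g2 := dg_erase H hv hvw.symm
  have g3 := dg_erase H hv hvu.symm
  have b1 := hB H (S.erase v) c1 (by omega) q' (by omega)
  have b2 := hB' H ((S.erase v).erase w) c2 (by omega) q' (by omega)
  have b3 := hB' H ((S.erase v).erase u) c3 (by omega) q' (by omega)
  have l2 : Le (PP (m + 1) (ec H ((S.erase v).erase w))) (PP (m + 1) (ec H S - 3)) :=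
    PP_mono (by omega) (by omega)
  have l3 : Le (PP (m + 1) (ec H ((S.erase v).erase u))) (PP (m + 1) (ec H S - 3)) :=
    PP_mono (by omega) (by omega)
  rw [show ec H (S.erase v) = ec H S - 2 by omega] at b1
  have b2' := b2.trans (lam_le l2)
  have b3' := b3.trans (lam_le l3)
  have hX : lam (m + 2) q' (X * PP (m + 1) (ec H S - 3)) = lam (m + 1) q' (PP (m + 1) (ec H S - 3)) :=
    lam_X _ _ _
  rw [cnt_two H hu hv hw hne hvu hvw huw hall]
  refine le_trans (Nat.mul_le_mul_left _ ?_) (lam_succ_le (m + 2) q' _)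
  have hP := lam_le (n := m + 2) (q := q') (PP_two (n := m + 3) (k := ec H S) (by omega) hk)
  rw [show m + 3 - 1 = m + 2 from rfl, show m + 3 - 2 = m + 1 from rfl,
    show (2 : ℕ[X]) * X * PP (m + 1) (ec H S - 3) =
      X * PP (m + 1) (ec H S - 3) + X * PP (m + 1) (ec H S - 3) by ring,
    lam_add, lam_add] at hP
  omega



private theorem G1t_nb (H : SimpleGraph V) {S : Finset V} {u v w : V} (hu : u ∈ S) (hw : w ∈ S)
    (hne : u ≠ w) (hvu : H.Adj v u) (hvw : H.Adj v w) (h2 : dg H S v = 2) :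
    ∀ x ∈ S, H.Adj v x → x = u ∨ x = w := by
  intro x hx hvx
  have hsub : ({u, w} : Finset V) ⊆ S.filter fun y => H.Adj v y := by
    intro y hy
    rw [mem_insert, mem_singleton] at hy
    rcases hy with rfl | rfl
    · exact mem_filter.2 ⟨hu, hvu⟩
    · exact mem_filter.2 ⟨hw, hvw⟩
  have hcard : #(S.filter fun y => H.Adj v y) ≤ #({u, w} : Finset V) := by
    rw [card_pair hne]
    exact h2.le
  have heq := eq_of_subset_of_card_le hsub hcard
  have hx' : x ∈ ({u, w} : Finset V) := by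
    rw [heq]
    exact mem_filter.2 ⟨hx, hvx⟩
  rwa [mem_insert, mem_singleton] at hx'

/-- The numbers of edges after deleting the vertices of a triangle. -/
private theorem G1t_ec (H : SimpleGraph V) {S : Finset V} {u v w : V} (hu : u ∈ S) (hv : v ∈ S)
    (hw : w ∈ S) (hvu : H.Adj v u) (hvw : H.Adj v w) (huw : H.Adj u w) (h2 : dg H S v = 2) :
    ec H (S.erase v) + 2 = ec H S ∧
      ec H ((S.erase v).erase u) + dg H S u + 1 = ec H S ∧
      ec H ((S.erase v).erase w) + dg H S w + 1 = ec H S ∧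
      ec H (((S.erase v).erase u).erase w) + dg H S u + dg H S w = ec H S + 1 := by
  have hu1 : u ∈ S.erase v := mem_erase.2 ⟨hvu.symm.ne, hu⟩
  have hw1 : w ∈ S.erase v := mem_erase.2 ⟨hvw.symm.ne, hw⟩
  have hw2 : w ∈ (S.erase v).erase u := mem_erase.2 ⟨huw.symm.ne, hw1⟩
  have e1 := ec_erase H hv
  have e2 := ec_erase H hu1
  have e3 := ec_erase H hw1
  have e4 := ec_erase H hw2
  have d1 := dg_erase H (S := S) hv hvu.symm
  have d2 := dg_erase H (S := S) hv hvw.symm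
  have d3 := dg_erase H (S := S.erase v) hu1 huw.symm
  refine ⟨by omega, by omega, by omega, by omega⟩

private theorem G1t_card {S : Finset V} {m : ℕ} {u v w : V} (hS : #S = m + 3) (hu : u ∈ S)
    (hv : v ∈ S) (hw : w ∈ S) (hvu : v ≠ u) (hvw : v ≠ w) (huw : u ≠ w) :
    #(S.erase v) = m + 2 ∧ #((S.erase v).erase u) = m + 1 ∧ #((S.erase v).erase w) = m + 1 ∧
      #(((S.erase v).erase u).erase w) = m := by
  have hu1 : u ∈ S.erase v := mem_erase.2 ⟨hvu.symm, hu⟩
  have hw1 : w ∈ S.erase v := mem_erase.2 ⟨hvw.symm, hw⟩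
  have hw2 : w ∈ (S.erase v).erase u := mem_erase.2 ⟨huw.symm, hw1⟩
  have e1 := card_erase_of_mem hv
  have e2 := card_erase_of_mem hu1
  have e3 := card_erase_of_mem hw1
  have e4 := card_erase_of_mem hw2
  refine ⟨by omega, by omega, by omega, by omega⟩

/-- An isolated triangle.

Proof. `P = PP m (ec H S - 3)`, `T = ((S.erase v).erase u).erase w`, `ec H T = ec H S - 3 < m`.
`q = q' + 1`, `cnt_three`. `S.erase v`: `BdA V (m + 2)` and `PP (m + 2) (ec H S - 2) = bb * P`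
(`PP_tri'`). `(S.erase v).erase w`: `u` is isolated: if `q' = 0` the count is `0` (`cnt_zero`), if
`q' = q'' + 1` then `cnt_iso`, `BdA V m` for `T` and `q''`, `lam_succ_le`: at most `lam (m + 1) q' P`.
The same for `(S.erase v).erase u`. `T`: at most `lam m q' P`. Total (`lam_succ_le`, `lam_X`):
`lam (m + 3) q (bb * P + 2 * X * P + X ^ 2 * P) = lam (m + 3) q (aa * P)`, and `PP_tri`. -/
theorem case_triA {m : ℕ} (hB : BdA V (m + 2)) (hB' : BdA V m) (H : SimpleGraph V)
    {S : Finset V} (hS : #S = m + 3) (hk : ec H S < m + 3) (hx : m + 6 ≤ 2 * ec H S) {u v w : V}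
    (hu : u ∈ S) (hv : v ∈ S) (hw : w ∈ S) (hvu : H.Adj v u) (hvw : H.Adj v w)
    (huw : H.Adj u w) (h2 : dg H S v = 2) (hdu : dg H S u = 2) (hdw : dg H S w = 2) {q : ℕ}
    (hq : m + 3 ≤ q + 1 ∨ 2 * ec H S ≤ m + 3 + 7) : cnt H S q ≤ lam (m + 3) q (PP (m + 3) (ec H S)) := by
  obtain ⟨e1, e2, e3, e4⟩ := G1t_ec H hu hv hw hvu hvw huw h2
  obtain ⟨c1, c2, c3, c4⟩ := G1t_card hS hu hv hw hvu.ne hvw.ne huw.ne
  have hnbv := G1t_nb H hu hw huw.ne hvu hvw h2
  have hnbu := G1t_nb H hv hw hvw.ne hvu.symm huw hdu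
  have hnbw := G1t_nb H hv hu hvu.ne hvw.symm huw.symm hdw
  rcases Nat.eq_zero_or_pos q with h0 | h0
  · rw [h0, cnt_zero H ⟨v, hv⟩]
    exact Nat.zero_le _
  obtain ⟨q', rfl⟩ : ∃ q', q = q' + 1 := ⟨q - 1, by omega⟩
  set k := ec H S with hkdef
  have hT : ec H (((S.erase v).erase u).erase w) = k - 3 := by omega
  have hSv : ec H (S.erase v) = k - 2 := by omega
  have b1 := hB H (S.erase v) c1 (by omega) q' (by omega)
  rw [hSv] at b1
  have htri' : PP (m + 2) (k - 2) = bb * PP m (k - 3) := PP_tri' (n := m + 3) (k := k) (by omega) hk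
  rw [htri'] at b1
  have b4 := hB' H (((S.erase v).erase u).erase w) c4 (by omega) q' (by omega)
  have b4' : ∀ q'', q' = q'' + 1 → cnt H (((S.erase v).erase u).erase w) q'' ≤
      lam m q'' (PP m (k - 3)) := by
    intro q'' hq''
    have h := hB' H (((S.erase v).erase u).erase w) c4 (by omega) q'' (by omega)
    rwa [hT] at h
  rw [hT] at b4
  have hu1 : u ∈ (S.erase v).erase w :=
    mem_erase.2 ⟨huw.ne, mem_erase.2 ⟨hvu.symm.ne, hu⟩⟩
  have hw1 : w ∈ (S.erase v).erase u :=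
    mem_erase.2 ⟨huw.symm.ne, mem_erase.2 ⟨hvw.symm.ne, hw⟩⟩
  have hisou : ∀ x ∈ (S.erase v).erase w, ¬ H.Adj u x := by
    intro x hx hux
    rw [mem_erase, mem_erase] at hx
    rcases hnbu x hx.2.2 hux with h | h
    · exact hx.2.1 h
    · exact hx.1 h
  have hisow : ∀ x ∈ (S.erase v).erase u, ¬ H.Adj w x := by
    intro x hx hwx
    rw [mem_erase, mem_erase] at hx
    rcases hnbw x hx.2.2 hwx with h | h
    · exact hx.2.1 h
    · exact hx.1 h
  have b2 : cnt H ((S.erase v).erase w) q' ≤ lam (m + 1) q' (PP m (k - 3)) := by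
    rcases Nat.eq_zero_or_pos q' with h0 | h0
    · rw [h0, cnt_zero H ⟨u, hu1⟩]
      exact Nat.zero_le _
    obtain ⟨q'', hq''⟩ : ∃ q'', q' = q'' + 1 := ⟨q' - 1, by omega⟩
    rw [hq'', cnt_iso H hu1 hisou q'', erase_right_comm]
    exact (Nat.mul_le_mul_left _ (b4' q'' hq'')).trans (lam_succ_le _ _ _)
  have b3 : cnt H ((S.erase v).erase u) q' ≤ lam (m + 1) q' (PP m (k - 3)) := by
    rcases Nat.eq_zero_or_pos q' with h0 | h0
    · rw [h0, cnt_zero H ⟨w, hw1⟩]
      exact Nat.zero_le _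
    obtain ⟨q'', hq''⟩ : ∃ q'', q' = q'' + 1 := ⟨q' - 1, by omega⟩
    rw [hq'', cnt_iso H hw1 hisow q'']
    exact (Nat.mul_le_mul_left _ (b4' q'' hq'')).trans (lam_succ_le _ _ _)
  rw [cnt_three H hu hv hw hvu hvw huw hnbv q']
  have htri : PP (m + 3) k = aa * PP m (k - 3) := PP_tri (n := m + 3) (k := k) (by omega) hk
  rw [htri]
  have hpoly : aa * PP m (k - 3) = bb * PP m (k - 3) + X * PP m (k - 3) + X * PP m (k - 3) +
      X * (X * PP m (k - 3)) := by
    unfold aa bb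
    ring
  rw [hpoly]
  refine le_trans (Nat.mul_le_mul_left _ ?_) (lam_succ_le (m + 2) q' _)
  rw [lam_add, lam_add, lam_add, lam_X (m + 1), lam_X (m + 1), lam_X m]
  exact Nat.add_le_add (Nat.add_le_add (Nat.add_le_add b1 b2) b3) b4

/-- A triangle `v u w` with `dg v = 2`, `dg u ≥ 3`, `dg w ≥ 2`.

Proof. `q = q' + 1`, `cnt_three`. The numbers of edges (`ec_erase`, `dg_erase`): `S.erase v`:
`ec H S - 2`; `(S.erase v).erase w`: `ec H S - 1 - dg H S w ≤ ec H S - 3`; `(S.erase v).erase u`: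
`ec H S - 1 - dg H S u ≤ ec H S - 4`; `((S.erase v).erase u).erase w`:
`ec H S + 1 - dg H S u - dg H S w ≤ ec H S - 4`. `Bd` and `PP_mono` for each of them;
`lam_succ_le`, `lam_X`, `lam_add` and `PP_three` (`lam_le`). -/
theorem case_threeA {m : ℕ} (hB : BdA V (m + 2)) (hB' : BdA V (m + 1)) (hB'' : BdA V m)
    (H : SimpleGraph V) {S : Finset V} (hS : #S = m + 3) (hk : ec H S < m + 3)
    (hx : m + 8 ≤ 2 * ec H S) {u v w : V} (hu : u ∈ S) (hv : v ∈ S) (hw : w ∈ S)
    (hvu : H.Adj v u) (hvw : H.Adj v w) (huw : H.Adj u w) (h2 : dg H S v = 2)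
    (hdu : 3 ≤ dg H S u) (hdw : 2 ≤ dg H S w) {q : ℕ} (hq : m + 3 ≤ q + 1 ∨ 2 * ec H S ≤ m + 3 + 7) :
    cnt H S q ≤ lam (m + 3) q (PP (m + 3) (ec H S)) := by
  obtain ⟨e1, e2, e3, e4⟩ := G1t_ec H hu hv hw hvu hvw huw h2
  obtain ⟨c1, c2, c3, c4⟩ := G1t_card hS hu hv hw hvu.ne hvw.ne huw.ne
  have hnbv := G1t_nb H hu hw huw.ne hvu hvw h2
  rcases Nat.eq_zero_or_pos q with h0 | h0
  · rw [h0, cnt_zero H ⟨v, hv⟩]
    exact Nat.zero_le _
  obtain ⟨q', rfl⟩ : ∃ q', q = q' + 1 := ⟨q - 1, by omega⟩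
  set k := ec H S with hkdef
  have hSv : ec H (S.erase v) = k - 2 := by omega
  have b1 := hB H (S.erase v) c1 (by omega) q' (by omega)
  rw [hSv] at b1
  have b2 : cnt H ((S.erase v).erase w) q' ≤ lam (m + 1) q' (PP (m + 1) (k - 3)) :=
    (hB' H ((S.erase v).erase w) c3 (by omega) q' (by omega)).trans
      (lam_le (PP_mono (by omega) (by omega)))
  have b3 : cnt H ((S.erase v).erase u) q' ≤ lam (m + 1) q' (PP (m + 1) (k - 4)) :=
    (hB' H ((S.erase v).erase u) c2 (by omega) q' (by omega)).trans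
      (lam_le (PP_mono (by omega) (by omega)))
  have b4 : cnt H (((S.erase v).erase u).erase w) q' ≤ lam m q' (PP m (k - 4)) :=
    (hB'' H (((S.erase v).erase u).erase w) c4 (by omega) q' (by omega)).trans
      (lam_le (PP_mono (by omega) (by omega)))
  rw [cnt_three H hu hv hw hvu hvw huw hnbv q']
  have hthree : Le (PP (m + 2) (k - 2) + X * (PP (m + 1) (k - 4) + PP (m + 1) (k - 3)) +
      X ^ 2 * PP m (k - 4)) (PP (m + 3) k) := PP_three (n := m + 3) (k := k) (by omega) hk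
  refine le_trans (le_trans (Nat.mul_le_mul_left _ ?_) (lam_succ_le (m + 2) q' _))
    (lam_le hthree)
  rw [pow_two, mul_assoc, lam_add, lam_add, lam_X (m + 1), lam_X (m + 1), lam_X m, lam_add]
  omega

end Pool.Agent.Lib.H20WD
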