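import Pool.Agent.Lib.H20WD.Defs

/-! # N1: four coefficientwise inequalities (steps of three) -/

set_option autoImplicit false

namespace Pool.Agent.Lib.H20WD

open Finset Polynomial
open scoped Classical

theorem N1_three : gg 3 = aa := by
  rw [show (3 : ℕ) = 0 + 3 from rfl, gg_add, gg_zero, mul_one]

theorem N1_four : gg 4 = aa * (1 + X) := by
  rw [show (4 : ℕ) = 1 + 3 from rfl, gg_add, gg_one]

theorem N1_five : gg 5 = aa * (1 + 2 * X) := by
  rw [show (5 : ℕ) = 2 + 3 from rfl, gg_add, gg_two']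

theorem N1_six : gg 6 = aa * aa := by
  rw [show (6 : ℕ) = 3 + 3 from rfl, gg_add, N1_three]

/-- Induction with steps of three. -/
theorem N1_ind {P : ℕ → Prop} (h0 : P 0) (h1 : P 1) (h2 : P 2) (h : ∀ i, P i → P (i + 3)) (i : ℕ) : P i := by
  have h' : P i ∧ P (i + 1) ∧ P (i + 2) := by
    induction i with
    | zero => exact ⟨h0, h1, h2⟩
    | succ i ih => exact ⟨ih.2.1, ih.2.2, h i ih.1⟩
  exact h'.1

/-- Proof. Induction with steps of three: `gg (i + 3 + k) = aa * gg (i + k)` (`gg_add`), so the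
statement for `i + 3` is `aa` times the statement for `i` (`Le.mul`). For `i = 0, 1, 2` give the
difference: `i = 0`: `X`; `i = 1`: `X`; `i = 2`: `X + 2 X ^ 2 + X ^ 3` (unfold `bb`, `aa`, `gg_zero`,
`gg_one`, `gg_two'`, `gg_add`; `ring`). -/
theorem gg_mono2 (i : ℕ) : Le (bb * gg i) (gg (i + 2)) := by
  refine N1_ind (P := fun i => Le (bb * gg i) (gg (i + 2))) ?_ ?_ ?_ ?_ i
  · refine ⟨X, ?_⟩
    show gg 2 = bb * gg 0 + X
    rw [gg_two', gg_zero]
    unfold bb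
    ring
  · refine ⟨X, ?_⟩
    show gg 3 = bb * gg 1 + X
    rw [N1_three, gg_one]
    unfold bb aa
    ring
  · refine ⟨X + 2 * X ^ 2 + X ^ 3, ?_⟩
    show gg 4 = bb * gg 2 + _
    rw [N1_four, gg_two']
    unfold bb aa
    ring
  · intro i h
    have h1 := h.mul aa
    rw [show i + 3 + 2 = i + 2 + 3 by omega, gg_add (i + 2), gg_add i]
    rw [show bb * (aa * gg i) = aa * (bb * gg i) by ring]
    exact h1

/-- Proof. As `gg_mono2`. Differences: `i = 0`: `0`; `i = 1`: `0`; `i = 2`: `X ^ 2 + X ^ 3`. -/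
theorem gg_pend (i : ℕ) : Le (gg (i + 1) + X * gg i) (gg (i + 2)) := by
  refine N1_ind (P := fun i => Le (gg (i + 1) + X * gg i) (gg (i + 2))) ?_ ?_ ?_ ?_ i
  · refine ⟨0, ?_⟩
    show gg 2 = gg 1 + X * gg 0 + 0
    rw [gg_two', gg_one, gg_zero]
    ring
  · refine ⟨0, ?_⟩
    show gg 3 = gg 2 + X * gg 1 + 0
    rw [N1_three, gg_two', gg_one]
    unfold aa
    ring
  · refine ⟨X ^ 2 + X ^ 3, ?_⟩
    show gg 4 = gg 3 + X * gg 2 + _
    rw [N1_four, N1_three, gg_two']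
    unfold aa
    ring
  · intro i h
    have h1 := h.mul aa
    rw [show i + 3 + 1 = i + 1 + 3 by omega, show i + 3 + 2 = i + 2 + 3 by omega, gg_add (i + 1),
      gg_add (i + 2), gg_add i]
    rw [show aa * gg (i + 1) + X * (aa * gg i) = aa * (gg (i + 1) + X * gg i) by ring]
    exact h1

/-- Proof. As `gg_mono2`. Differences: `i = 0`: `X ^ 2 + X ^ 3`; `i = 1`: `X ^ 2`;
`i = 2`: `X ^ 2 + X ^ 3 + X ^ 4`. (Both sides: `i = 0`: `1 + 4 X + 3 X ^ 2` and
`1 + 4 X + 4 X ^ 2 + X ^ 3`; `i = 1`: `1 + 5 X + 6 X ^ 2 + 2 X ^ 3` and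
`1 + 5 X + 7 X ^ 2 + 2 X ^ 3`; `i = 2`: `1 + 6 X + 10 X ^ 2 + 5 X ^ 3` and
`1 + 6 X + 11 X ^ 2 + 6 X ^ 3 + X ^ 4`.) -/
theorem gg_two (i : ℕ) : Le (bb * (gg (i + 1) + 2 * X * gg i)) (gg (i + 4)) := by
  refine N1_ind (P := fun i => Le (bb * (gg (i + 1) + 2 * X * gg i)) (gg (i + 4))) ?_ ?_ ?_ ?_ i
  · refine ⟨X ^ 2 + X ^ 3, ?_⟩
    show gg 4 = bb * (gg 1 + 2 * X * gg 0) + _
    rw [N1_four, gg_one, gg_zero]
    unfold bb aa
    ring
  · refine ⟨X ^ 2, ?_⟩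
    show gg 5 = bb * (gg 2 + 2 * X * gg 1) + _
    rw [N1_five, gg_two', gg_one]
    unfold bb aa
    ring
  · refine ⟨X ^ 2 + X ^ 3 + X ^ 4, ?_⟩
    show gg 6 = bb * (gg 3 + 2 * X * gg 2) + _
    rw [N1_six, N1_three, gg_two']
    unfold bb aa
    ring
  · intro i h
    have h1 := h.mul aa
    rw [show i + 3 + 1 = i + 1 + 3 by omega, show i + 3 + 4 = i + 4 + 3 by omega, gg_add (i + 1),
      gg_add (i + 4), gg_add i]
    rw [show bb * (aa * gg (i + 1) + 2 * X * (aa * gg i)) =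
      aa * (bb * (gg (i + 1) + 2 * X * gg i)) by ring]
    exact h1

end Pool.Agent.Lib.H20WD
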