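import Pool.Agent.Lib.H20WD.Defs

/-! # N3: the ratio of the falling factorials -/

set_option autoImplicit false

namespace Pool.Agent.Lib.H20WD

open Finset Polynomial
open scoped Classical

private theorem n3_shift (q m : ℕ) (g : ℕ[X]) (j : ℕ) :
    lam (j + m) q (X ^ j * g) = lam m q g := by
  induction j with
  | zero => rw [pow_zero, one_mul, Nat.zero_add]
  | succ j ih =>
    rw [pow_succ', mul_assoc, show j + 1 + m = j + m + 1 by omega, lam_X, ih]

private theorem n3_step (m q j : ℕ) (h : m + j ≤ q) (g : ℕ[X]) :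
    j * lam m q g ≤ lam (m + 1) q g := by
  unfold lam
  rw [sum_range_succ _ (m + 1), mul_sum]
  refine le_trans (sum_le_sum fun i hi => ?_) (Nat.le_add_right _ _)
  have hi' : i ≤ m := by
    have := mem_range.1 hi
    omega
  rw [show m + 1 - i = (m - i) + 1 by omega, Nat.descFactorial_succ]
  have h1 : j ≤ q - (m - i) := by omega
  calc j * (g.coeff i * q.descFactorial (m - i))
      ≤ (q - (m - i)) * (g.coeff i * q.descFactorial (m - i)) := Nat.mul_le_mul_right _ h1
    _ = g.coeff i * ((q - (m - i)) * q.descFactorial (m - i)) := by ring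

/-- Proof. `lam n q (X ^ j * g) = ∑ i, g_i * (q)_(n - j - i)` over `i` with `i + j ≤ n`. If `j = n`
or `n < j` the left side is `0` (all coefficients of `X ^ (j + 1) * g` of index at most `n`
vanish). Otherwise: by `lam_X` (`j` times, or `j + 1` times) both sides become
`lam (n - j - 1) q g` and `lam (n - j) q g` (write `n = j + 1 + m`; prove first
`lam (j + m) q (X ^ j * g) = lam m q g` by induction on `j`). So the claim is
`j * lam m q g ≤ lam (m + 1) q g` for `m + 1 + j ≤ q + 1`: for each `i ≤ m`,
`(q)_(m + 1 - i) = (q)_(m - i) * (q - (m - i))` (`Nat.descFactorial_succ`) and `q - (m - i) ≥ j`;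
the term `i = m + 1` is nonnegative. -/
theorem lam_ratio {n q j : ℕ} (h : n ≤ q + 1) (g : ℕ[X]) :
    j * lam n q (X ^ (j + 1) * g) ≤ lam n q (X ^ j * g) := by
  rcases Nat.lt_or_ge j n with hj | hj
  · obtain ⟨m, rfl⟩ : ∃ m, n = j + 1 + m := ⟨n - (j + 1), by omega⟩
    have h1 := n3_shift q m g (j + 1)
    have h2 := n3_shift q (m + 1) g j
    rw [show j + (m + 1) = j + 1 + m by omega] at h2
    rw [h1, h2]
    exact n3_step m q j (by omega) g
  · have h0 : lam n q (X ^ (j + 1) * g) = 0 := by
      unfold lam
      refine sum_eq_zero fun i hi => ?_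
      have hi' : ¬ (j + 1 ≤ i) := by
        have := mem_range.1 hi
        omega
      rw [coeff_X_pow_mul', if_neg hi', zero_mul]
    rw [h0, mul_zero]
    exact Nat.zero_le _

end Pool.Agent.Lib.H20WD
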