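import Pool.Agent.Lib.H20WD.Defs

/-! # T0: graphs on initial segments of the natural numbers -/

set_option autoImplicit false

namespace Pool.Agent.Lib.H20WD

open Finset Polynomial
open scoped Classical

/-- `H` is a graph on `0, ..., n - 1` with `k` edges and the polynomial `p`. -/
def AttG (n k : ℕ) (p : ℕ[X]) (H : SimpleGraph ℕ) : Prop :=
  (∀ a b, H.Adj a b → a < n) ∧ ec H (range n) = k ∧
    (∀ j, n < j → p.coeff j = 0) ∧ ∀ q, cnt H (range n) q = lam n q p

end Pool.Agent.Lib.H20WD
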