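import Pool.Agent.Lib.H20WD.C1
import Pool.Agent.Lib.H20WD.C2
import Pool.Agent.Lib.H20WD.D2
import Pool.Agent.Lib.H20WD.T0

/-! # T1: adding vertices to a graph on `0, ..., n - 1`, part 1 -/

set_option autoImplicit false

namespace Pool.Agent.Lib.H20WD

open Finset Polynomial
open scoped Classical

private theorem T1_range (n : ℕ) (inst : DecidableEq ℕ) :
    @Finset.erase ℕ inst (range (n + 1)) n = range n := by
  ext a
  rw [mem_erase, mem_range, mem_range]
  omega

private theorem T1_erase (i1 i2 : DecidableEq ℕ) (S : Finset ℕ) (v : ℕ) :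
    @Finset.erase ℕ i1 S v = @Finset.erase ℕ i2 S v := by
  rw [Subsingleton.elim i1 i2]

/-- Proof. `cnt_empty`, `lam 0 q 1 = 1`. -/
theorem attG_zero : AttG 0 0 1 ⊥ := by
  refine ⟨fun a b h => h.elim, by simp [ec], fun j hj => ?_, fun q => ?_⟩
  · rw [coeff_one, if_neg (by omega)]
  · rw [range_zero, cnt_empty]
    simp [lam]

/-- Proof. `n` is isolated in `range (n + 1)`, `(range (n + 1)).erase n = range n`. `q = 0`:
`cnt_zero` and `lam (n + 1) 0 p = p.coeff (n + 1) = 0`. `q + 1`: `cnt_iso` and `lam_succ`.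
`ec_erase` with degree `0`. -/
theorem attG_one {n k : ℕ} {p : ℕ[X]} {H : SimpleGraph ℕ} (h : AttG n k p H) :
    AttG (n + 1) k p H := by
  obtain ⟨h1, h2, h3, h4⟩ := h
  have hn : ∀ w ∈ range (n + 1), ¬ H.Adj n w := fun w _ hw => lt_irrefl n (h1 n w hw)
  have hdg : dg H (range (n + 1)) n = 0 := by
    unfold dg
    rw [card_eq_zero, filter_eq_empty_iff]
    exact hn
  refine ⟨fun a b hab => (h1 a b hab).trans (Nat.lt_succ_self n), ?_, fun j hj => h3 j (by omega),
    fun q => ?_⟩
  · have h5 := ec_erase H (S := range (n + 1)) (v := n) (self_mem_range_succ n)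
    rw [T1_range, hdg, h2] at h5
    omega
  · cases q with
    | zero =>
      rw [cnt_zero H ⟨n, self_mem_range_succ n⟩]
      symm
      unfold lam
      refine sum_eq_zero fun j hj => ?_
      have hj' : j < n + 2 := mem_range.1 hj
      rcases Nat.lt_or_ge j (n + 1) with h5 | h5
      · rw [show n + 1 - j = (n - j) + 1 by omega, Nat.zero_descFactorial_succ, mul_zero]
      · rw [h3 j (by omega), zero_mul]
    | succ q =>
      rw [cnt_iso H (self_mem_range_succ n) hn, T1_range, h4, lam_succ, h3 (n + 1) (by omega),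
        add_zero]

private theorem T1_adj (H : SimpleGraph ℕ) {u v : ℕ} (h : ¬ H.Adj u v) (a b : ℕ) :
    (del (add H u v) u v).Adj a b ↔ H.Adj a b := by
  constructor
  · rintro ⟨hab | ⟨_, h1⟩, h2, h3⟩
    · exact hab
    · rcases h1 with h1 | h1
      · exact absurd h1 h2
      · exact absurd h1 h3
  · intro hab
    refine ⟨Or.inl hab, ?_, ?_⟩
    · rintro ⟨rfl, rfl⟩
      exact h hab
    · rintro ⟨rfl, rfl⟩
      exact h hab.symm

private theorem T1_del (H : SimpleGraph ℕ) {u v : ℕ} (h : ¬ H.Adj u v) (S : Finset ℕ) (q : ℕ) :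
    cnt (del (add H u v) u v) S q = cnt H S q :=
  cnt_congr (fun a _ b _ => T1_adj H h a b) q

/-- Adding an edge between two vertices that are not adjacent.

Proof. `cnt_edge` for `add H u v`, edge `uv`; `del (add H u v) u v` and `H` have the same
adjacencies (`cnt_congr`). -/
theorem cnt_add (H : SimpleGraph ℕ) {S : Finset ℕ} {u v : ℕ} (hu : u ∈ S) (hv : v ∈ S)
    (hne : u ≠ v) (h : ¬ H.Adj u v) (q : ℕ) :
    cnt (add H u v) S q = cnt H S q + cnt (ctr (add H u v) u v) (S.erase v) q := by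
  have h1 : (add H u v).Adj u v := Or.inr ⟨hne, Or.inl ⟨rfl, rfl⟩⟩
  have h2 := cnt_edge (add H u v) hu hv h1 q
  rw [T1_del H h S q, T1_erase _ instDecidableEqNat S v] at h2
  exact h2

/-- Proof. `ec_del` for `add H u v` and `ec_congr`. -/
theorem ec_add (H : SimpleGraph ℕ) {S : Finset ℕ} {u v : ℕ} (hu : u ∈ S) (hv : v ∈ S)
    (hne : u ≠ v) (h : ¬ H.Adj u v) : ec (add H u v) S = ec H S + 1 := by
  have h1 : (add H u v).Adj u v := Or.inr ⟨hne, Or.inl ⟨rfl, rfl⟩⟩
  rw [← ec_del (add H u v) hu hv h1, ec_congr fun a _ b _ => T1_adj H h a b]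

/-- One more edge as a component.

Proof. `attG_one` twice: `H` on `range (n + 2)` has the polynomial `p`. `cnt_add`, `ec_add` with
`u = n`, `v = n + 1`: `(range (n + 2)).erase (n + 1) = range (n + 1)`, and
`ctr (add H n (n + 1)) n (n + 1)` agrees with `H` on `range (n + 1)` (`n` is isolated in both):
the count is `lam (n + 1) q p = lam (n + 2) q (X * p)`. -/
theorem attG_two {n k : ℕ} {p : ℕ[X]} {H : SimpleGraph ℕ} (h : AttG n k p H) :
    AttG (n + 2) (k + 1) (bb * p) (add H n (n + 1)) := by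
  have h2 : AttG (n + 2) k p H := attG_one (attG_one h)
  have h1 : AttG (n + 1) k p H := attG_one h
  have hmu : n ∈ range (n + 2) := mem_range.2 (by omega)
  have hmv : n + 1 ∈ range (n + 2) := mem_range.2 (by omega)
  have hna : ¬ H.Adj n (n + 1) := fun hw => lt_irrefl n (h.1 n (n + 1) hw)
  have hbb : bb * p = p + X * p := by
    unfold bb
    ring
  refine ⟨?_, ?_, ?_, ?_⟩
  · rintro a b (hab | ⟨_, ⟨rfl, rfl⟩ | ⟨rfl, rfl⟩⟩)
    · exact h2.1 a b hab
    · omega
    · omega
  · rw [ec_add H hmu hmv (by omega) hna, h2.2.1]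
  · intro j hj
    obtain ⟨i, rfl⟩ : ∃ i, j = i + 1 := ⟨j - 1, by omega⟩
    rw [hbb, coeff_add, coeff_X_mul, h.2.2.1 (i + 1) (by omega), h.2.2.1 i (by omega)]
  · intro q
    rw [cnt_add H hmu hmv (by omega) hna, h2.2.2.2, T1_range (n + 1), hbb, lam_add, lam_X,
      ← h1.2.2.2 q]
    congr 1
    refine cnt_congr (fun a ha b hb => ?_) q
    have ha' : a < n + 1 := mem_range.1 ha
    have hb' : b < n + 1 := mem_range.1 hb
    constructor
    · rintro ⟨hab | ⟨_, ⟨rfl, rfl⟩ | ⟨rfl, rfl⟩⟩, -, -⟩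
      · exact hab
      · omega
      · omega
    · intro hab
      have ha2 := h.1 a b hab
      have hb2 := h.1 b a hab.symm
      exact ⟨Or.inl hab, fun h5 => by omega, fun h5 => by omega⟩

end Pool.Agent.Lib.H20WD
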