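import Pool.Agent.Lib.H20WD.T1

/-! # T2: adding vertices to a graph on `0, ..., n - 1`, part 2 -/

set_option autoImplicit false

namespace Pool.Agent.Lib.H20WD

open Finset Polynomial
open scoped Classical

private lemma t2_add_adj {H : SimpleGraph ℕ} {u w a b : ℕ} :
    (add H u w).Adj a b ↔ H.Adj a b ∨ a ≠ b ∧ (a = u ∧ b = w ∨ a = w ∧ b = u) := Iff.rfl

private lemma t2_ctr_adj {H : SimpleGraph ℕ} {u v a b : ℕ} :
    (ctr H u v).Adj a b ↔ H.Adj a b ∧ (a = u → H.Adj v b) ∧ (b = u → H.Adj v a) := Iff.rfl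

private lemma t2_range (m : ℕ) : (range (m + 1)).erase m = range m := by
  ext x
  rw [mem_erase, mem_range, mem_range]
  omega

/-- One more path with three vertices as a component.

Proof. `attG_two` and `attG_one`: `H' = add H n (n + 1)` on `range (n + 3)` has the polynomial
`bb * p`. `cnt_add`, `ec_add` for `H'` with `u = n + 1`, `v = n + 2`
(`(range (n + 3)).erase (n + 2) = range (n + 2)`): in `ctr (add H' (n + 1) (n + 2)) (n + 1) (n + 2)`
the vertex `n + 1` has no neighbour in `range (n + 2)` (the only neighbour of `n + 2` is `n + 1`),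
so it agrees with `H` on `range (n + 2)`: the count is `lam (n + 2) q p = lam (n + 3) q (X * p)`
(`attG_one` twice). Total `bb * p + X * p = (1 + 2 * X) * p`. -/
theorem attG_path {n k : ℕ} {p : ℕ[X]} {H : SimpleGraph ℕ} (h : AttG n k p H) :
    AttG (n + 3) (k + 2) ((1 + 2 * X) * p) (add (add H n (n + 1)) (n + 1) (n + 2)) := by
  have h2 := attG_two h
  have h3 := attG_one h2
  have hH : ∀ a b, H.Adj a b → a < n ∧ b < n := fun a b hab => ⟨h.1 a b hab, h.1 b a hab.symm⟩
  have hn1 : ¬ (add H n (n + 1)).Adj (n + 1) (n + 2) := by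
    intro hc
    have := h2.1 (n + 2) (n + 1) hc.symm
    omega
  have hu : n + 1 ∈ range (n + 3) := mem_range.mpr (by omega)
  have hv : n + 2 ∈ range (n + 3) := mem_range.mpr (by omega)
  have hne : n + 1 ≠ n + 2 := by omega
  refine ⟨?_, ?_, ?_, ?_⟩
  · intro a b hab
    rcases t2_add_adj.mp hab with h4 | h4
    · have := h2.1 a b h4
      omega
    · omega
  · rw [ec_add _ hu hv hne hn1, h3.2.1]
  · intro j hj
    obtain ⟨j, rfl⟩ : ∃ j', j = j' + 1 := ⟨j - 1, by omega⟩
    have e : (1 + 2 * X) * p = p + (X * p + X * p) := by ring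
    rw [e, coeff_add, coeff_add, coeff_X_mul, h.2.2.1 _ (by omega), h.2.2.1 _ (by omega)]
    rfl
  · intro q
    have h5 : (range (n + 3)).erase (n + 2) = range (n + 2) := t2_range (n + 2)
    have h6 : cnt (ctr (add (add H n (n + 1)) (n + 1) (n + 2)) (n + 1) (n + 2)) (range (n + 2)) q =
        cnt H (range (n + 2)) q := by
      refine cnt_congr ?_ q
      intro a ha b hb
      rw [mem_range] at ha hb
      have k1 := hH a b
      have k2 : ¬ H.Adj (n + 2) b := fun hc => by have := hH _ _ hc; omega
      have k3 : ¬ H.Adj (n + 2) a := fun hc => by have := hH _ _ hc; omega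
      rw [t2_ctr_adj, t2_add_adj, t2_add_adj, t2_add_adj, t2_add_adj, t2_add_adj, t2_add_adj]
      by_cases hab : H.Adj a b
      · have k4 := k1 hab
        simp only [hab, k2, k3, true_or, false_or, true_and, iff_true]
        omega
      · simp only [hab, k2, k3, false_or, iff_false]
        omega
    rw [cnt_add _ hu hv hne hn1, h5, h6, h3.2.2.2, (attG_one (attG_one h)).2.2.2,
      ← lam_X (n + 2), ← lam_add]
    congr 1
    rw [bb]
    ring

/-- One more triangle as a component.

Proof. `attG_path`: `H'' = add (add H n (n + 1)) (n + 1) (n + 2)`. `cnt_add`, `ec_add` for `H''`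
with `u = n`, `v = n + 2`: in `ctr (add H'' n (n + 2)) n (n + 2)` the only neighbour of `n` in
`range (n + 2)` is `n + 1` (the neighbours of `n + 2` are `n` and `n + 1`), so it agrees with
`add H n (n + 1)` on `range (n + 2)`: `attG_two` gives
`lam (n + 2) q (bb * p) = lam (n + 3) q (X * (bb * p))`. Total
`(1 + 2 * X) * p + X * (bb * p) = aa * p`. -/
theorem attG_tri {n k : ℕ} {p : ℕ[X]} {H : SimpleGraph ℕ} (h : AttG n k p H) :
    AttG (n + 3) (k + 3) (aa * p)
      (add (add (add H n (n + 1)) (n + 1) (n + 2)) n (n + 2)) := by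
  have h2 := attG_two h
  have h3 := attG_path h
  have hH : ∀ a b, H.Adj a b → a < n ∧ b < n := fun a b hab => ⟨h.1 a b hab, h.1 b a hab.symm⟩
  have hn1 : ¬ (add (add H n (n + 1)) (n + 1) (n + 2)).Adj n (n + 2) := by
    intro hc
    rcases t2_add_adj.mp hc with h4 | h4
    · have := h2.1 (n + 2) n h4.symm
      omega
    · omega
  have hu : n ∈ range (n + 3) := mem_range.mpr (by omega)
  have hv : n + 2 ∈ range (n + 3) := mem_range.mpr (by omega)
  have hne : n ≠ n + 2 := by omega
  refine ⟨?_, ?_, ?_, ?_⟩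
  · intro a b hab
    rcases t2_add_adj.mp hab with h4 | h4
    · exact h3.1 a b h4
    · omega
  · rw [ec_add _ hu hv hne hn1, h3.2.1]
  · intro j hj
    obtain ⟨j, rfl⟩ : ∃ j', j = j' + 1 + 1 := ⟨j - 2, by omega⟩
    have e : aa * p = p + (X * p + X * p + X * p) + X * (X * p) := by
      rw [aa]
      ring
    rw [e]
    simp only [coeff_add, coeff_X_mul]
    rw [h.2.2.1 _ (by omega), h.2.2.1 _ (by omega), h.2.2.1 _ (by omega)]
    rfl
  · intro q
    have h5 : (range (n + 3)).erase (n + 2) = range (n + 2) := t2_range (n + 2)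
    have h6 : cnt (ctr (add (add (add H n (n + 1)) (n + 1) (n + 2)) n (n + 2)) n (n + 2))
        (range (n + 2)) q = cnt (add H n (n + 1)) (range (n + 2)) q := by
      refine cnt_congr ?_ q
      intro a ha b hb
      rw [mem_range] at ha hb
      have k1 := hH a b
      have k2 : ¬ H.Adj (n + 2) b := fun hc => by have := hH _ _ hc; omega
      have k3 : ¬ H.Adj (n + 2) a := fun hc => by have := hH _ _ hc; omega
      simp only [t2_ctr_adj, t2_add_adj]
      by_cases hab : H.Adj a b
      · have k4 := k1 hab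
        simp only [hab, k2, k3, true_or, false_or, true_and, iff_true]
        exact ⟨fun h => absurd h (by omega), fun h => absurd h (by omega)⟩
      · simp only [hab, k2, k3, false_or, true_and]
        omega
    rw [cnt_add _ hu hv hne hn1, h5, h6, h3.2.2.2, h2.2.2.2, ← lam_X (n + 2), ← lam_add]
    congr 1
    rw [bb, aa]
    ring

end Pool.Agent.Lib.H20WD
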