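import Pool.Agent.Lib.H20WD.Defs

/-! # U0: the extremal graphs -/

set_option autoImplicit false

namespace Pool.Agent.Lib.H20WD

open Finset Polynomial
open scoped Classical

variable {V : Type}

/-- The component of `v` is a `K_2` or a `K_3`. -/
def Good (H : SimpleGraph V) (S : Finset V) (v : V) : Prop :=
  (dg H S v = 1 ∨ dg H S v = 2) ∧ (∀ a ∈ S, H.Adj v a → dg H S a = dg H S v) ∧
    ∀ a ∈ S, ∀ b ∈ S, H.Adj v a → H.Adj v b → a ≠ b → H.Adj a b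

/-- One component is a path with three vertices, all others are `K_2` or `K_3`. -/
def TyP (H : SimpleGraph V) (S : Finset V) : Prop :=
  ∃ c ∈ S, ∃ a ∈ S, ∃ b ∈ S, a ≠ b ∧ H.Adj c a ∧ H.Adj c b ∧ dg H S c = 2 ∧ dg H S a = 1 ∧
    dg H S b = 1 ∧ ∀ v ∈ S, v ≠ c → v ≠ a → v ≠ b → Good H S v

/-- One component is a single vertex, all others are `K_2` or `K_3`. -/
def TyK (H : SimpleGraph V) (S : Finset V) : Prop :=
  ∃ w ∈ S, dg H S w = 0 ∧ ∀ v ∈ S, v ≠ w → Good H S v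

/-- One component is a path `a b c d` with four vertices, all others are `K_2` or `K_3`. -/
def TyQ (H : SimpleGraph V) (S : Finset V) : Prop :=
  ∃ a ∈ S, ∃ b ∈ S, ∃ c ∈ S, ∃ d ∈ S, H.Adj a b ∧ H.Adj b c ∧ H.Adj c d ∧ dg H S a = 1 ∧
    dg H S b = 2 ∧ dg H S c = 2 ∧ dg H S d = 1 ∧
    ∀ v ∈ S, v ≠ a → v ≠ b → v ≠ c → v ≠ d → Good H S v

/-- The extremal graphs. -/
def Ext (H : SimpleGraph V) (S : Finset V) : Prop :=
  (2 * ec H S ≤ #S ∧ ∀ v ∈ S, dg H S v ≤ 1) ∨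
    (#S < 2 * ec H S ∧ ((∀ v ∈ S, Good H S v) ∨ TyP H S ∨ TyK H S ∨ TyQ H S))

/-- The strict bound for all subsets with `n` elements. -/
def BdS (V : Type) (n : ℕ) : Prop :=
  ∀ (H : SimpleGraph V) (S : Finset V), #S = n → ec H S < n → ¬ Ext H S → ∀ q, n ≤ q + 1 →
    cnt H S q < lam n q (PP n (ec H S))

/-- `p ≤ p'` coefficientwise, and `<` for one of the coefficients of `X` and `X ^ 2`. -/
def LtX (p p' : ℕ[X]) : Prop := ∃ r, p' = p + r ∧ (0 < r.coeff 1 ∨ 0 < r.coeff 2)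

end Pool.Agent.Lib.H20WD
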