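import Pool.Agent.Lib.H20WD.U6
import Pool.Agent.Lib.H20WD.D1

/-! # U1: residues modulo three -/

set_option autoImplicit false

namespace Pool.Agent.Lib.H20WD

open Finset Polynomial
open scoped Classical

variable {V : Type}

private theorem U1_two {H : SimpleGraph V} {T : Finset V} {y a b p q x : V}
    (h : ∀ x ∈ T, H.Adj y x → x = a ∨ x = b) (hp : p ∈ T) (hq : q ∈ T) (hx : x ∈ T)
    (hpq : p ≠ q) (hyp : H.Adj y p) (hyq : H.Adj y q) (hyx : H.Adj y x) : x = p ∨ x = q := by
  rcases h p hp hyp with rfl | rfl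
  · rcases h q hq hyq with rfl | rfl
    · exact absurd rfl hpq
    · exact h x hx hyx
  · rcases h q hq hyq with rfl | rfl
    · exact (h x hx hyx).symm
    · exact absurd rfl hpq

/-- A set which is a disjoint union of triangles.

Proof. Strong induction on the number of elements: if `T` is not empty take `v ∈ T` with its `a`, `b`.
The three vertices `v, a, b` are pairwise adjacent, so the two neighbours in `T` of each of them are
the other two. The property holds for `T \ {v, a, b}` (a vertex `x` outside is not adjacent to `v`,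
`a`, `b`, so its two neighbours are outside as well). -/
theorem tri_mod (H : SimpleGraph V) (T : Finset V)
    (h : ∀ v ∈ T, ∃ a ∈ T, ∃ b ∈ T, a ≠ b ∧ H.Adj v a ∧ H.Adj v b ∧ H.Adj a b ∧
      ∀ x ∈ T, H.Adj v x → x = a ∨ x = b) : 3 ∣ #T := by
  obtain ⟨n, hn⟩ : ∃ n, #T = n := ⟨_, rfl⟩
  induction n using Nat.strong_induction_on generalizing T with
  | _ n ih =>
    rcases T.eq_empty_or_nonempty with rfl | ⟨v, hv⟩
    · simp
    obtain ⟨a, ha, b, hb, hab, hva, hvb, hadj, hx⟩ := h v hv
    have hsub : ({v, a, b} : Finset V) ⊆ T := by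
      intro x hx'
      rw [mem_insert, mem_insert, mem_singleton] at hx'
      rcases hx' with rfl | rfl | rfl
      · exact hv
      · exact ha
      · exact hb
    have hcard : #({v, a, b} : Finset V) = 3 := by
      rw [card_insert_of_notMem, card_pair hab]
      rw [mem_insert, mem_singleton]
      rintro (rfl | rfl)
      · exact hva.ne rfl
      · exact hvb.ne rfl
    have h1 := card_sdiff_add_card_eq_card hsub
    rw [hcard] at h1
    have hout : ∀ x ∈ T, x ∉ ({v, a, b} : Finset V) → ∀ z ∈ ({v, a, b} : Finset V),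
        ¬ H.Adj x z := by
      intro x hxT hxn z hz hadj'
      rw [mem_insert, mem_insert, mem_singleton] at hz hxn
      push Not at hxn
      rcases hz with rfl | rfl | rfl
      · rcases hx x hxT hadj'.symm with h' | h'
        · exact hxn.2.1 h'
        · exact hxn.2.2 h'
      · obtain ⟨a', _, b', _, _, _, _, _, hx'⟩ := h z ha
        rcases U1_two hx' hv hb hxT hvb.ne hva.symm hadj hadj'.symm with h' | h'
        · exact hxn.1 h'
        · exact hxn.2.2 h'
      · obtain ⟨a', _, b', _, _, _, _, _, hx'⟩ := h z hb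
        rcases U1_two hx' hv ha hxT hva.ne hvb.symm hadj.symm hadj'.symm with h' | h'
        · exact hxn.1 h'
        · exact hxn.2.1 h'
    have h2 : 3 ∣ #(T \ {v, a, b}) := by
      refine ih #(T \ {v, a, b}) (by omega) (T \ {v, a, b}) (fun x hxT => ?_) rfl
      rw [mem_sdiff] at hxT
      obtain ⟨a', ha', b', hb', hab', hxa', hxb', hadj', hx'⟩ := h x hxT.1
      exact ⟨a', mem_sdiff.2 ⟨ha', fun hz => hout x hxT.1 hxT.2 a' hz hxa'⟩, b',
        mem_sdiff.2 ⟨hb', fun hz => hout x hxT.1 hxT.2 b' hz hxb'⟩, hab', hxa', hxb', hadj',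
        fun y hy => hx' y (mem_sdiff.1 hy).1⟩
    rw [← h1]
    exact (Nat.dvd_add_right h2).2 (dvd_refl 3)

/-- Proof. `Z` is the set of exceptional vertices, no vertex outside `Z` is adjacent to a vertex of
`Z`. `sum_dg`: `2 ec = ∑ dg = ∑ (v ∈ Z), dg + (number of good vertices with degree 1) + 2 (number
with degree 2)`, and the number of good vertices with degree `2` is divisible by `3` (`tri_mod`: the
two neighbours of such a vertex have degree `2`, are adjacent, and are outside `Z`). -/
theorem res_good (H : SimpleGraph V) {S Z : Finset V} (hZ : Z ⊆ S)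
    (h : ∀ v ∈ S, v ∉ Z → Good H S v) (h' : ∀ v ∈ S, v ∉ Z → ∀ z ∈ Z, ¬ H.Adj v z) :
    ∃ t, 2 * ec H S + #Z = #S + ∑ v ∈ Z, dg H S v + 3 * t := by
  obtain ⟨t, ht⟩ : 3 ∣ #((S \ Z).filter fun v => dg H S v = 2) := by
    refine tri_mod H _ fun v hv => ?_
    rw [mem_filter, mem_sdiff] at hv
    obtain ⟨⟨hvS, hvZ⟩, hv2⟩ := hv
    obtain ⟨_, hg2, hg3⟩ := h v hvS hvZ
    obtain ⟨a, ha, b, hb, hab, hva, hvb, hx⟩ := dg_two_iff.1 hv2
    refine ⟨a, ?_, b, ?_, hab, hva, hvb, hg3 a ha b hb hva hvb hab, fun x hxT hvx => ?_⟩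
    · rw [mem_filter, mem_sdiff]
      exact ⟨⟨ha, fun hz => h' v hvS hvZ a hz hva⟩, (hg2 a ha hva).trans hv2⟩
    · rw [mem_filter, mem_sdiff]
      exact ⟨⟨hb, fun hz => h' v hvS hvZ b hz hvb⟩, (hg2 b hb hvb).trans hv2⟩
    · exact hx x (mem_sdiff.1 (mem_filter.1 hxT).1).1 hvx
  refine ⟨t, ?_⟩
  have h1 := sum_dg H S
  have h2 := sum_sdiff hZ (f := fun v => dg H S v)
  have h3 : ∑ v ∈ S \ Z, dg H S v = #(S \ Z) + #((S \ Z).filter fun v => dg H S v = 2) := by
    rw [card_filter, card_eq_sum_ones, ← sum_add_distrib]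
    refine sum_congr rfl fun v hv => ?_
    rw [mem_sdiff] at hv
    rcases (h v hv.1 hv.2).1 with h4 | h4
    · rw [h4, if_neg (by omega)]
    · rw [h4, if_pos rfl]
  have h4 := card_sdiff_add_card_eq_card hZ
  omega

/-- Proof. `res_good` with `Z = {a, b, c, d}`: `2 ec + 4 = #S + 6 + 3 t`. The neighbours of
`a, b, c, d` are in `Z` by their degrees. (`a ≠ c`, `b ≠ d` by the degrees, `a ≠ d` since `a` has
only one neighbour.) -/
theorem res_Q (H : SimpleGraph V) {S : Finset V} (h : TyQ H S) :
    ∃ t, 2 * ec H S = #S + 3 * t + 2 := by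
  obtain ⟨a, ha, b, hb, c, hc, d, hd, hab, hbc, hcd, da, db, dc, dd, hg⟩ := h
  have nac : a ≠ c := by
    rintro rfl
    omega
  have nbd : b ≠ d := by
    rintro rfl
    omega
  obtain ⟨a1, _, _, ha1⟩ := dg_one_iff.1 da
  obtain ⟨d1, _, _, hd1⟩ := dg_one_iff.1 dd
  obtain ⟨b1, _, b2, _, _, _, _, hb1⟩ := dg_two_iff.1 db
  obtain ⟨c1, _, c2, _, _, _, _, hc1⟩ := dg_two_iff.1 dc
  have nad : a ≠ d := by
    rintro rfl
    exact hbc.ne ((ha1 b hb hab).trans (ha1 c hc hcd.symm).symm)
  obtain ⟨t, ht⟩ := res_good H (S := S) (Z := {a, b, c, d}) (by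
      intro x hx
      rw [mem_insert, mem_insert, mem_insert, mem_singleton] at hx
      rcases hx with rfl | rfl | rfl | rfl
      · exact ha
      · exact hb
      · exact hc
      · exact hd) (by
      intro v hv hvZ
      rw [mem_insert, mem_insert, mem_insert, mem_singleton] at hvZ
      push Not at hvZ
      exact hg v hv hvZ.1 hvZ.2.1 hvZ.2.2.1 hvZ.2.2.2) (by
      intro v hv hvZ z hz hvz
      rw [mem_insert, mem_insert, mem_insert, mem_singleton] at hvZ hz
      push Not at hvZ
      rcases hz with rfl | rfl | rfl | rfl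
      · exact hvZ.2.1 ((ha1 v hv hvz.symm).trans (ha1 b hb hab).symm)
      · rcases U1_two hb1 ha hc hv nac hab.symm hbc hvz.symm with h' | h'
        · exact hvZ.1 h'
        · exact hvZ.2.2.1 h'
      · rcases U1_two hc1 hb hd hv nbd hbc.symm hcd hvz.symm with h' | h'
        · exact hvZ.2.1 h'
        · exact hvZ.2.2.2 h'
      · exact hvZ.2.2.1 ((hd1 v hv hvz.symm).trans (hd1 c hc hcd.symm).symm))
  refine ⟨t, ?_⟩
  have n1 : a ∉ ({b, c, d} : Finset V) := by
    rw [mem_insert, mem_insert, mem_singleton]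
    rintro (h' | h' | h')
    · exact hab.ne h'
    · exact nac h'
    · exact nad h'
  have n2 : b ∉ ({c, d} : Finset V) := by
    rw [mem_insert, mem_singleton]
    rintro (h' | h')
    · exact hbc.ne h'
    · exact nbd h'
  have n3 : c ∉ ({d} : Finset V) := by
    rw [mem_singleton]
    exact hcd.ne
  rw [sum_insert n1, sum_insert n2, sum_insert n3, sum_singleton, card_insert_of_notMem n1,
    card_insert_of_notMem n2, card_insert_of_notMem n3, card_singleton, da, db, dc, dd] at ht
  omega

end Pool.Agent.Lib.H20WD
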