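import Pool.Agent.Lib.H20WD.U0
import Pool.Agent.Lib.H20WD.Q2

/-! # U2: strict inequalities between polynomials -/

set_option autoImplicit false

namespace Pool.Agent.Lib.H20WD

open Finset Polynomial
open scoped Classical

/-- Proof. `lam_add`, and `lam n q r > 0`: the term `j = 1` or `j = 2` of the sum is positive, since
`q.descFactorial (n - j) > 0` for `n - j ≤ q` (`Nat.descFactorial_pos`). -/
theorem LtX.lam {n q : ℕ} (h : n ≤ q + 1) (hn : 2 ≤ n) {p p' : ℕ[X]} (hp : LtX p p') :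
    lam n q p < lam n q p' := by
  obtain ⟨r, rfl, hr⟩ := hp
  rw [lam_add]
  refine Nat.lt_add_of_pos_right ?_
  unfold Pool.Agent.Lib.H20WD.lam
  rcases hr with hr | hr
  · refine Finset.sum_pos' (fun _ _ => Nat.zero_le _) ⟨1, Finset.mem_range.2 (by omega), ?_⟩
    exact Nat.mul_pos hr (Nat.descFactorial_pos.2 (by omega))
  · refine Finset.sum_pos' (fun _ _ => Nat.zero_le _) ⟨2, Finset.mem_range.2 (by omega), ?_⟩
    exact Nat.mul_pos hr (Nat.descFactorial_pos.2 (by omega))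

/-- Proof. `(g * r).coeff 1 ≥ g.coeff 0 * r.coeff 1`, `(g * r).coeff 2 ≥ g.coeff 0 * r.coeff 2`
(`coeff_mul`, single terms of a sum over the antidiagonal). -/
theorem LtX.mul {g p p' : ℕ[X]} (hg : 0 < g.coeff 0) (hp : LtX p p') : LtX (g * p) (g * p') := by
  obtain ⟨r, rfl, hr⟩ := hp
  refine ⟨g * r, by rw [mul_add], ?_⟩
  rcases hr with hr | hr
  · left
    rw [coeff_mul]
    refine Finset.sum_pos' (fun _ _ => Nat.zero_le _) ⟨(0, 1), by simp, ?_⟩
    exact Nat.mul_pos hg hr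
  · right
    rw [coeff_mul]
    refine Finset.sum_pos' (fun _ _ => Nat.zero_le _) ⟨(0, 2), by simp, ?_⟩
    exact Nat.mul_pos hg hr

private theorem U2_aa : 0 < aa.coeff 0 := by
  unfold aa
  simp

/-- Proof. Induction with steps of three, `gg_add` and `LtX.mul` (`aa.coeff 0 = 1`). The
differences are in `gg_mono2` (`X`, `X`, `X + 2 X ^ 2 + X ^ 3`). -/
theorem gg_mono2_lt (i : ℕ) : LtX (bb * gg i) (gg (i + 2)) := by
  refine N1_ind (P := fun i => LtX (bb * gg i) (gg (i + 2))) ?_ ?_ ?_ ?_ i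
  · refine ⟨X, ?_, Or.inl ?_⟩
    · show gg 2 = bb * gg 0 + X
      rw [gg_two', gg_zero]
      unfold bb
      ring
    · simp
  · refine ⟨X, ?_, Or.inl ?_⟩
    · show gg 3 = bb * gg 1 + X
      rw [N1_three, gg_one]
      unfold bb aa
      ring
    · simp
  · refine ⟨X + 2 * X ^ 2 + X ^ 3, ?_, Or.inl ?_⟩
    · show gg 4 = bb * gg 2 + _
      rw [N1_four, gg_two']
      unfold bb aa
      ring
    · simp [coeff_X_pow]
  · intro i h
    have h1 := LtX.mul U2_aa h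
    rw [show i + 3 + 2 = i + 2 + 3 by omega, gg_add (i + 2), gg_add i]
    rw [show bb * (aa * gg i) = aa * (bb * gg i) by ring]
    exact h1

/-- Proof. `i = 3 t + 2`: induction on `t`, `gg_add` and `LtX.mul`; for `i = 2` the difference is
`X ^ 2 + X ^ 3`. -/
theorem gg_pend_lt {i : ℕ} (hi : i % 3 = 2) : LtX (gg (i + 1) + X * gg i) (gg (i + 2)) := by
  obtain ⟨t, rfl⟩ : ∃ t, i = 3 * t + 2 := ⟨i / 3, by omega⟩
  induction t with
  | zero =>
    refine ⟨X ^ 2 + X ^ 3, ?_, Or.inr ?_⟩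
    · show gg 4 = gg 3 + X * gg 2 + _
      rw [N1_four, N1_three, gg_two']
      unfold aa
      ring
    · simp [coeff_X_pow]
  | succ t ih =>
    have h1 := LtX.mul U2_aa (ih (by omega))
    rw [show 3 * (t + 1) + 2 + 1 = 3 * t + 2 + 1 + 3 by omega,
      show 3 * (t + 1) + 2 + 2 = 3 * t + 2 + 2 + 3 by omega,
      show 3 * (t + 1) + 2 = 3 * t + 2 + 3 by omega, gg_add (3 * t + 2 + 1),
      gg_add (3 * t + 2 + 2), gg_add (3 * t + 2)]
    rw [show aa * gg (3 * t + 2 + 1) + X * (aa * gg (3 * t + 2)) =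
      aa * (gg (3 * t + 2 + 1) + X * gg (3 * t + 2)) by ring]
    exact h1

/-- Proof. Induction with steps of three; differences `X ^ 2 + X ^ 3`, `X ^ 2`,
`X ^ 2 + X ^ 3 + X ^ 4`. -/
theorem gg_two_lt (i : ℕ) : LtX (bb * (gg (i + 1) + 2 * X * gg i)) (gg (i + 4)) := by
  refine N1_ind (P := fun i => LtX (bb * (gg (i + 1) + 2 * X * gg i)) (gg (i + 4))) ?_ ?_ ?_ ?_ i
  · refine ⟨X ^ 2 + X ^ 3, ?_, Or.inr ?_⟩
    · show gg 4 = bb * (gg 1 + 2 * X * gg 0) + _
      rw [N1_four, gg_one, gg_zero]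
      unfold bb aa
      ring
    · simp [coeff_X_pow]
  · refine ⟨X ^ 2, ?_, Or.inr ?_⟩
    · show gg 5 = bb * (gg 2 + 2 * X * gg 1) + _
      rw [N1_five, gg_two', gg_one]
      unfold bb aa
      ring
    · simp [coeff_X_pow]
  · refine ⟨X ^ 2 + X ^ 3 + X ^ 4, ?_, Or.inr ?_⟩
    · show gg 6 = bb * (gg 3 + 2 * X * gg 2) + _
      rw [N1_six, N1_three, gg_two']
      unfold bb aa
      ring
    · simp [coeff_X_pow]
  · intro i h
    have h1 := LtX.mul U2_aa h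
    rw [show i + 3 + 1 = i + 1 + 3 by omega, show i + 3 + 4 = i + 4 + 3 by omega, gg_add (i + 1),
      gg_add (i + 4), gg_add i]
    rw [show bb * (aa * gg (i + 1) + 2 * X * (aa * gg i)) =
      aa * (bb * (gg (i + 1) + 2 * X * gg i)) by ring]
    exact h1

/-- Proof. Induction with steps of three; differences `X ^ 2`, `X ^ 2 + 2 X ^ 3 + 2 X ^ 4 + X ^ 5`,
`X ^ 2 + 2 X ^ 3`. -/
theorem gg_tri_lt (i : ℕ) : LtX (bb * gg (i + 3) + X * (bb ^ 2 * gg i + bb * gg (i + 2)) +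
    X ^ 2 * (bb * gg (i + 1))) (gg (i + 6)) := by
  refine N1_ind (P := fun i => LtX (bb * gg (i + 3) + X * (bb ^ 2 * gg i + bb * gg (i + 2)) +
    X ^ 2 * (bb * gg (i + 1))) (gg (i + 6))) ?_ ?_ ?_ ?_ i
  · refine ⟨X ^ 2, ?_, Or.inr ?_⟩
    · show gg 6 = bb * gg 3 + X * (bb ^ 2 * gg 0 + bb * gg 2) + X ^ 2 * (bb * gg 1) + _
      rw [N1_six, N1_three, gg_two', gg_one, gg_zero]
      unfold bb aa
      ring
    · simp [coeff_X_pow]
  · refine ⟨X ^ 2 + 2 * X ^ 3 + 2 * X ^ 4 + X ^ 5, ?_, Or.inr ?_⟩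
    · show gg (4 + 3) = bb * gg 4 + X * (bb ^ 2 * gg 1 + bb * gg 3) + X ^ 2 * (bb * gg 2) + _
      rw [gg_add, N1_four, N1_three, gg_two', gg_one]
      unfold bb aa
      ring
    · simp [coeff_X_pow]
  · refine ⟨X ^ 2 + 2 * X ^ 3, ?_, Or.inr ?_⟩
    · show gg (5 + 3) = bb * gg 5 + X * (bb ^ 2 * gg 2 + bb * gg 4) + X ^ 2 * (bb * gg 3) + _
      rw [gg_add, N1_five, N1_four, N1_three, gg_two']
      unfold bb aa
      ring
    · simp [coeff_X_pow]
  · intro i h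
    have h1 := LtX.mul U2_aa h
    have e1 : gg (i + 3 + 3) = aa * gg (i + 3) := gg_add _
    have e2 : gg (i + 3 + 2) = aa * gg (i + 2) := by
      rw [show i + 3 + 2 = (i + 2) + 3 by omega, gg_add]
    have e3 : gg (i + 3 + 1) = aa * gg (i + 1) := by
      rw [show i + 3 + 1 = (i + 1) + 3 by omega, gg_add]
    have e4 : gg (i + 3 + 6) = aa * gg (i + 6) := by
      rw [show i + 3 + 6 = (i + 6) + 3 by omega, gg_add]
    have e5 : gg (i + 3) = aa * gg i := gg_add _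
    rw [e1, e2, e3, e4]
    rw [show bb * (aa * gg (i + 3)) + X * (bb ^ 2 * gg (i + 3) + bb * (aa * gg (i + 2))) +
      X ^ 2 * (bb * (aa * gg (i + 1))) = aa * (bb * gg (i + 3) + X * (bb ^ 2 * gg i +
      bb * gg (i + 2)) + X ^ 2 * (bb * gg (i + 1))) by rw [e5]; ring]
    exact h1

end Pool.Agent.Lib.H20WD
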