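import Pool.Agent.Lib.H20WD.U2

/-! # U3: strict inequalities between the polynomials `PP n k` -/

set_option autoImplicit false

namespace Pool.Agent.Lib.H20WD

open Finset Polynomial
open scoped Classical

private theorem U3_bb0 (e : ℕ) : 0 < (bb ^ e).coeff 0 := by
  rw [coeff_zero_eq_eval_zero]
  unfold bb
  simp

private theorem U3_bbX (e : ℕ) : 0 < (bb ^ e * X).coeff 1 := by
  have h : (bb ^ e * X).coeff (0 + 1) = (bb ^ e).coeff 0 := coeff_mul_X _ _
  have h1 := U3_bb0 e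
  rw [zero_add] at h
  omega

private theorem U3_trans {p q r : ℕ[X]} (h : LtX p q) (h' : Le q r) : LtX p r := by
  obtain ⟨s, rfl, hs⟩ := h
  obtain ⟨t, rfl⟩ := h'
  refine ⟨s + t, by rw [add_assoc], ?_⟩
  rw [coeff_add, coeff_add]
  omega

private theorem U3_of_eq {p p' q : ℕ[X]} (h : p = p') (h' : LtX p' q) : LtX p q := h ▸ h'

private theorem U3_step {n k : ℕ} (hk : k + 1 < n) : LtX (PP n k) (PP n (k + 1)) := by
  rcases Nat.lt_or_ge (2 * k + 2) n with h | h
  · rw [PP_small (show 2 * k + 1 ≤ n by omega), PP_small (show 2 * (k + 1) + 1 ≤ n by omega)]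
    refine ⟨bb ^ k * X, ?_, Or.inl (U3_bbX k)⟩
    rw [pow_succ]
    unfold bb
    ring
  · rcases Nat.lt_or_ge n (2 * k + 2) with h' | h'
    · rw [PP_big (show n ≤ 2 * k + 1 by omega) (by omega),
        PP_big (show n ≤ 2 * (k + 1) + 1 by omega) hk]
      have e1 : n - 1 - k = (n - 1 - (k + 1)) + 1 := by omega
      have e2 : 2 * (k + 1) + 1 - n = (2 * k + 1 - n) + 2 := by omega
      rw [e1, e2, pow_succ, mul_assoc]
      exact LtX.mul (U3_bb0 _) (gg_mono2_lt _)
    · have hn : n = 2 * k + 2 := by omega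
      rw [PP_small (show 2 * k + 1 ≤ n by omega),
        PP_big (show n ≤ 2 * (k + 1) + 1 by omega) hk]
      have e1 : n - 1 - (k + 1) = k := by omega
      have e2 : 2 * (k + 1) + 1 - n = 1 := by omega
      rw [e1, e2, gg_one]
      refine ⟨bb ^ k * X, ?_, Or.inl (U3_bbX k)⟩
      ring

/-- Proof. As `PP_mono`: for one step `k' = k + 1` the difference is `bb ^ k * X`, or
`bb ^ (n - 2 - k)` times the difference in `gg_mono2_lt`; then `PP_mono` from `k + 1` to `k'`. -/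
theorem PP_mono_lt {n k k' : ℕ} (h : k < k') (hk : k' < n) : LtX (PP n k) (PP n k') :=
  U3_trans (U3_step (by omega)) (PP_mono (show k + 1 ≤ k' by omega) hk)

/-- Proof. As `PP_pend`, with `gg_pend_lt` and `LtX.mul` (`(bb ^ e).coeff 0 = 1`). -/
theorem PP_pend_lt {n k : ℕ} (h : n + 1 ≤ 2 * k) (hk : k < n) (h3 : 3 ∣ 2 * k - n) :
    LtX (PP (n - 1) (k - 1) + X * PP (n - 2) (k - 2)) (PP n k) := by
  rw [PP_big (show n - 1 ≤ 2 * (k - 1) + 1 by omega) (by omega),
    PP_big (show n - 2 ≤ 2 * (k - 2) + 1 by omega) (by omega),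
    PP_big (show n ≤ 2 * k + 1 by omega) hk]
  rw [show n - 1 - 1 - (k - 1) = n - 1 - k by omega, show n - 2 - 1 - (k - 2) = n - 1 - k by omega,
    show 2 * (k - 1) + 1 - (n - 1) = (2 * k - 1 - n) + 1 by omega,
    show 2 * (k - 2) + 1 - (n - 2) = 2 * k - 1 - n by omega,
    show 2 * k + 1 - n = (2 * k - 1 - n) + 2 by omega]
  have e : bb ^ (n - 1 - k) * gg (2 * k - 1 - n + 1) + X * (bb ^ (n - 1 - k) * gg (2 * k - 1 - n))
      = bb ^ (n - 1 - k) * (gg (2 * k - 1 - n + 1) + X * gg (2 * k - 1 - n)) := by ring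
  exact U3_of_eq e (LtX.mul (U3_bb0 _) (gg_pend_lt (by omega)))

/-- Proof. As `PP_two`, with `gg_two_lt` and `LtX.mul`. -/
theorem PP_two_lt {n k : ℕ} (h : n + 3 ≤ 2 * k) (hk : k < n) :
    LtX (PP (n - 1) (k - 2) + 2 * X * PP (n - 2) (k - 3)) (PP n k) := by
  obtain ⟨i, hi⟩ := Nat.exists_eq_add_of_le h
  rw [PP_big (n := n) (k := k) (by omega) hk,
    PP_big (n := n - 1) (k := k - 2) (by omega) (by omega),
    PP_big (n := n - 2) (k := k - 3) (by omega) (by omega),
    show 2 * k + 1 - n = i + 4 by omega,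
    show 2 * (k - 2) + 1 - (n - 1) = i + 1 by omega,
    show 2 * (k - 3) + 1 - (n - 2) = i by omega,
    show n - 2 - 1 - (k - 3) = n - 1 - k + 1 by omega,
    show n - 1 - 1 - (k - 2) = n - 1 - k + 1 by omega]
  refine U3_of_eq ?_ (LtX.mul (U3_bb0 (n - 1 - k)) (gg_two_lt i))
  ring

/-- Proof. As `PP_three`, with `gg_tri_lt` and `LtX.mul`. -/
theorem PP_three_lt {n k : ℕ} (h : n + 5 ≤ 2 * k) (hk : k < n) :
    LtX (PP (n - 1) (k - 2) + X * (PP (n - 2) (k - 4) + PP (n - 2) (k - 3)) +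
      X ^ 2 * PP (n - 3) (k - 4)) (PP n k) := by
  obtain ⟨i, hi⟩ := Nat.exists_eq_add_of_le h
  rw [PP_big (n := n) (k := k) (by omega) hk,
    PP_big (n := n - 1) (k := k - 2) (by omega) (by omega),
    PP_big (n := n - 2) (k := k - 4) (by omega) (by omega),
    PP_big (n := n - 2) (k := k - 3) (by omega) (by omega),
    PP_big (n := n - 3) (k := k - 4) (by omega) (by omega),
    show 2 * k + 1 - n = i + 6 by omega,
    show 2 * (k - 2) + 1 - (n - 1) = i + 3 by omega,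
    show 2 * (k - 4) + 1 - (n - 2) = i by omega,
    show 2 * (k - 3) + 1 - (n - 2) = i + 2 by omega,
    show 2 * (k - 4) + 1 - (n - 3) = i + 1 by omega,
    show n - 1 - 1 - (k - 2) = n - 1 - k + 1 by omega,
    show n - 2 - 1 - (k - 4) = n - 1 - k + 2 by omega,
    show n - 2 - 1 - (k - 3) = n - 1 - k + 1 by omega,
    show n - 3 - 1 - (k - 4) = n - 1 - k + 1 by omega]
  refine U3_of_eq ?_ (LtX.mul (U3_bb0 (n - 1 - k)) (gg_tri_lt i))
  ring

end Pool.Agent.Lib.H20WD
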