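import Pool.Agent.Lib.H20WD.U2
import Pool.Agent.Lib.H20WD.Q3

/-! # U4: the strict inequality for a vertex of degree at least three -/

set_option autoImplicit false

namespace Pool.Agent.Lib.H20WD

open Finset Polynomial
open scoped Classical

private lemma U4_coeff (c : ℕ) (s : ℕ[X]) : ((c : ℕ[X]) * X ^ 2 + X ^ 3 * s).coeff 2 = c := by
  rw [coeff_add, coeff_natCast_mul, coeff_X_pow, if_pos rfl, mul_one, coeff_X_pow_mul',
    if_neg (by norm_num), add_zero, Nat.cast_id]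

private lemma U4_bb (m : ℕ) : 0 < (bb ^ m).coeff 0 := by
  rw [coeff_zero_eq_eval_zero, eval_pow]
  unfold bb
  simp

private lemma U4_lam {n q : ℕ} (h : n ≤ q + 1) (hn : 2 ≤ n) {g : ℕ[X]} (hg : 0 < g.coeff 0) :
    0 < lam n q (X ^ 2 * g) := by
  unfold lam
  refine Finset.sum_pos' (fun _ _ => Nat.zero_le _) ⟨2, mem_range.2 (by omega), ?_⟩
  have h1 : (X ^ 2 * g).coeff 2 = g.coeff 0 := by
    have := coeff_X_pow_mul g 2 0
    simpa using this
  rw [h1]
  exact Nat.mul_pos hg (Nat.descFactorial_pos.2 (by omega))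

private lemma U4_aux {n q : ℕ} (h : n ≤ q + 1) (hn : 2 ≤ n) : ∀ (i : ℕ) (g : ℕ[X]), 0 < g.coeff 0 →
    lam n q (g * (bb ^ 2 * gg (i + 4) +
      X * (bb ^ 2 * gg (i + 4) + bb ^ 3 * gg (i + 2) + bb ^ 4 * gg i))) <
      lam n q (g * gg (i + 9))
  | 0, g, hg => by
    have e1 : gg (0 + 4) = aa * (1 + X) := by
      rw [show 0 + 4 = 1 + 3 by norm_num, gg_add, gg_one]
    have e2 : gg (0 + 2) = 1 + 2 * X := gg_two'
    have e3 : gg (0 + 9) = aa ^ 3 := by
      rw [show 0 + 9 = 0 + 3 + 3 + 3 by norm_num, gg_add, gg_add, gg_add, gg_zero]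
      ring
    rw [e1, e2, e3, gg_zero]
    set L : ℕ[X] := bb ^ 2 * (aa * (1 + X)) +
      X * (bb ^ 2 * (aa * (1 + X)) + bb ^ 3 * (1 + 2 * X) + bb ^ 4 * 1) with hL
    have e4 : g * aa ^ 3 + X ^ (4 + 1) * g = g * L + (((2 : ℕ) : ℕ[X]) * (X ^ 2 * g) +
        ((4 : ℕ) : ℕ[X]) * (X ^ 3 * g)) := by
      rw [hL]
      unfold bb aa
      push_cast
      ring
    have e5 := congrArg (lam n q) e4
    rw [lam_add, lam_add, lam_add, lam_natMul, lam_natMul] at e5
    have r4 := lam_ratio (j := 4) h g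
    have r3 := lam_ratio (j := 3) h g
    have r3' : 3 * lam n q (X ^ 4 * g) ≤ lam n q (X ^ 3 * g) := r3
    have r2 := U4_lam h hn hg
    omega
  | 1, g, hg => by
    have e1 : gg (1 + 4) = aa * (1 + 2 * X) := by
      rw [show 1 + 4 = 2 + 3 by norm_num, gg_add, gg_two']
    have e2 : gg (1 + 2) = aa := by
      rw [show 1 + 2 = 0 + 3 by norm_num, gg_add, gg_zero, mul_one]
    have e3 : gg (1 + 9) = aa ^ 3 * (1 + X) := by
      rw [show 1 + 9 = 1 + 3 + 3 + 3 by norm_num, gg_add, gg_add, gg_add, gg_one]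
      ring
    rw [e1, e2, e3, gg_one]
    refine LtX.lam h hn (LtX.mul hg ⟨((3 : ℕ) : ℕ[X]) * X ^ 2 +
      X ^ 3 * (13 + 20 * X + 15 * X ^ 2 + 6 * X ^ 3 + X ^ 4), ?_, Or.inr ?_⟩)
    · unfold bb aa
      push_cast
      ring
    · rw [U4_coeff]
      norm_num
  | 2, g, hg => by
    have e1 : gg (2 + 4) = aa ^ 2 := by
      rw [show 2 + 4 = 0 + 3 + 3 by norm_num, gg_add, gg_add, gg_zero]
      ring
    have e2 : gg (2 + 2) = aa * (1 + X) := by
      rw [show 2 + 2 = 1 + 3 by norm_num, gg_add, gg_one]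
    have e3 : gg (2 + 9) = aa ^ 3 * (1 + 2 * X) := by
      rw [show 2 + 9 = 2 + 3 + 3 + 3 by norm_num, gg_add, gg_add, gg_add, gg_two']
      ring
    rw [e1, e2, e3, gg_two']
    refine LtX.lam h hn (LtX.mul hg ⟨((3 : ℕ) : ℕ[X]) * X ^ 2 +
      X ^ 3 * (14 + 20 * X + 9 * X ^ 2 + X ^ 3), ?_, Or.inr ?_⟩)
    · unfold bb aa
      push_cast
      ring
    · rw [U4_coeff]
      norm_num
  | i + 3, g, hg => by
    have hga : 0 < (g * aa).coeff 0 := by
      rw [mul_coeff_zero]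
      refine Nat.mul_pos hg ?_
      unfold aa
      simp
    have ih := U4_aux h hn i (g * aa) hga
    have e1 : gg (i + 3 + 4) = aa * gg (i + 4) := gg_add (i + 4)
    have e2 : gg (i + 3 + 2) = aa * gg (i + 2) := gg_add (i + 2)
    have e3 : gg (i + 3 + 9) = aa * gg (i + 9) := gg_add (i + 9)
    rw [e1, e2, e3, gg_add i]
    have e4 : g * (bb ^ 2 * (aa * gg (i + 4)) +
        X * (bb ^ 2 * (aa * gg (i + 4)) + bb ^ 3 * (aa * gg (i + 2)) + bb ^ 4 * (aa * gg i))) =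
        g * aa * (bb ^ 2 * gg (i + 4) +
          X * (bb ^ 2 * gg (i + 4) + bb ^ 3 * gg (i + 2) + bb ^ 4 * gg i)) := by ring
    have e5 : g * (aa * gg (i + 9)) = g * aa * gg (i + 9) := by ring
    rw [e4, e5]
    exact ih

/-- Proof. As `gg_phi` (see the docstring there): for `i = 1`, `i = 2` the differences have
coefficient `3` at `X ^ 2` (`LtX.mul`, `LtX.lam`). For `i = 0`:
`lam (g aa^3) + lam (X^5 g) = lam (g L) + 2 lam (X^2 g) + 4 lam (X^3 g)`,
`lam (X^5 g) ≤ lam (X^3 g)` and `lam (X^2 g) > 0` (the term with `j = 2`). -/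
theorem gg_phi_lt {n q : ℕ} (h : n ≤ q + 1) (hn : 2 ≤ n) {g : ℕ[X]} (hg : 0 < g.coeff 0) (i : ℕ) :
    lam n q (g * (bb ^ 2 * gg (i + 4) +
      X * (bb ^ 2 * gg (i + 4) + bb ^ 3 * gg (i + 2) + bb ^ 4 * gg i))) <
      lam n q (g * gg (i + 9)) :=
  U4_aux h hn i g hg

private lemma U4_three {n k q : ℕ} (h : n ≤ q + 1) (hx : n + 8 ≤ 2 * k) (hk : k < n) :
    lam n q (Phi n k 3) < lam n q (PP n k) := by
  obtain ⟨i, hi⟩ := Nat.exists_eq_add_of_le hx
  have h1 := gg_phi_lt h (by omega) (U4_bb (n - 1 - k)) i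
  unfold Phi
  rw [sum_range_succ, sum_range_succ, sum_range_succ, sum_range_zero,
    PP_big (n := n) (k := k) (by omega) hk,
    PP_big (n := n - 1) (k := k - 3) (by omega) (by omega),
    PP_big (n := n - 1) (k := k - 3 - 0) (by omega) (by omega),
    PP_big (n := n - 1) (k := k - 3 - 1) (by omega) (by omega),
    PP_big (n := n - 1) (k := k - 3 - 2) (by omega) (by omega),
    show 2 * k + 1 - n = i + 9 by omega,
    show 2 * (k - 3) + 1 - (n - 1) = i + 4 by omega,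
    show 2 * (k - 3 - 0) + 1 - (n - 1) = i + 4 by omega,
    show 2 * (k - 3 - 1) + 1 - (n - 1) = i + 2 by omega,
    show 2 * (k - 3 - 2) + 1 - (n - 1) = i by omega,
    show n - 1 - 1 - (k - 3) = n - 1 - k + 2 by omega,
    show n - 1 - 1 - (k - 3 - 0) = n - 1 - k + 2 by omega,
    show n - 1 - 1 - (k - 3 - 1) = n - 1 - k + 3 by omega,
    show n - 1 - 1 - (k - 3 - 2) = n - 1 - k + 4 by omega]
  refine lt_of_le_of_lt (le_of_eq ?_) h1
  congr 1
  ring

/-- Proof. `lam (Phi n k d) ≤ lam (Phi n k 3)` by induction on `d` (`phi_succ`), and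
`lam (Phi n k 3) < lam (PP n k)` as `phi_three`, with `gg_phi_lt`. -/
theorem phi_lt {n k q d : ℕ} (h : n ≤ q + 1) (hd : 3 ≤ d) (hx : n + d ^ 2 ≤ 2 * k + 1)
    (hk : k < n) : lam n q (Phi n k d) < lam n q (PP n k) := by
  induction d, hd using Nat.le_induction with
  | base => exact U4_three h (by omega) hk
  | succ d hd ih =>
    refine (phi_succ h hd hx hk).trans_lt (ih ?_)
    have h1 : d ^ 2 ≤ (d + 1) ^ 2 := Nat.pow_le_pow_left (Nat.le_succ d) 2
    omega

end Pool.Agent.Lib.H20WD
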