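import Pool.Agent.Lib.H20WD.C1
import Pool.Agent.Lib.H20WD.C2

/-! # U5: moving an edge, strict form -/

set_option autoImplicit false

namespace Pool.Agent.Lib.H20WD

open Finset
open scoped Classical

variable {V : Type}

private theorem U5_inj (H : SimpleGraph V) {S : Finset V} {u v w y : V} (hu : u ∈ S) (hv : v ∈ S)
    (hw : w ∈ S) (hy : y ∈ S) (huv : H.Adj u v) (h : ∀ x ∈ S, ¬ H.Adj w x) (q : ℕ)
    (hyu : y ≠ u) (hyv : y ≠ v) (hyw : y ≠ w) (hvw' : v ≠ w) :
    ∃ f : {c : (↥(S.erase v)) → Fin q // ∀ a b : (↥(S.erase v)), a ≠ b →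
      c a = c b → (ctr H u v).Adj a b} → {c : (↥(S.erase w)) → Fin q // ∀ a b : (↥(S.erase w)), a ≠ b →
      c a = c b → (ctr (add (del H u v) u w) u w).Adj a b},
      Function.Injective f ∧ ∀ c, (f c).1 ⟨v, mem_erase.2 ⟨hvw', hv⟩⟩ = (f c).1 ⟨y, mem_erase.2 ⟨hyw, hy⟩⟩ →
        (ctr H u v).Adj u y := by
  have hne : u ≠ v := huv.ne
  have hwu : w ≠ u := fun h' => h v hv (h' ▸ huv)
  have hwv : w ≠ v := fun h' => h u hu (h' ▸ huv.symm)
  have hue : u ∈ S.erase v := mem_erase.2 ⟨hne, hu⟩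
  have hwe : w ∈ S.erase v := mem_erase.2 ⟨hwv, hw⟩
  have hve' : v ∈ S.erase w := mem_erase.2 ⟨hwv.symm, hv⟩
  have hue' : u ∈ S.erase w := mem_erase.2 ⟨hwu.symm, hu⟩
  have key : ∀ c : {c : (↥(S.erase v)) → Fin q // ∀ a b : (↥(S.erase v)), a ≠ b →
      c a = c b → (ctr H u v).Adj a b},
      ∀ x : (↥(S.erase v)), (x : V) ≠ w → c.1 x ≠ c.1 ⟨w, hwe⟩ := by
    intro c x hx hc
    have h1 := c.2 ⟨w, hwe⟩ x (fun h' => hx (congrArg Subtype.val h').symm) hc.symm
    exact h x (mem_of_mem_erase x.2) h1.1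
  refine ⟨fun c => ⟨fun x => if hxv : x.1 = v then c.1 ⟨u, hue⟩
    else if x.1 = u then c.1 ⟨w, hwe⟩ else c.1 ⟨x.1, mem_erase.2 ⟨hxv, mem_of_mem_erase x.2⟩⟩, ?_⟩, ?_, ?_⟩
  · intro x y hxy hc
    have hxy' : (x : V) ≠ y := fun h' => hxy (Subtype.ext h')
    have hxw : (x : V) ≠ w := ne_of_mem_erase x.2
    have hyw : (y : V) ≠ w := ne_of_mem_erase y.2
    have hxS : (x : V) ∈ S := mem_of_mem_erase x.2
    have hyS : (y : V) ∈ S := mem_of_mem_erase y.2
    dsimp only at hc
    have hxu : (x : V) ≠ u := by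
      intro hxu
      have hxv : (x : V) ≠ v := fun h' => hne (hxu.symm.trans h')
      have hyu : (y : V) ≠ u := fun h' => hxy' (hxu.trans h'.symm)
      rw [dif_neg hxv, if_pos hxu] at hc
      by_cases hyv : (y : V) = v
      · rw [dif_pos hyv] at hc
        exact key c ⟨u, hue⟩ hwu.symm hc.symm
      · rw [dif_neg hyv, if_neg hyu] at hc
        exact key c ⟨y.1, mem_erase.2 ⟨hyv, hyS⟩⟩ hyw hc.symm
    have hyu : (y : V) ≠ u := by
      intro hyu
      have hyv : (y : V) ≠ v := fun h' => hne (hyu.symm.trans h')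
      rw [dif_neg hyv, if_pos hyu] at hc
      by_cases hxv : (x : V) = v
      · rw [dif_pos hxv] at hc
        exact key c ⟨u, hue⟩ hwu.symm hc
      · rw [dif_neg hxv, if_neg hxu] at hc
        exact key c ⟨x.1, mem_erase.2 ⟨hxv, hxS⟩⟩ hxw hc
    refine ⟨Or.inl ⟨?_, fun h' => hxu h'.1, fun h' => hyu h'.2⟩, fun h' => absurd h' hxu,
      fun h' => absurd h' hyu⟩
    simp only [if_neg hxu, if_neg hyu] at hc
    by_cases hxv : (x : V) = v
    · have hyv : (y : V) ≠ v := fun h' => hxy' (hxv.trans h'.symm)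
      rw [dif_pos hxv, dif_neg hyv] at hc
      rw [hxv]
      exact (c.2 ⟨u, hue⟩ ⟨y.1, mem_erase.2 ⟨hyv, hyS⟩⟩
        (fun h' => hyu (congrArg Subtype.val h').symm) hc).2.1 rfl
    · by_cases hyv : (y : V) = v
      · rw [dif_neg hxv, dif_pos hyv] at hc
        rw [hyv]
        exact ((c.2 ⟨x.1, mem_erase.2 ⟨hxv, hxS⟩⟩ ⟨u, hue⟩
          (fun h' => hxu (congrArg Subtype.val h')) hc).2.2 rfl).symm
      · rw [dif_neg hxv, dif_neg hyv] at hc
        exact (c.2 ⟨x.1, mem_erase.2 ⟨hxv, hxS⟩⟩ ⟨y.1, mem_erase.2 ⟨hyv, hyS⟩⟩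
          (fun h' => hxy' (Subtype.mk.inj h')) hc).1
  · intro c c' hcc
    apply Subtype.ext
    funext x
    have hcc' : ∀ y : (↥(S.erase w)), _ = _ := fun y => congrFun (congrArg Subtype.val hcc) y
    dsimp only at hcc'
    have hxv : (x : V) ≠ v := ne_of_mem_erase x.2
    have hxS : (x : V) ∈ S := mem_of_mem_erase x.2
    by_cases hxu : (x : V) = u
    · have h1 := hcc' ⟨v, hve'⟩
      rw [dif_pos rfl, dif_pos rfl] at h1
      have e : x = ⟨u, hue⟩ := Subtype.ext hxu
      rw [e]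
      exact h1
    by_cases hxw : (x : V) = w
    · have h1 := hcc' ⟨u, hue'⟩
      rw [dif_neg hne, dif_neg hne, if_pos rfl, if_pos rfl] at h1
      have e : x = ⟨w, hwe⟩ := Subtype.ext hxw
      rw [e]
      exact h1
    · have h1 := hcc' ⟨x.1, mem_erase.2 ⟨hxw, hxS⟩⟩
      rw [dif_neg hxv, dif_neg hxv, if_neg hxu, if_neg hxu] at h1
      exact h1
  · intro c hc
    dsimp only at hc
    rw [dif_pos rfl, dif_neg hyv, if_neg hyu] at hc
    exact c.2 ⟨u, hue⟩ ⟨y, mem_erase.2 ⟨hyv, hy⟩⟩ (fun h' => hyu (Subtype.mk.inj h').symm) hc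

/-- Strict form of `cnt_swap`: `v` has a neighbour `y` which is not adjacent to `u`.

Proof. As `cnt_swap` (see the docstring there; file C3), but the injection from the colourings of
`S.erase v` for `ctr H u v` to the colourings of `S.erase w` for `ctr (add (del H u v) u w) u w` is
not surjective: take a colouring `c'` of `S.erase w` with `c' v = c' y` and no other two equal
colours (it needs `#S - 2 ≤ q` colours; `v` and `y` are adjacent in the second graph). It is not
in the image: otherwise `c u = c y`, so `y` would be adjacent to `u` (`y ≠ u`).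
`Nat.card_lt_card_of_injective_of_not_surjective` (or `Finite.card_lt_of_injective_of_notMem_range`). -/
theorem cnt_swap_lt (H : SimpleGraph V) {S : Finset V} {u v w y : V} (hu : u ∈ S) (hv : v ∈ S)
    (hw : w ∈ S) (hy : y ∈ S) (huv : H.Adj u v) (h : ∀ x ∈ S, ¬ H.Adj w x) (hvy : H.Adj v y)
    (hyu : y ≠ u) (huy : ¬ H.Adj u y) {q : ℕ} (hq : #S ≤ q + 1) :
    cnt H S q < cnt (add (del H u v) u w) S q := by
  have hne : u ≠ v := huv.ne
  have hwu : w ≠ u := fun h' => h v hv (h' ▸ huv)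
  have hwv : w ≠ v := fun h' => h u hu (h' ▸ huv.symm)
  have hyv : y ≠ v := hvy.ne'
  have hyw : y ≠ w := fun h' => h v hv (h' ▸ hvy.symm)
  have h1 := cnt_edge H hu hv huv q
  have h2 := cnt_edge (add (del H u v) u w) hu hw (Or.inr ⟨hwu.symm, Or.inl ⟨rfl, rfl⟩⟩) q
  have h3 : cnt (del H u v) S q = cnt (del (add (del H u v) u w) u w) S q := by
    refine cnt_congr (fun a ha b hb => ⟨fun hab => ?_, fun hab => ?_⟩) q
    · refine ⟨Or.inl hab, ?_, ?_⟩
      · rintro ⟨-, rfl⟩
        exact h a ha hab.1.symm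
      · rintro ⟨rfl, -⟩
        exact h b hb hab.1
    · rcases hab.1 with h4 | ⟨-, h4 | h4⟩
      · exact h4
      · exact absurd h4 hab.2.1
      · exact absurd h4 hab.2.2
  have hve' : v ∈ S.erase w := mem_erase.2 ⟨hwv.symm, hv⟩
  have hye' : y ∈ S.erase w := mem_erase.2 ⟨hyw, hy⟩
  have h4 : cnt (ctr H u v) (S.erase v) q < cnt (ctr (add (del H u v) u w) u w) (S.erase w) q := by
    obtain ⟨f, hf, hf2⟩ := U5_inj H hu hv hw hy huv h q hyu hyv hyw hwv.symm
    unfold cnt
    rw [Nat.card_eq_fintype_card, Nat.card_eq_fintype_card]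
    have hcard : Fintype.card (↥((S.erase w).erase y)) ≤ Fintype.card (Fin q) := by
      rw [Fintype.card_coe, Fintype.card_fin, card_erase_of_mem hye', card_erase_of_mem hw]
      omega
    obtain ⟨g⟩ := Function.Embedding.nonempty_of_card_le hcard
    have hvey : v ∈ (S.erase w).erase y := mem_erase.2 ⟨hyv.symm, hve'⟩
    refine Fintype.card_lt_of_injective_of_notMem f hf
      (b := ⟨fun x => if hxy : x.1 = y then g ⟨v, hvey⟩ else g ⟨x.1, mem_erase.2 ⟨hxy, x.2⟩⟩, ?_⟩) ?_
    · have hadj : (ctr (add (del H u v) u w) u w).Adj v y := by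
        refine ⟨Or.inl ⟨hvy, fun h' => hne h'.1.symm, fun h' => hyu h'.2⟩, fun h' => absurd h'.symm hne,
          fun h' => absurd h' hyu⟩
      intro a b hab hc
      have hab' : (a : V) ≠ b := fun h' => hab (Subtype.ext h')
      dsimp only at hc
      by_cases ha : (a : V) = y
      · have hb : (b : V) ≠ y := fun h' => hab' (ha.trans h'.symm)
        rw [dif_pos ha, dif_neg hb] at hc
        have h5 := Subtype.mk.inj (g.injective hc)
        rw [ha, ← h5]
        exact hadj.symm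
      · by_cases hb : (b : V) = y
        · rw [dif_neg ha, dif_pos hb] at hc
          have h5 := Subtype.mk.inj (g.injective hc)
          rw [hb, h5]
          exact hadj
        · rw [dif_neg ha, dif_neg hb] at hc
          exact absurd (Subtype.mk.inj (g.injective hc)) hab'
    · rintro ⟨c, hc⟩
      have h5 := hf2 c (by
        rw [hc]
        dsimp only
        rw [dif_neg hyv.symm, dif_pos rfl])
      exact huy h5.1
  omega

end Pool.Agent.Lib.H20WD
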