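import Pool.Agent.Lib.H20WD.U0

/-! # V0: graphs with a given polynomial -/

set_option autoImplicit false

namespace Pool.Agent.Lib.H20WD

open Finset Polynomial
open scoped Classical

variable {V : Type}

/-- The numbers of colourings of `S` are given by the polynomial `p`. -/
def Cp (H : SimpleGraph V) (S : Finset V) (p : ℕ[X]) : Prop :=
  (∀ j, #S < j → p.coeff j = 0) ∧ ∀ q, cnt H S q = lam #S q p

end Pool.Agent.Lib.H20WD
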