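import Pool.Agent.Lib.H20WD.V0
import Pool.Agent.Lib.H20WD.C1
import Pool.Agent.Lib.H20WD.C2

/-! # V1: rules for the polynomial of a graph -/

set_option autoImplicit false

namespace Pool.Agent.Lib.H20WD

open Finset Polynomial
open scoped Classical

variable {V : Type}

/-- Proof. `cnt_congr`. -/
theorem Cp.congr {H H' : SimpleGraph V} {S : Finset V} {p : ℕ[X]}
    (h : ∀ a ∈ S, ∀ b ∈ S, (H.Adj a b ↔ H'.Adj a b)) (hp : Cp H S p) : Cp H' S p := by
  exact ⟨hp.1, fun q => by rw [← cnt_congr h q]; exact hp.2 q⟩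

/-- Proof. `cnt_empty`, `lam 0 q 1 = 1`. -/
theorem Cp.empty (H : SimpleGraph V) : Cp H ∅ 1 := by
  refine ⟨fun j hj => ?_, fun q => ?_⟩
  · rw [coeff_one, if_neg]
    rw [card_empty] at hj
    omega
  · rw [cnt_empty]
    simp [lam]

/-- Proof. `#S = n + 1` with `n = #(S.erase v)`. `q = 0`: `cnt_zero`, and
`lam (n + 1) 0 p = p.coeff (n + 1) = 0`. `q + 1`: `cnt_iso`, `lam_succ`. -/
theorem Cp.iso {H : SimpleGraph V} {S : Finset V} {p : ℕ[X]} {v : V} (hv : v ∈ S)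
    (h : ∀ w ∈ S, ¬ H.Adj v w) (hp : Cp H (S.erase v) p) : Cp H S p := by
  have hn : #(S.erase v) + 1 = #S := card_erase_add_one hv
  refine ⟨fun j hj => hp.1 j (by omega), fun q => ?_⟩
  rw [← hn]
  have h0 : p.coeff (#(S.erase v) + 1) = 0 := hp.1 _ (by omega)
  rcases q with _ | q
  · rw [cnt_zero H ⟨v, hv⟩]
    unfold lam
    symm
    refine sum_eq_zero fun j hj => ?_
    have hj' := mem_range.1 hj
    by_cases hj2 : j = #(S.erase v) + 1
    · rw [hj2, h0, zero_mul]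
    · rw [Nat.descFactorial_eq_zero_iff_lt.2 (by omega), mul_zero]
  · rw [cnt_iso H hv h q, lam_succ, h0, add_zero, hp.2 q]

private theorem Cp_edge {H : SimpleGraph V} {S : Finset V} {p p' : ℕ[X]} {u v : V} (hu : u ∈ S)
    (hv : v ∈ S) (huv : H.Adj u v) (h1 : Cp (del H u v) S p) (h2 : Cp (ctr H u v) (S.erase v) p') :
    Cp H S (p + X * p') := by
  have hn : #(S.erase v) + 1 = #S := card_erase_add_one hv
  refine ⟨fun j hj => ?_, fun q => ?_⟩
  · obtain ⟨i, rfl⟩ : ∃ i, j = i + 1 := ⟨j - 1, by omega⟩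
    rw [coeff_add, coeff_X_mul, h1.1 _ hj, h2.1 i (by omega)]
  · rw [cnt_edge H hu hv huv q, h1.2 q, h2.2 q, lam_add]
    congr 1
    rw [← hn, lam_X]

private theorem Cp_del_iff {H : SimpleGraph V} {u v a b : V} (ha : a ≠ v) (hb : b ≠ v) :
    H.Adj a b ↔ (del H u v).Adj a b :=
  ⟨fun h => ⟨h, fun h' => hb h'.2, fun h' => ha h'.1⟩, fun h => h.1⟩

private theorem Cp_ctr_iff {H : SimpleGraph V} {u v a b : V} (ha : a ≠ u) (hb : b ≠ u) :
    H.Adj a b ↔ (ctr H u v).Adj a b :=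
  ⟨fun h => ⟨h, fun h' => absurd h' ha, fun h' => absurd h' hb⟩, fun h => h.1⟩

/-- Proof. `cnt_edge` for the edge `uv`. `del H u v`: `v` is isolated (`Cp.iso`), it agrees with `H`
on `S.erase v` (`Cp.congr`). `ctr H u v` on `S.erase v`: `u` is isolated (`Cp.iso`), it agrees with
`H` on `(S.erase v).erase u`. `lam_X`, `lam_add`. -/
theorem Cp.pend {H : SimpleGraph V} {S : Finset V} {p p' : ℕ[X]} {u v : V} (hu : u ∈ S)
    (hv : v ∈ S) (huv : H.Adj v u) (h : ∀ w ∈ S, H.Adj v w → w = u) (hp : Cp H (S.erase v) p)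
    (hp' : Cp H ((S.erase v).erase u) p') : Cp H S (p + X * p') := by
  have huv' : u ≠ v := huv.ne'
  have hue : u ∈ S.erase v := mem_erase.2 ⟨huv', hu⟩
  refine Cp_edge hu hv huv.symm ?_ ?_
  · refine Cp.iso hv ?_ (Cp.congr ?_ hp)
    · intro w hw hvw
      exact hvw.2.2 ⟨rfl, h w hw hvw.1⟩
    · intro a ha b hb
      exact Cp_del_iff (ne_of_mem_erase ha) (ne_of_mem_erase hb)
  · refine Cp.iso hue ?_ (Cp.congr ?_ hp')
    · intro w hw hvw
      have h1 := h w (mem_of_mem_erase hw) (hvw.2.1 rfl)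
      exact hvw.1.ne h1.symm
    · intro a ha b hb
      exact Cp_ctr_iff (ne_of_mem_erase ha) (ne_of_mem_erase hb)

/-- Proof. `cnt_edge` for the edge `uv`. `del H u v`: `v` is pendant with neighbour `w`
(`Cp.pend`, `Cp.congr`): `p1 + X * p2`. `ctr H u v` on `S.erase v`: `u` is pendant with neighbour
`w`: `p3 + X * p4`. -/
theorem Cp.three {H : SimpleGraph V} {S : Finset V} {p1 p2 p3 p4 : ℕ[X]} {u v w : V} (hu : u ∈ S)
    (hv : v ∈ S) (hw : w ∈ S) (hvu : H.Adj v u) (hvw : H.Adj v w) (huw : H.Adj u w)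
    (h : ∀ x ∈ S, H.Adj v x → x = u ∨ x = w) (h1 : Cp H (S.erase v) p1)
    (h2 : Cp H ((S.erase v).erase w) p2) (h3 : Cp H ((S.erase v).erase u) p3)
    (h4 : Cp H (((S.erase v).erase u).erase w) p4) :
    Cp H S (p1 + X * p2 + X * (p3 + X * p4)) := by
  have huv' : u ≠ v := hvu.ne'
  have hwv' : w ≠ v := hvw.ne'
  have hue : u ∈ S.erase v := mem_erase.2 ⟨huv', hu⟩
  have hwe : w ∈ S.erase v := mem_erase.2 ⟨hwv', hw⟩
  refine Cp_edge hu hv hvu.symm ?_ ?_
  · refine Cp.pend hw hv ?_ ?_ (Cp.congr ?_ h1) (Cp.congr ?_ h2)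
    · exact ⟨hvw, fun h' => hwv' h'.2, fun h' => huw.ne h'.2.symm⟩
    · intro x hx hvx
      rcases h x hx hvx.1 with h' | h'
      · exact absurd ⟨rfl, h'⟩ hvx.2.2
      · exact h'
    · intro a ha b hb
      exact Cp_del_iff (ne_of_mem_erase ha) (ne_of_mem_erase hb)
    · intro a ha b hb
      exact Cp_del_iff (ne_of_mem_erase (mem_of_mem_erase ha)) (ne_of_mem_erase (mem_of_mem_erase hb))
  · refine Cp.pend hwe hue ?_ ?_ (Cp.congr ?_ h3) (Cp.congr ?_ h4)
    · exact ⟨huw, fun _ => hvw, fun h' => absurd h' huw.ne'⟩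
    · intro x hx hvx
      rcases h x (mem_of_mem_erase hx) (hvx.2.1 rfl) with h' | h'
      · exact absurd h'.symm hvx.1.ne
      · exact h'
    · intro a ha b hb
      exact Cp_ctr_iff (ne_of_mem_erase ha) (ne_of_mem_erase hb)
    · intro a ha b hb
      exact Cp_ctr_iff (ne_of_mem_erase (mem_of_mem_erase ha)) (ne_of_mem_erase (mem_of_mem_erase hb))

end Pool.Agent.Lib.H20WD
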