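import Pool.Agent.Lib.H20WD.V1
import Pool.Agent.Lib.H20WD.D2
import Pool.Agent.Lib.H20WD.U6

/-! # V2: all components are `K_2` or `K_3` -/

set_option autoImplicit false

namespace Pool.Agent.Lib.H20WD

open Finset Polynomial
open scoped Classical

variable {V : Type}

private theorem V2_two {H : SimpleGraph V} {S : Finset V} {u v w : V} (hd : dg H S u = 2)
    (hv : v ∈ S) (hw : w ∈ S) (hvw : v ≠ w) (huv : H.Adj u v) (huw : H.Adj u w) :
    ∀ x ∈ S, H.Adj u x → x = v ∨ x = w := by
  obtain ⟨a, _, b, _, _, _, _, h⟩ := dg_two_iff.1 hd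
  intro x hx hux
  rcases h v hv huv with h1 | h1 <;> rcases h w hw huw with h2 | h2 <;>
    rcases h x hx hux with h3 | h3
  · exact absurd (h1.trans h2.symm) hvw
  · exact absurd (h1.trans h2.symm) hvw
  · exact Or.inl (h3.trans h1.symm)
  · exact Or.inr (h3.trans h2.symm)
  · exact Or.inr (h3.trans h2.symm)
  · exact Or.inl (h3.trans h1.symm)
  · exact absurd (h1.trans h2.symm) hvw
  · exact absurd (h1.trans h2.symm) hvw

/-- Proof. Strong induction on the number of elements. Empty: `Cp.empty`. Otherwise take `v ∈ S`.
Degree `1`, neighbour `u` (degree `1`): `T = (S.erase v).erase u` is good (`good_sdiff_iff`, `erase_erase_eq`) with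
polynomial `p = bb ^ e * aa ^ t`, in `S.erase v` the vertex `u` is isolated (`Cp.iso`), and
`Cp.pend`: `p + X * p = bb * p`. Degree `2`, neighbours `u`, `w` (adjacent, degree `2`): `T = S`
without `v, u, w`, polynomial `p`; `S.erase v`: `u` is pendant with neighbour `w` and
`w` is isolated in its rest: `bb * p`; `(S.erase v).erase w` and `(S.erase v).erase u`: an isolated
vertex and `T`: `p`; `Cp.three`: `bb * p + X * p + X * (p + X * p) = aa * p`. The numbers of edges by
`ec_erase`, `dg_erase`. -/
theorem cp_good (H : SimpleGraph V) (S : Finset V) (h : ∀ v ∈ S, Good H S v) :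
    ∃ e t, #S = 2 * e + 3 * t ∧ ec H S = e + 3 * t ∧ Cp H S (bb ^ e * aa ^ t) := by
  induction S using Finset.strongInduction with
  | H S ih =>
    rcases S.eq_empty_or_nonempty with rfl | ⟨v, hv⟩
    · refine ⟨0, 0, by simp, by simp [ec], ?_⟩
      rw [pow_zero, pow_zero, mul_one]
      exact Cp.empty H
    · obtain ⟨hd, hnb, htr⟩ := h v hv
      rcases hd with hd | hd
      · -- degree one
        obtain ⟨u, hu, hvu, huniq⟩ := dg_one_iff.1 hd
        have hne : u ≠ v := hvu.ne'
        have hdu : dg H S u = 1 := (hnb u hu hvu).trans hd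
        have hu1 : ∀ w ∈ S, H.Adj u w → w = v := by
          obtain ⟨x, hx, hux, hx1⟩ := dg_one_iff.1 hdu
          intro w hw huw
          rw [hx1 w hw huw, hx1 v hv hvu.symm]
        have hT : (S.erase v).erase u = S \ {v, u} := erase_erase_eq
        have hsub : (S.erase v).erase u ⊂ S :=
          (erase_subset _ _).trans_ssubset (erase_ssubset hv)
        obtain ⟨e, t, h1, h2, h3⟩ := ih _ hsub (by
          intro x hx
          rw [hT] at hx ⊢
          have hx' := mem_sdiff.1 hx
          refine (good_sdiff_iff hx'.1 hx'.2 ?_).2 (h x hx'.1)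
          intro y hy hyZ z hz hyz
          rw [mem_insert, mem_singleton, not_or] at hyZ
          rw [mem_insert, mem_singleton] at hz
          rcases hz with rfl | rfl
          · exact hyZ.2 (huniq y hy hyz.symm)
          · exact hyZ.1 (hu1 y hy hyz.symm))
        have hu' : u ∈ S.erase v := mem_erase.2 ⟨hne, hu⟩
        have c1 := card_erase_add_one hv
        have c2 := card_erase_add_one hu'
        have e1 := ec_erase H hv
        have e2 := ec_erase H hu'
        have e3 := dg_erase H hv hvu.symm
        have hp1 : Cp H (S.erase v) (bb ^ e * aa ^ t) :=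
          Cp.iso hu' (fun w hw huw => (mem_erase.1 hw).1 (hu1 w (mem_erase.1 hw).2 huw)) h3
        have hp2 := Cp.pend hu hv hvu huniq hp1 h3
        refine ⟨e + 1, t, by omega, by omega, ?_⟩
        have hpoly : bb ^ (e + 1) * aa ^ t = bb ^ e * aa ^ t + X * (bb ^ e * aa ^ t) := by
          have hb : bb = 1 + X := rfl
          rw [pow_succ, hb]
          ring
        rw [hpoly]
        exact hp2
      · -- degree two
        obtain ⟨u, hu, w, hw, huw', hvu, hvw, huniq⟩ := dg_two_iff.1 hd
        have huw : H.Adj u w := htr u hu w hw hvu hvw huw'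
        have hnu : u ≠ v := hvu.ne'
        have hnw : w ≠ v := hvw.ne'
        have hdu : dg H S u = 2 := (hnb u hu hvu).trans hd
        have hdw : dg H S w = 2 := (hnb w hw hvw).trans hd
        have hu1 := V2_two hdu hv hw hnw.symm hvu.symm huw
        have hw1 := V2_two hdw hv hu hnu.symm hvw.symm huw.symm
        have hT : ((S.erase v).erase u).erase w = S \ {v, u, w} := erase_erase_erase_eq
        have hsub : ((S.erase v).erase u).erase w ⊂ S :=
          ((erase_subset _ _).trans (erase_subset _ _)).trans_ssubset (erase_ssubset hv)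
        obtain ⟨e, t, h1, h2, h3⟩ := ih _ hsub (by
          intro x hx
          rw [hT] at hx ⊢
          have hx' := mem_sdiff.1 hx
          refine (good_sdiff_iff hx'.1 hx'.2 ?_).2 (h x hx'.1)
          intro y hy hyZ z hz hyz
          rw [mem_insert, mem_insert, mem_singleton, not_or, not_or] at hyZ
          rw [mem_insert, mem_insert, mem_singleton] at hz
          rcases hz with rfl | rfl | rfl
          · rcases huniq y hy hyz.symm with h4 | h4
            · exact hyZ.2.1 h4
            · exact hyZ.2.2 h4
          · rcases hu1 y hy hyz.symm with h4 | h4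
            · exact hyZ.1 h4
            · exact hyZ.2.2 h4
          · rcases hw1 y hy hyz.symm with h4 | h4
            · exact hyZ.1 h4
            · exact hyZ.2.1 h4)
        have hu' : u ∈ S.erase v := mem_erase.2 ⟨hnu, hu⟩
        have hw' : w ∈ S.erase v := mem_erase.2 ⟨hnw, hw⟩
        have hw'' : w ∈ (S.erase v).erase u := mem_erase.2 ⟨huw'.symm, hw'⟩
        have hu'' : u ∈ (S.erase v).erase w := mem_erase.2 ⟨huw', hu'⟩
        have c1 := card_erase_add_one hv
        have c2 := card_erase_add_one hu'
        have c3 := card_erase_add_one hw''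
        have e1 := ec_erase H hv
        have e2 := ec_erase H hu'
        have e3 := ec_erase H hw''
        have e4 := dg_erase H hv hvu.symm
        have e5 := dg_erase H hv hvw.symm
        have e6 := dg_erase H hu' huw.symm
        have hp3 : Cp H ((S.erase v).erase u) (bb ^ e * aa ^ t) := by
          refine Cp.iso hw'' (fun x hx hwx => ?_) h3
          rw [mem_erase, mem_erase] at hx
          rcases hw1 x hx.2.2 hwx with h4 | h4
          · exact hx.2.1 h4
          · exact hx.1 h4
        have hp2 : Cp H ((S.erase v).erase w) (bb ^ e * aa ^ t) := by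
          refine Cp.iso hu'' (fun x hx hux => ?_) ?_
          · rw [mem_erase, mem_erase] at hx
            rcases hu1 x hx.2.2 hux with h4 | h4
            · exact hx.2.1 h4
            · exact hx.1 h4
          · rw [erase_right_comm]
            exact h3
        have hp1 : Cp H (S.erase v) (bb ^ e * aa ^ t + X * (bb ^ e * aa ^ t)) := by
          refine Cp.pend hw' hu' huw (fun x hx hux => ?_) hp3 h3
          rw [mem_erase] at hx
          rcases hu1 x hx.2 hux with h4 | h4
          · exact absurd h4 hx.1
          · exact h4
        have hp := Cp.three hu hv hw hvu hvw huw huniq hp1 hp2 hp3 h3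
        refine ⟨e, t + 1, by omega, by omega, ?_⟩
        have hpoly : bb ^ e * aa ^ (t + 1) = bb ^ e * aa ^ t + X * (bb ^ e * aa ^ t) +
            X * (bb ^ e * aa ^ t) + X * (bb ^ e * aa ^ t + X * (bb ^ e * aa ^ t)) := by
          have ha : aa = 1 + 3 * X + X ^ 2 := rfl
          rw [pow_succ, ha]
          ring
        rw [hpoly]
        exact hp

end Pool.Agent.Lib.H20WD
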