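import Pool.Agent.Lib.H20WD.V2

/-! # V3: one isolated vertex, or one path with three vertices -/

set_option autoImplicit false

namespace Pool.Agent.Lib.H20WD

open Finset Polynomial
open scoped Classical

variable {V : Type}

private theorem V3_one {H : SimpleGraph V} {S : Finset V} {v u : V} (h : dg H S v = 1) (hu : u ∈ S)
    (huv : H.Adj v u) : ∀ w ∈ S, H.Adj v w → w = u := by
  obtain ⟨x, _, _, hx⟩ := dg_one_iff.1 h
  intro w hw hvw
  rw [hx w hw hvw, hx u hu huv]

private theorem V3_two {H : SimpleGraph V} {S : Finset V} {v a b : V} (h : dg H S v = 2) (ha : a ∈ S)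
    (hb : b ∈ S) (hab : a ≠ b) (hva : H.Adj v a) (hvb : H.Adj v b) :
    ∀ w ∈ S, H.Adj v w → w = a ∨ w = b := by
  obtain ⟨x, _, y, _, _, _, _, hx⟩ := dg_two_iff.1 h
  intro w hw hvw
  rcases hx w hw hvw with h1 | h1 <;> rcases hx a ha hva with h2 | h2 <;>
    rcases hx b hb hvb with h3 | h3
  · exact Or.inl (h1.trans h2.symm)
  · exact Or.inl (h1.trans h2.symm)
  · exact Or.inr (h1.trans h3.symm)
  · exact absurd (h2.trans h3.symm) hab
  · exact absurd (h2.trans h3.symm) hab
  · exact Or.inr (h1.trans h3.symm)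
  · exact Or.inl (h1.trans h2.symm)
  · exact Or.inl (h1.trans h2.symm)

/-- Proof. `Z = {w}`, `cp_good` for `S \ {w} = S.erase w` (`good_sdiff_iff`), `Cp.iso`. -/
theorem cp_K {H : SimpleGraph V} {S : Finset V} (h : TyK H S) :
    ∃ e t, #S = 2 * e + 3 * t + 1 ∧ ec H S = e + 3 * t ∧ Cp H S (bb ^ e * aa ^ t) := by
  obtain ⟨w, hw, dw, hgood⟩ := h
  have nw := dg_zero_iff.1 dw
  have hR : S.erase w = S \ {w} := by
    ext x
    rw [mem_erase, mem_sdiff, mem_singleton]
    tauto
  have hgR : ∀ v ∈ S \ {w}, Good H (S \ {w}) v := by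
    intro v hv
    rw [mem_sdiff] at hv
    have hv2 := hv.2
    rw [mem_singleton] at hv2
    rw [good_sdiff_iff hv.1 hv.2]
    · exact hgood v hv.1 hv2
    · intro x hx _ z hz hxz
      rw [mem_singleton] at hz
      subst hz
      exact nw x hx hxz.symm
  obtain ⟨e, t, h1, h2, hp⟩ := cp_good H _ hgR
  have c1 := card_erase_add_one hw
  have e1 := ec_erase H hw
  rw [hR] at c1 e1
  exact ⟨e, t, by omega, by omega, Cp.iso hw nw (by rw [hR]; exact hp)⟩

/-- Proof. `R = S` without `c, a, b` is good (`good_sdiff_iff`; the neighbours of `c`, `a`, `b` are in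
`{c, a, b}`), polynomial `p = bb ^ e * aa ^ t`. `a` is pendant with neighbour `c`. In `S.erase a` the
vertex `b` is pendant with neighbour `c`, which is isolated in the rest: `p + X * p`. In
`(S.erase a).erase c` the vertex `b` is isolated: `p`. `Cp.pend`: `p + X * p + X * p`. -/
theorem cp_P {H : SimpleGraph V} {S : Finset V} (h : TyP H S) :
    ∃ e t, #S = 2 * e + 3 * t + 3 ∧ ec H S = e + 3 * t + 2 ∧
      Cp H S (bb ^ e * aa ^ t * (1 + 2 * X)) := by
  obtain ⟨c, hc, a, ha, b, hb, nab, hca, hcb, dc, da, db, hgood⟩ := h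
  have nca : c ≠ a := hca.ne
  have ncb : c ≠ b := hcb.ne
  have na := V3_one da hc hca.symm
  have nb := V3_one db hc hcb.symm
  have nc := V3_two dc ha hb nab hca hcb
  -- the sets
  have hbT : b ∈ S.erase a := mem_erase.2 ⟨nab.symm, hb⟩
  have hcT1 : c ∈ S.erase a := mem_erase.2 ⟨nca, hc⟩
  have hcT : c ∈ (S.erase a).erase b := mem_erase.2 ⟨ncb, hcT1⟩
  have hbT' : b ∈ (S.erase a).erase c := mem_erase.2 ⟨ncb.symm, hbT⟩
  have hR : ((S.erase a).erase b).erase c = S \ {a, b, c} := erase_erase_erase_eq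
  have hR' : ((S.erase a).erase c).erase b = S \ {a, b, c} := by
    ext x
    simp only [mem_erase, mem_sdiff, mem_insert, mem_singleton]
    tauto
  have hgR : ∀ v ∈ S \ {a, b, c}, Good H (S \ {a, b, c}) v := by
    intro v hv
    rw [mem_sdiff] at hv
    have hv2 := hv.2
    simp only [mem_insert, mem_singleton, not_or] at hv2
    rw [good_sdiff_iff hv.1 hv.2]
    · exact hgood v hv.1 hv2.2.2 hv2.1 hv2.2.1
    · intro x hx hxZ z hz hxz
      simp only [mem_insert, mem_singleton, not_or] at hxZ hz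
      rcases hz with rfl | rfl | rfl
      · exact hxZ.2.2 (na x hx hxz.symm)
      · exact hxZ.2.2 (nb x hx hxz.symm)
      · rcases nc x hx hxz.symm with h' | h'
        · exact hxZ.1 h'
        · exact hxZ.2.1 h'
  obtain ⟨e, t, h1, h2, hp⟩ := cp_good H _ hgR
  -- numbers
  have c1 := card_erase_add_one ha
  have c2 := card_erase_add_one hbT
  have c3 := card_erase_add_one hcT
  rw [hR] at c3
  have e1 := ec_erase H ha
  have e2 := ec_erase H hbT
  have e3 := ec_erase H hcT
  rw [hR] at e3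
  have d2 : dg H (S.erase a) b = 1 :=
    dg_one_iff.2 ⟨c, hcT1, hcb.symm, fun w hw hbw => nb w (mem_of_mem_erase hw) hbw⟩
  have i3 : ∀ w ∈ (S.erase a).erase b, ¬ H.Adj c w := by
    intro w hw hcw
    rw [mem_erase, mem_erase] at hw
    rcases nc w hw.2.2 hcw with h' | h'
    · exact hw.2.1 h'
    · exact hw.1 h'
  have d3 : dg H ((S.erase a).erase b) c = 0 := dg_zero_iff.2 i3
  refine ⟨e, t, by omega, by omega, ?_⟩
  -- polynomials
  have p2 : Cp H ((S.erase a).erase b) (bb ^ e * aa ^ t) :=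
    Cp.iso hcT i3 (by rw [hR]; exact hp)
  have p1 : Cp H (S.erase a) (bb ^ e * aa ^ t + X * (bb ^ e * aa ^ t)) :=
    Cp.pend hcT1 hbT hcb.symm (fun w hw hbw => nb w (mem_of_mem_erase hw) hbw) p2
      (by rw [hR]; exact hp)
  have p1' : Cp H ((S.erase a).erase c) (bb ^ e * aa ^ t) := by
    refine Cp.iso hbT' (fun w hw hbw => ?_) (by rw [hR']; exact hp)
    exact (mem_erase.1 hw).1 (nb w (mem_of_mem_erase (mem_of_mem_erase hw)) hbw)
  have p0 := Cp.pend hc ha hca.symm na p1 p1'
  have he : bb ^ e * aa ^ t + X * (bb ^ e * aa ^ t) + X * (bb ^ e * aa ^ t) =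
      bb ^ e * aa ^ t * (1 + 2 * X) := by ring
  rw [he] at p0
  exact p0

end Pool.Agent.Lib.H20WD
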