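import Pool.Agent.Lib.H20WD.U1

/-! # W1: a pendant vertex in an extremal graph -/

set_option autoImplicit false

namespace Pool.Agent.Lib.H20WD

open Finset
open scoped Classical

variable {V : Type}

theorem W1_dg_erase {H : SimpleGraph V} {S : Finset V} {v w : V} (h : ¬ H.Adj w v) :
    dg H (S.erase v) w = dg H S w := by
  rw [← sdiff_singleton_eq_erase]
  exact dg_sdiff fun z hz => by
    rw [mem_singleton] at hz
    subst hz
    exact h

/-- Proof. Let `y` be the second neighbour of `u`. In `T = S.erase v` all degrees are as in `S`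
except that of `u`, which is `1`; there is no isolated vertex in `T`. `Ext H T`:
(1) all degrees at most one, hence all equal to one, or all vertices of `T` good: then the component
of `u` in `T` is the edge `u y`, so `dg y = 1`, and the component of `u` in `S` is the path `v u y`:
`TyP H S` (`2 ec H S > #S` since all degrees are positive and that of `u` is `2`).
(2) `TyP H T` with `c, a, b`: `u` is not `c`. If `u = a` (or `b`): the component in `S` is the path
`v u c b`: `TyQ H S`. If `u` is good in `T`: `y` is its only neighbour in `T` and is isolated in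
`T.erase u`, while `c` has still degree `2`, with two neighbours of degree `1`; so
`Ext H (T.erase u)` is impossible: neither all degrees are at most one, nor all vertices good; `TyP`
and `TyQ` have no isolated vertex; in `TyK` the vertex `c` would have to be good, but its
neighbours have another degree.
(3) `TyK H T`: impossible, there is no isolated vertex in `T`.
(4) `TyQ H T`: `res_Q`: `2 ec H T = #T + 3 t + 2`, so `2 ec H S - #S = 3 t + 3`, contradiction. -/
theorem ext_pend (H : SimpleGraph V) {S : Finset V} {u v : V} (hu : u ∈ S) (hv : v ∈ S)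
    (hvu : H.Adj v u) (h1 : ∀ x ∈ S, 1 ≤ dg H S x) (hdv : dg H S v = 1) (hdu : dg H S u = 2)
    (hE : Ext H (S.erase v)) (hE' : Ext H ((S.erase v).erase u)) (h3 : ¬ 3 ∣ 2 * ec H S - #S) :
    Ext H S := by
  have hvu' : v ≠ u := hvu.ne
  obtain ⟨u', hu', hvu1, huniq⟩ := dg_one_iff.1 hdv
  have hvn : ∀ w ∈ S, H.Adj w v → w = u := fun w hw hwv => by
    rw [huniq w hw hwv.symm, huniq u hu hvu]
  have huT : u ∈ S.erase v := mem_erase.2 ⟨hvu'.symm, hu⟩
  have hdT : ∀ w ∈ S, w ≠ u → dg H (S.erase v) w = dg H S w := fun w hw hwu =>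
    W1_dg_erase fun h => hwu (hvn w hw h)
  have hduT : dg H (S.erase v) u = 1 := by
    have h := dg_erase H hv hvu.symm
    omega
  have h1T : ∀ w ∈ S.erase v, 1 ≤ dg H (S.erase v) w := by
    intro w hw
    by_cases hwu : w = u
    · subst hwu
      omega
    · rw [hdT w (mem_of_mem_erase hw) hwu]
      exact h1 w (mem_of_mem_erase hw)
  obtain ⟨y, hyT, huy, hyuniq⟩ := dg_one_iff.1 hduT
  have hyS : y ∈ S := mem_of_mem_erase hyT
  have hyv : y ≠ v := ne_of_mem_erase hyT
  have hyu : y ≠ u := huy.ne.symm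
  have hun : ∀ w ∈ S, w ≠ v → H.Adj u w → w = y := fun w hw hwv h =>
    hyuniq w (mem_erase.2 ⟨hwv, hw⟩) h
  have hlt : #S < 2 * ec H S := by
    rw [← sum_dg, ← sum_erase_add _ _ hu, hdu]
    have h : #(S.erase u) ≤ ∑ x ∈ S.erase u, dg H S x := by
      rw [card_eq_sum_ones]
      exact sum_le_sum fun x hx => h1 x (mem_of_mem_erase hx)
    have h' := card_erase_add_one hu
    omega
  have hA : ∀ x ∈ S, x ≠ v → x ≠ u → x ≠ y → Good H (S.erase v) x → Good H S x := by
    intro x hx hxv hxu hxy hg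
    have hxu' : ¬ H.Adj x u := fun h => hxy (hun x hx hxv h.symm)
    have hmem : ∀ a ∈ S, H.Adj x a → a ∈ S.erase v ∧ a ≠ u := fun a ha hxa =>
      ⟨mem_erase.2 ⟨fun h => hxu (hvn x hx (h ▸ hxa)), ha⟩, fun h => hxu' (h ▸ hxa)⟩
    obtain ⟨hg1, hg2, hg3⟩ := hg
    rw [hdT x hx hxu] at hg1 hg2
    refine ⟨hg1, fun a ha hxa => ?_, fun a ha b hb hxa hxb hab => ?_⟩
    · have h := hmem a ha hxa
      rw [← hg2 a h.1 hxa, hdT a ha h.2]
    · exact hg3 a (hmem a ha hxa).1 b (hmem b hb hxb).1 hxa hxb hab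
  have hP : dg H S y = 1 → (∀ x ∈ S, x ≠ v → x ≠ u → x ≠ y → Good H (S.erase v) x) → Ext H S :=
    fun hy h => Or.inr ⟨hlt, Or.inr (Or.inl ⟨u, hu, v, hv, y, hyS, hyv.symm, hvu.symm, huy, hdu,
      hdv, hy, fun x hx hxu hxv hxy => hA x hx hxv hxu hxy (h x hx hxv hxu hxy)⟩)⟩
  rcases hE with ⟨-, hle⟩ | ⟨-, hgood | hTP | hTK | hTQ⟩
  · have hone : ∀ w ∈ S.erase v, dg H (S.erase v) w = 1 := fun w hw =>
      le_antisymm (hle w hw) (h1T w hw)
    refine hP ((hdT y hyS hyu).symm.trans (hone y hyT)) fun x hx hxv hxu hxy => ?_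
    have hxT : x ∈ S.erase v := mem_erase.2 ⟨hxv, hx⟩
    refine ⟨Or.inl (hone x hxT), fun a ha _ => by rw [hone a ha, hone x hxT],
      fun a ha b hb hxa hxb hab => ?_⟩
    obtain ⟨z, -, -, hz⟩ := dg_one_iff.1 (hone x hxT)
    exact absurd ((hz a ha hxa).trans (hz b hb hxb).symm) hab
  · have hy1 : dg H (S.erase v) y = 1 := ((hgood u huT).2.1 y hyT huy).trans hduT
    exact hP ((hdT y hyS hyu).symm.trans hy1) fun x hx hxv _ _ => hgood x (mem_erase.2 ⟨hxv, hx⟩)
  · obtain ⟨c, hc, a, ha, b, hb, hab, hca, hcb, hdc, hda, hdb, hrest⟩ := hTP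
    have hcu : c ≠ u := fun h => by
      rw [h] at hdc
      omega
    have key : ∀ a ∈ S.erase v, ∀ b ∈ S.erase v, a ≠ b → H.Adj c a → H.Adj c b →
        dg H (S.erase v) b = 1 → (∀ x ∈ S.erase v, x ≠ c → x ≠ a → x ≠ b →
          Good H (S.erase v) x) → u = a → Ext H S := by
      intro a ha b hb hab hca hcb hdb hrest hua
      subst hua
      have hcy : c = y := hun c (mem_of_mem_erase hc) (ne_of_mem_erase hc) hca.symm
      refine Or.inr ⟨hlt, Or.inr (Or.inr (Or.inr ⟨v, hv, u, hu, c, mem_of_mem_erase hc, b,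
        mem_of_mem_erase hb, hvu, hca.symm, hcb, hdv, hdu, ?_, ?_, ?_⟩))⟩
      · rw [← hdT c (mem_of_mem_erase hc) hcu, hdc]
      · rw [← hdT b (mem_of_mem_erase hb) hab.symm, hdb]
      · intro x hx hxv hxu hxc hxb
        exact hA x hx hxv hxu (hcy ▸ hxc) (hrest x (mem_erase.2 ⟨hxv, hx⟩) hxc hxu hxb)
    by_cases hua : u = a
    · exact key a ha b hb hab hca hcb hdb hrest hua
    by_cases hub : u = b
    · exact key b hb a ha hab.symm hcb hca hda
        (fun x hx h1 h2 h3 => hrest x hx h1 h3 h2) hub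
    exfalso
    have hgu := hrest u huT hcu.symm hua hub
    have hy1 : dg H (S.erase v) y = 1 := (hgu.2.1 y hyT huy).trans hduT
    obtain ⟨z, hz, hyz, hzu⟩ := dg_one_iff.1 hy1
    have hyn : ∀ w ∈ S.erase v, H.Adj y w → w = u := fun w hw h =>
      (hzu w hw h).trans (hzu u huT huy.symm).symm
    have hcy : c ≠ y := fun h => by
      rw [h] at hdc
      omega
    have hay : a ≠ y := fun h => hcu (hyn c hc (h ▸ hca.symm))
    have hcau : ∀ a ∈ S.erase v, H.Adj c a → dg H (S.erase v) a = 1 → u ≠ a →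
        dg H ((S.erase v).erase u) a = 1 := by
      intro a ha hca hda hua
      obtain ⟨z, hz, haz, hzu⟩ := dg_one_iff.1 hda
      rw [W1_dg_erase fun h => ?_]
      · exact hda
      · exact hcu ((hzu c hc hca.symm).trans (hzu u huT h).symm)
    have hdc' : dg H ((S.erase v).erase u) c = 2 := by
      rw [W1_dg_erase fun h => ?_]
      · exact hdc
      · exact hcy (hyuniq c hc h.symm)
    have hda' := hcau a ha hca hda hua
    have hdy' : dg H ((S.erase v).erase u) y = 0 := by
      rw [dg_zero_iff]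
      intro w hw h
      exact ne_of_mem_erase hw (hyn w (mem_of_mem_erase hw) h)
    have hyT' : y ∈ (S.erase v).erase u := mem_erase.2 ⟨hyu, hyT⟩
    have hcT' : c ∈ (S.erase v).erase u := mem_erase.2 ⟨hcu, hc⟩
    have haT' : a ∈ (S.erase v).erase u := mem_erase.2 ⟨fun h => hua h.symm, ha⟩
    have hyg : ¬ Good H ((S.erase v).erase u) y := by
      rintro ⟨h | h, -, -⟩ <;> omega
    rcases hE' with ⟨-, h⟩ | ⟨-, h | h | h | h⟩
    · have := h c hcT'
      omega
    · exact hyg (h y hyT')
    · obtain ⟨c', _, a', _, b', _, _, _, _, e1, e2, e3, h'⟩ := h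
      refine hyg (h' y hyT' ?_ ?_ ?_)
      · intro h
        rw [← h] at e1
        omega
      · intro h
        rw [← h] at e2
        omega
      · intro h
        rw [← h] at e3
        omega
    · obtain ⟨w, _, hw, h'⟩ := h
      have hcw : c ≠ w := fun h => by
        rw [← h] at hw
        omega
      have := (h' c hcT' hcw).2.1 a haT' hca
      omega
    · obtain ⟨a', _, b', _, c', _, d', _, _, _, _, e1, e2, e3, e4, h'⟩ := h
      refine hyg (h' y hyT' ?_ ?_ ?_ ?_)
      · intro h
        rw [← h] at e1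
        omega
      · intro h
        rw [← h] at e2
        omega
      · intro h
        rw [← h] at e3
        omega
      · intro h
        rw [← h] at e4
        omega
  · obtain ⟨w, hw, hw0, -⟩ := hTK
    have := h1T w hw
    omega
  · obtain ⟨t, ht⟩ := res_Q H hTQ
    have h2 := ec_erase H hv
    have h4 := card_erase_add_one hv
    exact absurd ⟨t + 1, by omega⟩ h3

end Pool.Agent.Lib.H20WD
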