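import Pool.Agent.Lib.H20WD.U6
import Pool.Agent.Lib.H20WD.D2

/-! # W2: moving an edge and extremal graphs -/

set_option autoImplicit false

namespace Pool.Agent.Lib.H20WD

open Finset
open scoped Classical

variable {V : Type}

private theorem W2_two {H : SimpleGraph V} {S : Finset V} {v a b x : V} (hd : dg H S v = 2)
    (ha : a ∈ S) (hb : b ∈ S) (hab : a ≠ b) (hva : H.Adj v a) (hvb : H.Adj v b) (hx : x ∈ S)
    (hvx : H.Adj v x) : x = a ∨ x = b := by
  obtain ⟨a', _, b', _, _, _, _, h⟩ := dg_two_iff.1 hd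
  rcases h a ha hva with h1 | h1 <;> rcases h b hb hvb with h2 | h2 <;>
    rcases h x hx hvx with h3 | h3
  · exact absurd (h1.trans h2.symm) hab
  · exact absurd (h1.trans h2.symm) hab
  · exact Or.inl (h3.trans h1.symm)
  · exact Or.inr (h3.trans h2.symm)
  · exact Or.inr (h3.trans h2.symm)
  · exact Or.inl (h3.trans h1.symm)
  · exact absurd (h1.trans h2.symm) hab
  · exact absurd (h1.trans h2.symm) hab

private theorem W2_one {H : SimpleGraph V} {S : Finset V} {v a x : V} (hd : dg H S v = 1)
    (ha : a ∈ S) (hva : H.Adj v a) (hx : x ∈ S) (hvx : H.Adj v x) : x = a := by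
  obtain ⟨u, _, _, h⟩ := dg_one_iff.1 hd
  rw [h a ha hva, h x hx hvx]

private theorem W2_two_of {H : SimpleGraph V} {S : Finset V} {v a b : V}
    (ha : a ∈ S) (hb : b ∈ S) (hab : a ≠ b) (hva : H.Adj v a) (hvb : H.Adj v b)
    (h : ∀ x ∈ S, H.Adj v x → x = a ∨ x = b) : dg H S v = 2 :=
  dg_two_iff.2 ⟨a, ha, b, hb, hab, hva, hvb, h⟩

private theorem W2_congr {H H' : SimpleGraph V} {S : Finset V} {v : V} (hv : v ∈ S)
    (h : ∀ a ∈ S, ∀ b ∈ S, (H.Adj a b ↔ H'.Adj a b)) (hg : Good H S v) : Good H' S v := by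
  obtain ⟨h1, h2, h3⟩ := hg
  have hd : ∀ a ∈ S, dg H S a = dg H' S a := fun a ha => dg_congr fun b hb => h a ha b hb
  refine ⟨?_, ?_, ?_⟩
  · rw [← hd v hv]
    exact h1
  · intro a ha hva
    rw [← hd v hv, ← hd a ha]
    exact h2 a ha ((h v hv a ha).2 hva)
  · intro a ha b hb hva hvb hab
    exact (h a ha b hb).1 (h3 a ha b hb ((h v hv a ha).2 hva) ((h v hv b hb).2 hvb) hab)

private theorem W2_core (H : SimpleGraph V) {S : Finset V} {u v w y c d : V} (hu : u ∈ S)
    (hv : v ∈ S) (hw : w ∈ S) (hy : y ∈ S) (hc : c ∈ S) (hd : d ∈ S) (huv : H.Adj u v)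
    (h : ∀ x ∈ S, ¬ H.Adj w x) (hvy : H.Adj v y) (huy : H.Adj u y)
    (h2u : dg (add (del H u v) u w) S u = 2) (h2c : dg (add (del H u v) u w) S c = 2)
    (h1w : dg (add (del H u v) u w) S w = 1) (h1d : dg (add (del H u v) u w) S d = 1)
    (huc : (add (del H u v) u w).Adj u c) (hcd : (add (del H u v) u w).Adj c d)
    (hg : ∀ x ∈ S, x ≠ w → x ≠ u → x ≠ c → x ≠ d → Good (add (del H u v) u w) S x) :
    TyK H S := by
  have hwu : w ≠ u := by
    rintro rfl
    exact h v hv huv
  have hvw : v ≠ w := by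
    rintro rfl
    exact h u hu huv.symm
  have hyw : y ≠ w := by
    rintro rfl
    exact h v hv hvy.symm
  have hyv : y ≠ v := hvy.ne.symm
  have hyu : y ≠ u := huy.ne.symm
  have huw' : (add (del H u v) u w).Adj u w := Or.inr ⟨hwu.symm, Or.inl ⟨rfl, rfl⟩⟩
  have huy' : (add (del H u v) u w).Adj u y :=
    Or.inl ⟨huy, fun h' => hyv h'.2, fun h' => huv.ne h'.1⟩
  have hvy' : (add (del H u v) u w).Adj v y :=
    Or.inl ⟨hvy, fun h' => huv.ne h'.1.symm, fun h' => hyu h'.2⟩
  have hkeep : ∀ x z, H.Adj x z → ¬ (x = u ∧ z = v) → ¬ (x = v ∧ z = u) →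
      (add (del H u v) u w).Adj x z := fun x z h1 h2 h3 => Or.inl ⟨h1, h2, h3⟩
  have hback : ∀ x z, (add (del H u v) u w).Adj x z → x ≠ w → z ≠ w → H.Adj x z := by
    rintro x z (h1 | ⟨_, h1 | h1⟩) hx hz
    · exact h1.1
    · exact absurd h1.2 hz
    · exact absurd h1.1 hx
  have hcw : c ≠ w := by
    rintro rfl
    omega
  have hyc : y = c := by
    rcases W2_two h2u hw hc hcw.symm huw' huc hy huy' with h1 | h1
    · exact absurd h1 hyw
    · exact h1
  subst hyc
  have hud : u ≠ d := by
    rintro rfl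
    omega
  have hvd : v = d := by
    rcases W2_two h2c hu hd hud huc.symm hcd hv hvy'.symm with h1 | h1
    · exact absurd h1.symm huv.ne
    · exact h1
  subst hvd
  -- neighbours in `H`
  have nu : ∀ x ∈ S, H.Adj u x → x = v ∨ x = y := by
    intro x hx hux
    by_cases hxv : x = v
    · exact Or.inl hxv
    · have h1 := hkeep u x hux (fun h' => hxv h'.2) (fun h' => huv.ne h'.1)
      rcases W2_two h2u hw hc hcw.symm huw' huc hx h1 with h2 | h2
      · rw [h2] at hux
        exact absurd hux.symm (h u hu)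
      · exact Or.inr h2
  have nv : ∀ x ∈ S, H.Adj v x → x = u ∨ x = y := by
    intro x hx hvx
    by_cases hxu : x = u
    · exact Or.inl hxu
    · have h1 := hkeep v x hvx (fun h' => huv.ne h'.1.symm) (fun h' => hxu h'.2)
      exact Or.inr (W2_one h1d hy hvy' hx h1)
  have ny : ∀ x ∈ S, H.Adj y x → x = u ∨ x = v := by
    intro x hx hyx
    have h1 := hkeep y x hyx (fun h' => hyu h'.1) (fun h' => hyv h'.1)
    exact W2_two h2c hu hd hud huc.symm hcd hx h1
  have du : dg H S u = 2 := W2_two_of hv hy hyv.symm huv huy nu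
  have dv : dg H S v = 2 := W2_two_of hu hy hyu.symm huv.symm hvy nv
  have dy : dg H S y = 2 := W2_two_of hu hv huv.ne huy.symm hvy.symm ny
  have gu : Good H S u := by
    refine ⟨Or.inr du, ?_, ?_⟩
    · intro a ha hua
      rcases nu a ha hua with rfl | rfl
      · rw [du, dv]
      · rw [du, dy]
    · intro a ha b hb hua hub hab
      rcases nu a ha hua with rfl | rfl <;> rcases nu b hb hub with rfl | rfl
      · exact absurd rfl hab
      · exact hvy
      · exact hvy.symm
      · exact absurd rfl hab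
  have gv : Good H S v := by
    refine ⟨Or.inr dv, ?_, ?_⟩
    · intro a ha hva
      rcases nv a ha hva with rfl | rfl
      · rw [du, dv]
      · rw [dv, dy]
    · intro a ha b hb hva hvb hab
      rcases nv a ha hva with rfl | rfl <;> rcases nv b hb hvb with rfl | rfl
      · exact absurd rfl hab
      · exact huy
      · exact huy.symm
      · exact absurd rfl hab
  have gy : Good H S y := by
    refine ⟨Or.inr dy, ?_, ?_⟩
    · intro a ha hya
      rcases ny a ha hya with rfl | rfl
      · rw [du, dy]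
      · rw [dv, dy]
    · intro a ha b hb hya hyb hab
      rcases ny a ha hya with rfl | rfl <;> rcases ny b hb hyb with rfl | rfl
      · exact absurd rfl hab
      · exact huv
      · exact huv.symm
      · exact absurd rfl hab
  refine ⟨w, hw, dg_zero_iff.2 h, ?_⟩
  intro x hx hxw
  by_cases hxu : x = u
  · rw [hxu]
    exact gu
  by_cases hxv : x = v
  · rw [hxv]
    exact gv
  by_cases hxy : x = y
  · rw [hxy]
    exact gy
  have hgx := hg x hx hxw hxu hxy hxv
  have hZ : x ∉ ({w, u, y, v} : Finset V) := by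
    simp only [mem_insert, mem_singleton, not_or]
    exact ⟨hxw, hxu, hxy, hxv⟩
  have hsep : ∀ x ∈ S, x ∉ ({w, u, y, v} : Finset V) → ∀ z ∈ ({w, u, y, v} : Finset V),
      ¬ H.Adj x z := by
    intro x hx hxZ z hz hxz
    simp only [mem_insert, mem_singleton, not_or] at hxZ hz
    obtain ⟨h1, h2, h3, h4⟩ := hxZ
    rcases hz with rfl | rfl | rfl | rfl
    · exact h x hx hxz.symm
    · rcases nu x hx hxz.symm with h5 | h5
      · exact h4 h5
      · exact h3 h5
    · rcases ny x hx hxz.symm with h5 | h5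
      · exact h2 h5
      · exact h4 h5
    · rcases nv x hx hxz.symm with h5 | h5
      · exact h2 h5
      · exact h3 h5
  have hsep' : ∀ x ∈ S, x ∉ ({w, u, y, v} : Finset V) → ∀ z ∈ ({w, u, y, v} : Finset V),
      ¬ (add (del H u v) u w).Adj x z := by
    intro x hx hxZ z hz hxz
    have hxZ' := hxZ
    simp only [mem_insert, mem_singleton, not_or] at hxZ'
    obtain ⟨h1, h2, h3, h4⟩ := hxZ'
    by_cases hzw : z = w
    · rw [hzw] at hxz
      exact h2 (W2_one h1w hu huw'.symm hx hxz.symm)
    · exact hsep x hx hxZ z hz (hback x z hxz h1 hzw)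
  rw [← good_sdiff_iff hx hZ hsep]
  rw [← good_sdiff_iff hx hZ hsep'] at hgx
  refine W2_congr (mem_sdiff.2 ⟨hx, hZ⟩) ?_ hgx
  intro a ha b hb
  rw [mem_sdiff, mem_insert, mem_insert, mem_insert, mem_singleton] at ha hb
  push Not at ha hb
  constructor
  · intro h1
    exact hback a b h1 ha.2.1 hb.2.1
  · intro h1
    exact hkeep a b h1 (fun h' => ha.2.2.1 h'.1) (fun h' => ha.2.2.2.2 h'.1)

/-- Proof. `H' = add (del H u v) u w`; `v ≠ w`. In `H'` the only neighbour of `w` is `u`, and `v` has
a neighbour `y` (its degree is `dg H S v - 1 ≥ 1`), `y ≠ u`, `y ≠ w`, `H.Adj v y`. If some such `y`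
is not adjacent to `u` in `H` we are done. Otherwise take such a `y`: `u` is adjacent to `y` (in `H`
and in `H'`), so in `H'` the vertex `w` has degree one and its neighbour `u` has degree at least two:
`w` and `u` are not good in `H'`, and not all degrees are at most one. `TyK H' S` is impossible (two
vertices are not good). `TyP H' S` with `c, a, b`: `w` is `a` or `b`, `u = c`, and `y` is the other
one of `a`, `b`, of degree one, but adjacent to `u` and `v`, contradiction. `TyQ H' S` with
`a, b, c, d`: `w` is `a` or `d`, say `a` (the other case is symmetric); `u = b`, `y = c`, and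
`v ∈ {b, d}` since `v` is adjacent to `y`, so `v = d`. In `H` (that is `H'` without `a b`, with
`b d`) `b, c, d` is a component `K_3` and `a` is isolated: `TyK H S` (for the others nothing
changes), and `2 ec H S = 2 ec H' S > #S` (`ec_swap`). -/
theorem ext_swap (H : SimpleGraph V) {S : Finset V} {u v w : V} (hu : u ∈ S) (hv : v ∈ S)
    (hw : w ∈ S) (huv : H.Adj u v) (h : ∀ x ∈ S, ¬ H.Adj w x) (hd : 2 ≤ dg H S v)
    (hE : Ext (add (del H u v) u w) S) :
    Ext H S ∨ ∃ y ∈ S, H.Adj v y ∧ y ≠ u ∧ ¬ H.Adj u y := by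
  by_cases hex : ∃ y ∈ S, H.Adj v y ∧ y ≠ u ∧ ¬ H.Adj u y
  · exact Or.inr hex
  left
  push Not at hex
  have hwu : w ≠ u := by
    rintro rfl
    exact h v hv huv
  have hvw : v ≠ w := by
    rintro rfl
    exact h u hu huv.symm
  obtain ⟨y, hy0, hyu⟩ := exists_mem_ne (show 1 < #(S.filter fun w => H.Adj v w) from hd) u
  rw [mem_filter] at hy0
  obtain ⟨hy, hvy⟩ := hy0
  have huy : H.Adj u y := hex y hy hvy hyu
  have hyw : y ≠ w := by
    rintro rfl
    exact h v hv hvy.symm
  have hyv : y ≠ v := hvy.ne.symm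
  have huw' : (add (del H u v) u w).Adj u w := Or.inr ⟨hwu.symm, Or.inl ⟨rfl, rfl⟩⟩
  have huy' : (add (del H u v) u w).Adj u y :=
    Or.inl ⟨huy, fun h' => hyv h'.2, fun h' => huv.ne h'.1⟩
  have hvy' : (add (del H u v) u w).Adj v y :=
    Or.inl ⟨hvy, fun h' => huv.ne h'.1.symm, fun h' => hyu h'.2⟩
  have h1w : dg (add (del H u v) u w) S w = 1 := by
    refine dg_one_iff.2 ⟨u, hu, huw'.symm, ?_⟩
    rintro x hx (h1 | ⟨_, h1 | h1⟩)
    · exact absurd h1.1 (h x hx)
    · exact absurd h1.1 hwu
    · exact h1.2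
  have h2u : dg (add (del H u v) u w) S u ≠ 1 := by
    intro h1
    exact hyw (W2_one h1 hw huw' hy huy')
  have hgw : ¬ Good (add (del H u v) u w) S w := by
    rintro ⟨_, h1, _⟩
    have h3 := h1 u hu huw'.symm
    rw [h1w] at h3
    exact h2u h3
  have hec := ec_swap H hu hv hw huv h
  rcases hE with ⟨_, h1⟩ | ⟨hlt, hall | hP | hK | hQ⟩
  · exfalso
    have h3 := h1 u hu
    have h4 : dg (add (del H u v) u w) S u ≠ 0 := by
      intro h0
      exact dg_zero_iff.1 h0 w hw huw'
    omega
  · exact absurd (hall w hw) hgw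
  · exfalso
    obtain ⟨c, hc, a, ha, b, hb, hab, hca, hcb, h2c, h1a, h1b, hg⟩ := hP
    have hwabc : w = a ∨ w = b := by
      by_contra hn
      push Not at hn
      apply hgw
      refine hg w hw ?_ hn.1 hn.2
      rintro rfl
      omega
    have key : ∀ a b : V, a ∈ S → b ∈ S → a ≠ b → (add (del H u v) u w).Adj c a →
        (add (del H u v) u w).Adj c b → dg (add (del H u v) u w) S b = 1 → w = a → False := by
      intro a b ha hb hab hca hcb h1b hwa
      subst hwa
      have hcu : c = u := W2_one h1w hu huw'.symm hc hca.symm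
      subst hcu
      have hyb : y = b := by
        rcases W2_two h2c ha hb hab hca hcb hy huy' with h3 | h3
        · exact absurd h3 hyw
        · exact h3
      subst hyb
      have h3 := W2_one h1b hc huy'.symm hv hvy'.symm
      exact huv.ne h3.symm
    rcases hwabc with h3 | h3
    · exact key a b ha hb hab hca hcb h1b h3
    · exact key b a hb ha hab.symm hcb hca h1a h3
  · exfalso
    obtain ⟨w0, hw0, h0, hg⟩ := hK
    by_cases hww : w = w0
    · rw [← hww] at h0
      omega
    · exact hgw (hg w hw hww)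
  · obtain ⟨a, ha, b, hb, c, hc, d, hd', hab, hbc, hcd, h1a, h2b, h2c, h1d, hg⟩ := hQ
    have hwad : w = a ∨ w = d := by
      by_contra hn
      push Not at hn
      apply hgw
      refine hg w hw hn.1 ?_ ?_ hn.2
      · rintro rfl
        omega
      · rintro rfl
        omega
    refine Or.inr ⟨?_, Or.inr (Or.inr (Or.inl ?_))⟩
    · rw [← hec]
      exact hlt
    · rcases hwad with h3 | h3
      · subst h3
        have hbu : b = u := W2_one h1w hu huw'.symm hb hab
        subst hbu
        exact W2_core H hu hv hw hy hc hd' huv h hvy huy h2b h2c h1w h1d hbc hcd hg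
      · subst h3
        have hcu : c = u := W2_one h1w hu huw'.symm hc hcd.symm
        subst hcu
        exact W2_core H hu hv hw hy hb ha huv h hvy huy h2c h2b h1w h1a hbc.symm hab.symm
          (fun x hx h4 h5 h6 h7 => hg x hx h7 h6 h5 h4)

end Pool.Agent.Lib.H20WD
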