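import Pool.Agent.Lib.H20WD.E6
import Pool.Agent.Lib.H20WD.U3
import Pool.Agent.Lib.H20WD.W1

/-! # W3: strict upper bound, a pendant vertex -/

set_option autoImplicit false

namespace Pool.Agent.Lib.H20WD

open Finset Polynomial
open scoped Classical

variable {V : Type}

private theorem W3_le {m q' A B k : ℕ} {p p' : ℕ[X]}
    (hA : A < lam (m + 1) q' p) (hB : B ≤ lam m q' p') (hL : Le (p + X * p') (PP (m + 2) k)) :
    (q' + 1) * (A + B) < lam (m + 2) (q' + 1) (PP (m + 2) k) := by
  calc (q' + 1) * (A + B) < (q' + 1) * (lam (m + 1) q' p + lam m q' p') :=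
        Nat.mul_lt_mul_of_pos_left (Nat.add_lt_add_of_lt_of_le hA hB) (Nat.succ_pos _)
    _ = (q' + 1) * lam (m + 1) q' (p + X * p') := by rw [lam_add, lam_X]
    _ ≤ lam (m + 1 + 1) (q' + 1) (p + X * p') := lam_succ_le _ _ _
    _ ≤ lam (m + 2) (q' + 1) (PP (m + 2) k) := lam_le hL

private theorem W3_le' {m q' A B k : ℕ} {p p' : ℕ[X]}
    (hA : A ≤ lam (m + 1) q' p) (hB : B < lam m q' p') (hL : Le (p + X * p') (PP (m + 2) k)) :
    (q' + 1) * (A + B) < lam (m + 2) (q' + 1) (PP (m + 2) k) := by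
  calc (q' + 1) * (A + B) < (q' + 1) * (lam (m + 1) q' p + lam m q' p') :=
        Nat.mul_lt_mul_of_pos_left (Nat.add_lt_add_of_le_of_lt hA hB) (Nat.succ_pos _)
    _ = (q' + 1) * lam (m + 1) q' (p + X * p') := by rw [lam_add, lam_X]
    _ ≤ lam (m + 1 + 1) (q' + 1) (p + X * p') := lam_succ_le _ _ _
    _ ≤ lam (m + 2) (q' + 1) (PP (m + 2) k) := lam_le hL

private theorem W3_lt {m q' A B k : ℕ} {p p' : ℕ[X]} (hq : m + 2 ≤ q' + 1 + 1)
    (hA : A ≤ lam (m + 1) q' p) (hB : B ≤ lam m q' p') (hL : LtX (p + X * p') (PP (m + 2) k)) :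
    (q' + 1) * (A + B) < lam (m + 2) (q' + 1) (PP (m + 2) k) := by
  calc (q' + 1) * (A + B) ≤ (q' + 1) * (lam (m + 1) q' p + lam m q' p') :=
        Nat.mul_le_mul_left _ (Nat.add_le_add hA hB)
    _ = (q' + 1) * lam (m + 1) q' (p + X * p') := by rw [lam_add, lam_X]
    _ ≤ lam (m + 1 + 1) (q' + 1) (p + X * p') := lam_succ_le _ _ _
    _ < lam (m + 2) (q' + 1) (PP (m + 2) k) := LtX.lam hq (by omega) hL

/-- The strict case of `case_pend`.

Proof. As `case_pend` (file E3; `Bd` is `main_bound`). If `dg H S u ≥ 3`: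
`ec ((S.erase v).erase u) ≤ k - 3 < k - 2` and `PP_mono_lt` with `LtX.lam` (if `m ≥ 2`). Otherwise
`dg H S u = 2`. If `3 ∣ 2 k - n`: `PP_pend_lt`. If not, one of `Ext H (S.erase v)`,
`Ext H ((S.erase v).erase u)` fails (`ext_pend`): the strict bound for this one. -/
theorem pend_lt {m : ℕ} (hB : BdS V (m + 1)) (hB' : BdS V m) (H : SimpleGraph V) {S : Finset V}
    (hS : #S = m + 2) (hk : ec H S < m + 2) (hE : ¬ Ext H S) (h1 : ∀ x ∈ S, 1 ≤ dg H S x)
    {u v : V} (hu : u ∈ S) (hv : v ∈ S) (huv : H.Adj v u) (hdv : dg H S v = 1)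
    (hdu : 2 ≤ dg H S u) {q : ℕ} (hq : m + 2 ≤ q + 1) :
    cnt H S q < lam (m + 2) q (PP (m + 2) (ec H S)) := by
  have huniq : ∀ w ∈ S, H.Adj v w → w = u := by
    obtain ⟨u', _, _, h'⟩ := dg_one_iff.1 hdv
    intro w hw hvw
    rw [h' w hw hvw, h' u hu huv]
  have hsum := sum_dg H S
  have hx : m + 3 ≤ 2 * ec H S := by
    have e0 : ∑ x ∈ S, dg H S x = dg H S u + ∑ x ∈ S.erase u, dg H S x :=
      (Finset.add_sum_erase S (fun x => dg H S x) hu).symm
    have e1 : #(S.erase u) ≤ ∑ x ∈ S.erase u, dg H S x := by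
      rw [Finset.card_eq_sum_ones]
      exact Finset.sum_le_sum fun x hx => h1 x (Finset.mem_of_mem_erase hx)
    have e2 : #(S.erase u) = m + 1 := by
      rw [Finset.card_erase_of_mem hu, hS]
      rfl
    omega
  rcases q with _ | q
  · omega
  rw [cnt_pend H hu hv huv huniq q]
  have e1 := ec_erase H hv
  have hu' : u ∈ S.erase v := Finset.mem_erase.2 ⟨huv.ne', hu⟩
  have e2 := ec_erase H hu'
  have e3 := dg_erase H hv huv.symm
  have c1 : #(S.erase v) = m + 1 := by
    rw [Finset.card_erase_of_mem hv, hS]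
    rfl
  have c2 : #((S.erase v).erase u) = m := by
    rw [Finset.card_erase_of_mem hu', c1]
    rfl
  have k1 : ec H (S.erase v) = ec H S - 1 := by omega
  have hA := main_bound (m + 1) H (S.erase v) c1 (by omega) q (by omega)
  rw [k1] at hA
  have h5 := PP_pend (n := m + 2) (k := ec H S) (by omega) hk
  rw [show m + 2 - 1 = m + 1 by omega, show m + 2 - 2 = m by omega] at h5
  rcases Nat.lt_or_ge 2 (dg H S u) with hd | hd
  · have hm : 2 ≤ m := by
      have h6 : dg H S u ≤ #(S.erase u) := by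
        unfold dg
        refine Finset.card_le_card fun w hw => ?_
        rw [Finset.mem_filter] at hw
        exact Finset.mem_erase.2 ⟨hw.2.ne', hw.1⟩
      rw [Finset.card_erase_of_mem hu, hS] at h6
      omega
    have h7 : ec H ((S.erase v).erase u) < ec H S - 2 := by omega
    have hB2 : cnt H ((S.erase v).erase u) q < lam m q (PP m (ec H S - 2)) :=
      lt_of_le_of_lt (main_bound m H _ c2 (by omega) q (by omega))
        (LtX.lam (by omega) hm (PP_mono_lt h7 (by omega)))
    exact W3_le' hA hB2 h5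
  · have hd2 : dg H S u = 2 := by omega
    have k2 : ec H ((S.erase v).erase u) = ec H S - 2 := by omega
    have hB2 := main_bound m H ((S.erase v).erase u) c2 (by omega) q (by omega)
    rw [k2] at hB2
    by_cases h3 : 3 ∣ 2 * ec H S - #S
    · rw [hS] at h3
      have h8 := PP_pend_lt (n := m + 2) (k := ec H S) (by omega) hk h3
      rw [show m + 2 - 1 = m + 1 by omega, show m + 2 - 2 = m by omega] at h8
      exact W3_lt (by omega) hA hB2 h8
    · by_cases hE1 : Ext H (S.erase v)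
      · by_cases hE2 : Ext H ((S.erase v).erase u)
        · exact absurd (ext_pend H hu hv huv h1 hdv hd2 hE1 hE2 h3) hE
        · have h9 := hB' H ((S.erase v).erase u) c2 (by omega) hE2 q (by omega)
          rw [k2] at h9
          exact W3_le' hA h9 h5
      · have h9 := hB H (S.erase v) c1 (by omega) hE1 q (by omega)
        rw [k1] at h9
        exact W3_le h9 hB2 h5

end Pool.Agent.Lib.H20WD
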