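import Pool.Agent.Lib.H20WD.U6
import Pool.Agent.Lib.H20WD.D2

/-! # W8: a triangle in an extremal graph -/

set_option autoImplicit false

namespace Pool.Agent.Lib.H20WD

open Finset
open scoped Classical

variable {V : Type}

private theorem w8_nb {H : SimpleGraph V} {S : Finset V} {v u w x : V} (h2 : dg H S v = 2)
    (hu : u ∈ S) (hw : w ∈ S) (hvu : H.Adj v u) (hvw : H.Adj v w) (huw : u ≠ w) (hx : x ∈ S)
    (hvx : H.Adj v x) : x = u ∨ x = w := by
  obtain ⟨a, _, b, _, _, _, _, h⟩ := dg_two_iff.1 h2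
  rcases h u hu hvu with rfl | rfl
  · rcases h w hw hvw with rfl | rfl
    · exact absurd rfl huw
    · exact h x hx hvx
  · rcases h w hw hvw with rfl | rfl
    · exact (h x hx hvx).symm
    · exact absurd rfl huw

private theorem w8_good {H : SimpleGraph V} {S : Finset V} {v u w : V}
    (hu : u ∈ S) (hw : w ∈ S) (hvu : H.Adj v u) (hvw : H.Adj v w) (huw : H.Adj u w)
    (h2 : dg H S v = 2) (hdu : dg H S u = 2) (hdw : dg H S w = 2) : Good H S v := by
  refine ⟨Or.inr h2, fun a ha hva => ?_, fun a ha b hb hva hvb hab => ?_⟩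
  · rcases w8_nb h2 hu hw hvu hvw huw.ne ha hva with rfl | rfl
    · rw [hdu, h2]
    · rw [hdw, h2]
  · rcases w8_nb h2 hu hw hvu hvw huw.ne ha hva with rfl | rfl
    · rcases w8_nb h2 hu hw hvu hvw huw.ne hb hvb with rfl | rfl
      · exact absurd rfl hab
      · exact huw
    · rcases w8_nb h2 hu hw hvu hvw huw.ne hb hvb with rfl | rfl
      · exact huw.symm
      · exact absurd rfl hab

/-- Proof. All degrees and adjacencies in `T` are as in `S` (the vertices of `T` are not adjacent to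
`u`, `v`, `w`). `Ext H T`: if all degrees in `T` are at most one they are all one (there is no
isolated vertex in `S`) and all vertices of `S` are good; in the other cases the type of `S` is that
of `T` (a vertex is good in `S` iff it is in `T`, and `u`, `v`, `w` are good). `2 ec H S > #S` since
all degrees are positive and some are `2`. -/
theorem ext_tri (H : SimpleGraph V) {S : Finset V} {u v w : V} (hu : u ∈ S) (hv : v ∈ S)
    (hw : w ∈ S) (hvu : H.Adj v u) (hvw : H.Adj v w) (huw : H.Adj u w)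
    (h1 : ∀ x ∈ S, 1 ≤ dg H S x) (hdv : dg H S v = 2) (hdu : dg H S u = 2) (hdw : dg H S w = 2)
    (hE : Ext H (((S.erase v).erase u).erase w)) : Ext H S := by
  rw [erase_erase_erase_eq] at hE
  have hsep : ∀ x ∈ S, x ∉ ({v, u, w} : Finset V) → ∀ z ∈ ({v, u, w} : Finset V), ¬ H.Adj x z := by
    intro x hx hxZ z hz hadj
    rw [mem_insert, mem_insert, mem_singleton] at hxZ hz
    push Not at hxZ
    rcases hz with rfl | rfl | rfl
    · rcases w8_nb hdv hu hw hvu hvw huw.ne hx hadj.symm with h | h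
      · exact hxZ.2.1 h
      · exact hxZ.2.2 h
    · rcases w8_nb hdu hv hw hvu.symm huw hvw.ne hx hadj.symm with h | h
      · exact hxZ.1 h
      · exact hxZ.2.2 h
    · rcases w8_nb hdw hv hu hvw.symm huw.symm hvu.ne hx hadj.symm with h | h
      · exact hxZ.1 h
      · exact hxZ.2.1 h
  have hgv : Good H S v := w8_good hu hw hvu hvw huw hdv hdu hdw
  have hgu : Good H S u := w8_good hv hw hvu.symm huw hvw hdu hdv hdw
  have hgw : Good H S w := w8_good hv hu hvw.symm huw.symm hvu hdw hdv hdu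
  have hgZ : ∀ x ∈ ({v, u, w} : Finset V), Good H S x := by
    intro x hx
    rw [mem_insert, mem_insert, mem_singleton] at hx
    rcases hx with rfl | rfl | rfl
    · exact hgv
    · exact hgu
    · exact hgw
  have hT : ∀ x, x ∈ S \ ({v, u, w} : Finset V) → x ∈ S ∧ dg H (S \ {v, u, w}) x = dg H S x := by
    intro x hx
    rw [mem_sdiff] at hx
    exact ⟨hx.1, dg_sdiff (hsep x hx.1 hx.2)⟩
  have hcard : #S < 2 * ec H S := by
    rw [← sum_dg, card_eq_sum_ones]
    exact sum_lt_sum h1 ⟨v, hv, by omega⟩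
  have hG : ∀ x ∈ S, (x ∉ ({v, u, w} : Finset V) → Good H (S \ {v, u, w}) x) → Good H S x := by
    intro x hx h
    by_cases hxZ : x ∈ ({v, u, w} : Finset V)
    · exact hgZ x hxZ
    · exact (good_sdiff_iff hx hxZ hsep).1 (h hxZ)
  refine Or.inr ⟨hcard, ?_⟩
  rcases hE with ⟨_, hE⟩ | ⟨_, hE | hE | hE | hE⟩
  · left
    intro x hx
    refine hG x hx fun hxZ => ?_
    have hxT : x ∈ S \ ({v, u, w} : Finset V) := mem_sdiff.2 ⟨hx, hxZ⟩
    have hone : ∀ y ∈ S \ ({v, u, w} : Finset V), dg H (S \ {v, u, w}) y = 1 := by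
      intro y hy
      have h3 := hE y hy
      have h4 := hT y hy
      have h5 := h1 y h4.1
      omega
    refine ⟨Or.inl (hone x hxT), fun a ha _ => by rw [hone a ha, hone x hxT],
      fun a ha b hb hxa hxb hab => ?_⟩
    obtain ⟨y, _, _, hy⟩ := dg_one_iff.1 (hone x hxT)
    exact absurd ((hy a ha hxa).trans (hy b hb hxb).symm) hab
  · left
    intro x hx
    exact hG x hx fun hxZ => hE x (mem_sdiff.2 ⟨hx, hxZ⟩)
  · right; left
    obtain ⟨c, hc, a, ha, b, hb, hab, hca, hcb, h3, h4, h5, h6⟩ := hE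
    refine ⟨c, (hT c hc).1, a, (hT a ha).1, b, (hT b hb).1, hab, hca, hcb, ?_, ?_, ?_, ?_⟩
    · rw [← (hT c hc).2, h3]
    · rw [← (hT a ha).2, h4]
    · rw [← (hT b hb).2, h5]
    · intro x hx hxc hxa hxb
      exact hG x hx fun hxZ => h6 x (mem_sdiff.2 ⟨hx, hxZ⟩) hxc hxa hxb
  · right; right; left
    obtain ⟨c, hc, h3, h6⟩ := hE
    refine ⟨c, (hT c hc).1, ?_, ?_⟩
    · rw [← (hT c hc).2, h3]
    · intro x hx hxc
      exact hG x hx fun hxZ => h6 x (mem_sdiff.2 ⟨hx, hxZ⟩) hxc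
  · right; right; right
    obtain ⟨a, ha, b, hb, c, hc, d, hd, hab, hbc, hcd, h3, h4, h5, h6, h7⟩ := hE
    refine ⟨a, (hT a ha).1, b, (hT b hb).1, c, (hT c hc).1, d, (hT d hd).1, hab, hbc, hcd,
      ?_, ?_, ?_, ?_, ?_⟩
    · rw [← (hT a ha).2, h3]
    · rw [← (hT b hb).2, h4]
    · rw [← (hT c hc).2, h5]
    · rw [← (hT d hd).2, h6]
    · intro x hx hxa hxb hxc hxd
      exact hG x hx fun hxZ => h7 x (mem_sdiff.2 ⟨hx, hxZ⟩) hxa hxb hxc hxd

end Pool.Agent.Lib.H20WD
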