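import Pool.Agent.Lib.H20WD.E6
import Pool.Agent.Lib.H20WD.U0
import Pool.Agent.Lib.H20WD.W8

/-! # W5: strict upper bound, a component which is a triangle -/

set_option autoImplicit false

namespace Pool.Agent.Lib.H20WD

open Finset Polynomial
open scoped Classical

variable {V : Type}

private theorem w5_nb (H : SimpleGraph V) {S : Finset V} {u v w : V} (hu : u ∈ S) (hw : w ∈ S)
    (hne : u ≠ w) (hvu : H.Adj v u) (hvw : H.Adj v w) (h2 : dg H S v = 2) :
    ∀ x ∈ S, H.Adj v x → x = u ∨ x = w := by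
  intro x hx hvx
  have hsub : ({u, w} : Finset V) ⊆ S.filter fun y => H.Adj v y := by
    intro y hy
    rw [mem_insert, mem_singleton] at hy
    rcases hy with rfl | rfl
    · exact mem_filter.2 ⟨hu, hvu⟩
    · exact mem_filter.2 ⟨hw, hvw⟩
  have hcard : #(S.filter fun y => H.Adj v y) ≤ #({u, w} : Finset V) := by
    rw [card_pair hne]
    exact h2.le
  have heq := eq_of_subset_of_card_le hsub hcard
  have hx' : x ∈ ({u, w} : Finset V) := by
    rw [heq]
    exact mem_filter.2 ⟨hx, hvx⟩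
  rwa [mem_insert, mem_singleton] at hx'

/-- The numbers of edges after deleting the vertices of a triangle. -/
private theorem w5_ec (H : SimpleGraph V) {S : Finset V} {u v w : V} (hu : u ∈ S) (hv : v ∈ S)
    (hw : w ∈ S) (hvu : H.Adj v u) (hvw : H.Adj v w) (huw : H.Adj u w) (h2 : dg H S v = 2) :
    ec H (S.erase v) + 2 = ec H S ∧
      ec H ((S.erase v).erase u) + dg H S u + 1 = ec H S ∧
      ec H ((S.erase v).erase w) + dg H S w + 1 = ec H S ∧
      ec H (((S.erase v).erase u).erase w) + dg H S u + dg H S w = ec H S + 1 := by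
  have hu1 : u ∈ S.erase v := mem_erase.2 ⟨hvu.symm.ne, hu⟩
  have hw1 : w ∈ S.erase v := mem_erase.2 ⟨hvw.symm.ne, hw⟩
  have hw2 : w ∈ (S.erase v).erase u := mem_erase.2 ⟨huw.symm.ne, hw1⟩
  have e1 := ec_erase H hv
  have e2 := ec_erase H hu1
  have e3 := ec_erase H hw1
  have e4 := ec_erase H hw2
  have d1 := dg_erase H (S := S) hv hvu.symm
  have d2 := dg_erase H (S := S) hv hvw.symm
  have d3 := dg_erase H (S := S.erase v) hu1 huw.symm
  refine ⟨by omega, by omega, by omega, by omega⟩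

private theorem w5_card {S : Finset V} {m : ℕ} {u v w : V} (hS : #S = m + 3) (hu : u ∈ S)
    (hv : v ∈ S) (hw : w ∈ S) (hvu : v ≠ u) (hvw : v ≠ w) (huw : u ≠ w) :
    #(S.erase v) = m + 2 ∧ #((S.erase v).erase u) = m + 1 ∧ #((S.erase v).erase w) = m + 1 ∧
      #(((S.erase v).erase u).erase w) = m := by
  have hu1 : u ∈ S.erase v := mem_erase.2 ⟨hvu.symm, hu⟩
  have hw1 : w ∈ S.erase v := mem_erase.2 ⟨hvw.symm, hw⟩
  have hw2 : w ∈ (S.erase v).erase u := mem_erase.2 ⟨huw.symm, hw1⟩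
  have e1 := card_erase_of_mem hv
  have e2 := card_erase_of_mem hu1
  have e3 := card_erase_of_mem hw1
  have e4 := card_erase_of_mem hw2
  refine ⟨by omega, by omega, by omega, by omega⟩

/-- The strict case of `case_tri`.

Proof. As `case_tri` (file E5; `Bd` is `main_bound`). `T` is not extremal by `ext_tri`, so
`cnt H T q' < lam m q' P`. -/
theorem tri_lt {m : ℕ} (hB : BdS V m) (H : SimpleGraph V) {S : Finset V} (hS : #S = m + 3)
    (hk : ec H S < m + 3) (hE : ¬ Ext H S) (h1 : ∀ x ∈ S, 1 ≤ dg H S x)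
    (hx : m + 6 ≤ 2 * ec H S) {u v w : V} (hu : u ∈ S) (hv : v ∈ S) (hw : w ∈ S)
    (hvu : H.Adj v u) (hvw : H.Adj v w) (huw : H.Adj u w) (h2 : dg H S v = 2)
    (hdu : dg H S u = 2) (hdw : dg H S w = 2) {q : ℕ} (hq : m + 3 ≤ q + 1) :
    cnt H S q < lam (m + 3) q (PP (m + 3) (ec H S)) := by
  obtain ⟨e1, e2, e3, e4⟩ := w5_ec H hu hv hw hvu hvw huw h2
  obtain ⟨c1, c2, c3, c4⟩ := w5_card hS hu hv hw hvu.ne hvw.ne huw.ne
  have hnbv := w5_nb H hu hw huw.ne hvu hvw h2
  have hnbu := w5_nb H hv hw hvw.ne hvu.symm huw hdu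
  have hnbw := w5_nb H hv hu hvu.ne hvw.symm huw.symm hdw
  obtain ⟨q', rfl⟩ : ∃ q', q = q' + 1 := ⟨q - 1, by omega⟩
  obtain ⟨q'', hq''⟩ : ∃ q'', q' = q'' + 1 := ⟨q' - 1, by omega⟩
  have hET : ¬ Ext H (((S.erase v).erase u).erase w) := fun h =>
    hE (ext_tri H hu hv hw hvu hvw huw h1 h2 hdu hdw h)
  set k := ec H S with hkdef
  have hT : ec H (((S.erase v).erase u).erase w) = k - 3 := by omega
  have hSv : ec H (S.erase v) = k - 2 := by omega
  have b1 := main_bound (V := V) (m + 2) H (S.erase v) c1 (by omega) q' (by omega)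
  rw [hSv] at b1
  have htri' : PP (m + 2) (k - 2) = bb * PP m (k - 3) := PP_tri' (n := m + 3) (k := k) (by omega) hk
  rw [htri'] at b1
  have b4 := hB H (((S.erase v).erase u).erase w) c4 (by omega) hET q' (by omega)
  have b4' := main_bound (V := V) m H (((S.erase v).erase u).erase w) c4 (by omega) q'' (by omega)
  rw [hT] at b4 b4'
  have hu1 : u ∈ (S.erase v).erase w :=
    mem_erase.2 ⟨huw.ne, mem_erase.2 ⟨hvu.symm.ne, hu⟩⟩
  have hw1 : w ∈ (S.erase v).erase u :=
    mem_erase.2 ⟨huw.symm.ne, mem_erase.2 ⟨hvw.symm.ne, hw⟩⟩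
  have hisou : ∀ x ∈ (S.erase v).erase w, ¬ H.Adj u x := by
    intro x hx hux
    rw [mem_erase, mem_erase] at hx
    rcases hnbu x hx.2.2 hux with h | h
    · exact hx.2.1 h
    · exact hx.1 h
  have hisow : ∀ x ∈ (S.erase v).erase u, ¬ H.Adj w x := by
    intro x hx hwx
    rw [mem_erase, mem_erase] at hx
    rcases hnbw x hx.2.2 hwx with h | h
    · exact hx.2.1 h
    · exact hx.1 h
  have b2 : cnt H ((S.erase v).erase w) q' ≤ lam (m + 1) q' (PP m (k - 3)) := by
    rw [hq'', cnt_iso H hu1 hisou q'', erase_right_comm]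
    exact (Nat.mul_le_mul_left _ b4').trans (lam_succ_le _ _ _)
  have b3 : cnt H ((S.erase v).erase u) q' ≤ lam (m + 1) q' (PP m (k - 3)) := by
    rw [hq'', cnt_iso H hw1 hisow q'']
    exact (Nat.mul_le_mul_left _ b4').trans (lam_succ_le _ _ _)
  rw [cnt_three H hu hv hw hvu hvw huw hnbv q']
  have htri : PP (m + 3) k = aa * PP m (k - 3) := PP_tri (n := m + 3) (k := k) (by omega) hk
  rw [htri]
  have hpoly : aa * PP m (k - 3) = bb * PP m (k - 3) + X * PP m (k - 3) + X * PP m (k - 3) +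
      X * (X * PP m (k - 3)) := by
    unfold aa bb
    ring
  rw [hpoly]
  refine lt_of_lt_of_le ((Nat.mul_lt_mul_left (Nat.succ_pos q')).2 ?_) (lam_succ_le (m + 2) q' _)
  rw [lam_add, lam_add, lam_add, lam_X (m + 1), lam_X (m + 1), lam_X m]
  exact Nat.add_lt_add_of_le_of_lt (Nat.add_le_add (Nat.add_le_add b1 b2) b3) b4

end Pool.Agent.Lib.H20WD
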