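import Pool.Agent.Lib.H20WD.E6
import Pool.Agent.Lib.H20WD.U3
import Pool.Agent.Lib.H20WD.U4

/-! # W7: strict upper bound, the other cases -/

set_option autoImplicit false

namespace Pool.Agent.Lib.H20WD

open Finset Polynomial
open scoped Classical

variable {V : Type}

private theorem W7_nb (H : SimpleGraph V) {S : Finset V} {u v w : V} (hu : u ∈ S) (hw : w ∈ S)
    (hne : u ≠ w) (hvu : H.Adj v u) (hvw : H.Adj v w) (h2 : dg H S v = 2) :
    ∀ x ∈ S, H.Adj v x → x = u ∨ x = w := by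
  intro x hx hvx
  have hsub : ({u, w} : Finset V) ⊆ S.filter fun y => H.Adj v y := by
    intro y hy
    rw [mem_insert, mem_singleton] at hy
    rcases hy with rfl | rfl
    · exact mem_filter.2 ⟨hu, hvu⟩
    · exact mem_filter.2 ⟨hw, hvw⟩
  have hcard : #(S.filter fun y => H.Adj v y) ≤ #({u, w} : Finset V) := by
    rw [card_pair hne]
    exact h2.le
  have heq := eq_of_subset_of_card_le hsub hcard
  have hx' : x ∈ ({u, w} : Finset V) := by
    rw [heq]
    exact mem_filter.2 ⟨hx, hvx⟩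
  rwa [mem_insert, mem_singleton] at hx'

private theorem W7_ec (H : SimpleGraph V) {S : Finset V} {u v w : V} (hu : u ∈ S) (hv : v ∈ S)
    (hw : w ∈ S) (hvu : H.Adj v u) (hvw : H.Adj v w) (huw : H.Adj u w) (h2 : dg H S v = 2) :
    ec H (S.erase v) + 2 = ec H S ∧
      ec H ((S.erase v).erase u) + dg H S u + 1 = ec H S ∧
      ec H ((S.erase v).erase w) + dg H S w + 1 = ec H S ∧
      ec H (((S.erase v).erase u).erase w) + dg H S u + dg H S w = ec H S + 1 := by
  have hu1 : u ∈ S.erase v := mem_erase.2 ⟨hvu.symm.ne, hu⟩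
  have hw1 : w ∈ S.erase v := mem_erase.2 ⟨hvw.symm.ne, hw⟩
  have hw2 : w ∈ (S.erase v).erase u := mem_erase.2 ⟨huw.symm.ne, hw1⟩
  have e1 := ec_erase H hv
  have e2 := ec_erase H hu1
  have e3 := ec_erase H hw1
  have e4 := ec_erase H hw2
  have d1 := dg_erase H (S := S) hv hvu.symm
  have d2 := dg_erase H (S := S) hv hvw.symm
  have d3 := dg_erase H (S := S.erase v) hu1 huw.symm
  refine ⟨by omega, by omega, by omega, by omega⟩

private theorem W7_card {S : Finset V} {m : ℕ} {u v w : V} (hS : #S = m + 3) (hu : u ∈ S)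
    (hv : v ∈ S) (hw : w ∈ S) (hvu : v ≠ u) (hvw : v ≠ w) (huw : u ≠ w) :
    #(S.erase v) = m + 2 ∧ #((S.erase v).erase u) = m + 1 ∧ #((S.erase v).erase w) = m + 1 ∧
      #(((S.erase v).erase u).erase w) = m := by
  have hu1 : u ∈ S.erase v := mem_erase.2 ⟨hvu.symm, hu⟩
  have hw1 : w ∈ S.erase v := mem_erase.2 ⟨hvw.symm, hw⟩
  have hw2 : w ∈ (S.erase v).erase u := mem_erase.2 ⟨huw.symm, hw1⟩
  have e1 := card_erase_of_mem hv
  have e2 := card_erase_of_mem hu1
  have e3 := card_erase_of_mem hw1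
  have e4 := card_erase_of_mem hw2
  refine ⟨by omega, by omega, by omega, by omega⟩

/-- The last step: a strict inequality for `n + 1` vertices and `q'` colours. -/
private theorem W7_fin {n q' c : ℕ} {p p' : ℕ[X]} (hq : n + 2 ≤ q' + 1) (hp : LtX p p')
    (hc : c ≤ lam (n + 2) q' p) : (q' + 1) * c < lam (n + 3) (q' + 1) p' :=
  lt_of_lt_of_le (Nat.mul_lt_mul_of_pos_left (lt_of_le_of_lt hc (LtX.lam hq (by omega) hp))
    (Nat.succ_pos q')) (lam_succ_le (n + 2) q' p')

/-- The strict case of `case_two`. Proof. As `case_two` (file E4), with `PP_two_lt` and `LtX.lam`. -/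
theorem two_lt {m : ℕ} (H : SimpleGraph V) {S : Finset V} (hS : #S = m + 3)
    (hk : ec H S < m + 3) (hx : m + 6 ≤ 2 * ec H S) {u v w : V}
    (hu : u ∈ S) (hv : v ∈ S) (hw : w ∈ S) (hne : u ≠ w) (hvu : H.Adj v u) (hvw : H.Adj v w)
    (huw : ¬ H.Adj u w) (h2 : dg H S v = 2) (hdu : 2 ≤ dg H S u) (hdw : 2 ≤ dg H S w) {q : ℕ}
    (hq : m + 3 ≤ q + 1) : cnt H S q < lam (m + 3) q (PP (m + 3) (ec H S)) := by
  have hB : Bd V (m + 2) := main_bound _
  have hB' : Bd V (m + 1) := main_bound _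
  obtain ⟨q', rfl⟩ : ∃ q', q = q' + 1 := ⟨q - 1, by omega⟩
  have hall := W7_nb H hu hw hne hvu hvw h2
  have huv' : u ∈ S.erase v := mem_erase.2 ⟨hvu.ne.symm, hu⟩
  have hwv' : w ∈ S.erase v := mem_erase.2 ⟨hvw.ne.symm, hw⟩
  have c1 : #(S.erase v) = m + 2 := by rw [card_erase_of_mem hv, hS]; rfl
  have c2 : #((S.erase v).erase w) = m + 1 := by rw [card_erase_of_mem hwv', c1]; rfl
  have c3 : #((S.erase v).erase u) = m + 1 := by rw [card_erase_of_mem huv', c1]; rfl
  have e1 := ec_erase H hv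
  have e2 := ec_erase H hwv'
  have e3 := ec_erase H huv'
  have g2 := dg_erase H hv hvw.symm
  have g3 := dg_erase H hv hvu.symm
  have b1 := hB H (S.erase v) c1 (by omega) q' (by omega)
  have b2 := hB' H ((S.erase v).erase w) c2 (by omega) q' (by omega)
  have b3 := hB' H ((S.erase v).erase u) c3 (by omega) q' (by omega)
  have l2 : Le (PP (m + 1) (ec H ((S.erase v).erase w))) (PP (m + 1) (ec H S - 3)) :=
    PP_mono (by omega) (by omega)
  have l3 : Le (PP (m + 1) (ec H ((S.erase v).erase u))) (PP (m + 1) (ec H S - 3)) :=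
    PP_mono (by omega) (by omega)
  rw [show ec H (S.erase v) = ec H S - 2 by omega] at b1
  have b2' := b2.trans (lam_le l2)
  have b3' := b3.trans (lam_le l3)
  have hX : lam (m + 2) q' (X * PP (m + 1) (ec H S - 3)) = lam (m + 1) q' (PP (m + 1) (ec H S - 3)) :=
    lam_X _ _ _
  rw [cnt_two H hu hv hw hne hvu hvw huw hall]
  have hP : LtX (PP (m + 2) (ec H S - 2) + 2 * X * PP (m + 1) (ec H S - 3)) (PP (m + 3) (ec H S)) :=
    PP_two_lt (n := m + 3) (k := ec H S) (by omega) hk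
  refine W7_fin (by omega) hP ?_
  rw [show (2 : ℕ[X]) * X * PP (m + 1) (ec H S - 3) =
      X * PP (m + 1) (ec H S - 3) + X * PP (m + 1) (ec H S - 3) by ring,
    lam_add, lam_add]
  omega

/-- The strict case of `case_three`. Proof. As `case_three` (file E5), with `PP_three_lt` and
`LtX.lam`. -/
theorem three_lt {m : ℕ} (H : SimpleGraph V) {S : Finset V} (hS : #S = m + 3)
    (hk : ec H S < m + 3) (hx : m + 8 ≤ 2 * ec H S) {u v w : V} (hu : u ∈ S) (hv : v ∈ S)
    (hw : w ∈ S) (hvu : H.Adj v u) (hvw : H.Adj v w) (huw : H.Adj u w) (h2 : dg H S v = 2)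
    (hdu : 3 ≤ dg H S u) (hdw : 2 ≤ dg H S w) {q : ℕ} (hq : m + 3 ≤ q + 1) :
    cnt H S q < lam (m + 3) q (PP (m + 3) (ec H S)) := by
  have hB : Bd V (m + 2) := main_bound _
  have hB' : Bd V (m + 1) := main_bound _
  have hB'' : Bd V m := main_bound _
  obtain ⟨e1, e2, e3, e4⟩ := W7_ec H hu hv hw hvu hvw huw h2
  obtain ⟨c1, c2, c3, c4⟩ := W7_card hS hu hv hw hvu.ne hvw.ne huw.ne
  have hnbv := W7_nb H hu hw huw.ne hvu hvw h2
  obtain ⟨q', rfl⟩ : ∃ q', q = q' + 1 := ⟨q - 1, by omega⟩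
  set k := ec H S with hkdef
  have hSv : ec H (S.erase v) = k - 2 := by omega
  have b1 := hB H (S.erase v) c1 (by omega) q' (by omega)
  rw [hSv] at b1
  have b2 : cnt H ((S.erase v).erase w) q' ≤ lam (m + 1) q' (PP (m + 1) (k - 3)) :=
    (hB' H ((S.erase v).erase w) c3 (by omega) q' (by omega)).trans
      (lam_le (PP_mono (by omega) (by omega)))
  have b3 : cnt H ((S.erase v).erase u) q' ≤ lam (m + 1) q' (PP (m + 1) (k - 4)) :=
    (hB' H ((S.erase v).erase u) c2 (by omega) q' (by omega)).trans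
      (lam_le (PP_mono (by omega) (by omega)))
  have b4 : cnt H (((S.erase v).erase u).erase w) q' ≤ lam m q' (PP m (k - 4)) :=
    (hB'' H (((S.erase v).erase u).erase w) c4 (by omega) q' (by omega)).trans
      (lam_le (PP_mono (by omega) (by omega)))
  rw [cnt_three H hu hv hw hvu hvw huw hnbv q']
  have hthree : LtX (PP (m + 2) (k - 2) + X * (PP (m + 1) (k - 4) + PP (m + 1) (k - 3)) +
      X ^ 2 * PP m (k - 4)) (PP (m + 3) k) := PP_three_lt (n := m + 3) (k := k) (by omega) hk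
  refine W7_fin (by omega) hthree ?_
  rw [pow_two, mul_assoc, lam_add, lam_add, lam_X (m + 1), lam_X (m + 1), lam_X m, lam_add]
  omega

/-- The strict case of `case_big`. Proof. As `case_big` (file E2), with `phi_lt`. -/
theorem big_lt {n : ℕ} (H : SimpleGraph V) {S : Finset V} {v : V} (hv : v ∈ S)
    (hS : #S = n + 1) (hk : ec H S < n + 1) (hd : 3 ≤ dg H S v)
    (h : ∀ u ∈ S, H.Adj v u → dg H S v ≤ dg H S u)
    (hx : n + 1 + dg H S v ^ 2 ≤ 2 * ec H S + 1) {q : ℕ} (hq : n + 1 ≤ q + 1) :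
    cnt H S q < lam (n + 1) q (PP (n + 1) (ec H S)) := by
  have hdk : dg H S v ≤ ec H S := by
    have := ec_erase H hv
    omega
  have h1 := peel (main_bound n) (dg H S v) (dg H S v) H S v hv hS rfl le_rfl h (by omega) q (by omega)
  refine h1.trans_lt ?_
  have h2 := phi_lt (n := n + 1) (k := ec H S) (q := q) (d := dg H S v) hq hd (by omega) hk
  refine lt_of_le_of_lt (le_of_eq ?_) h2
  unfold Phi
  rw [lam_add, lam_X, lam_sum, Nat.add_sub_cancel]

end Pool.Agent.Lib.H20WD
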